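import Pool.Agent.H98.ACP.GramB1

/-!
Module GramB2 (project V3).  The Gram trick for the Albanese sums, blockwise.
PROOF.  As AC.gram2: torsion_of_forall, f : A c₀ →+ ℚ.  x_t(K') = minors (N t) K' (as a rational number), K' : ∀ c, J c → ι c, and
y_t(I', I) = (∏ c ≠ c₀, minor (N t c) (I' c)) * f (minorA (N t c₀) (q t c₀) I), I' : ∀ c : {c // c ≠ c₀}, J c → ι c (or I' over all c, which
only multiplies by the number of functions J c₀ → ι c₀, nonempty because of K'), I : Option (J c₀) → ι c₀.  Then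
⟨x_s, x_t⟩ = const * ∏ c, det(N_s,c N_t,c) (cauchy_binetB) and ⟨y_s, y_t⟩ = const * (∏ c ≠ c₀, det(N_s,c N_t,c)) * bordered determinant
(AC.cauchy_binet for Option (J c₀), map_minorA), so by AC.map_albSum with w i = f (q s c₀ i) and U = N s:
⟨x_s,x_t⟩⟨y_s,y_t⟩ = const * ∑ i, f (q s c₀ i) * f (albSumB (N s) (N t) (q t) c₀ i).  The hypothesis h (U = N s, c = c₀) gives
∑ t, e t * ⟨x_s,x_t⟩⟨y_s,y_t⟩ = 0 for every s; AC.gram_squares.
-/

set_option autoImplicit false

namespace ACP

open AC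

variable {C : Type} [Fintype C] [DecidableEq C] {J ι : C → Type} [∀ c, Fintype (J c)]
  [∀ c, DecidableEq (J c)] [∀ c, Fintype (ι c)] [∀ c, DecidableEq (ι c)] {T : Type} [Fintype T]

omit [∀ c, DecidableEq (ι c)] in
/-- a sum over families of a product is the product of the sums -/
theorem GramB2_prod_sum (g : ∀ c, (J c → ι c) → ℚ) :
    ∑ I : ∀ c, J c → ι c, ∏ c, g c (I c) = ∏ c, ∑ I : J c → ι c, g c I := by
  rw [Finset.prod_univ_sum, Fintype.piFinset_univ]

omit [Fintype C] [DecidableEq C] [∀ c, Fintype (ι c)] [∀ c, DecidableEq (ι c)] in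
/-- the cast of a minor -/
theorem GramB2_minor_cast (M : ∀ c, J c → ι c → ℤ) (c : C) (K : J c → ι c) :
    ((minor (M c) K : ℤ) : ℚ) = Matrix.det (fun j l : J c => ((M c l (K j) : ℤ) : ℚ)) := by
  simp only [minor]
  rw [show (((Matrix.det (fun j l : J c => M c l (K j)) : ℤ)) : ℚ) =
    Int.castRingHom ℚ (Matrix.det (fun j l : J c => M c l (K j))) from rfl, RingHom.map_det]
  rfl

omit [Fintype C] [DecidableEq C] in
/-- Cauchy-Binet in one block -/
theorem GramB2_block (U M : ∀ c, J c → ι c → ℤ) (c : C) :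
    ∑ K : J c → ι c, (minor (U c) K : ℚ) * (minor (M c) K : ℚ) =
      ((Fintype.card (J c)).factorial : ℚ) *
        Matrix.det (fun j l : J c => ∑ i, (U c j i : ℚ) * (M c l i : ℚ)) := by
  rw [cauchy_binet (fun j i => (U c j i : ℚ)) (fun j i => (M c j i : ℚ))]
  refine Finset.sum_congr rfl fun K _ => ?_
  rw [GramB2_minor_cast, GramB2_minor_cast]

/-- the scalar product of the vectors of products of minors -/
theorem GramB2_all (U M : ∀ c, J c → ι c → ℤ) :
    ∑ K : ∀ c, J c → ι c, ((minors U K : ℤ) : ℚ) * ((minors M K : ℤ) : ℚ) =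
      ∏ c, (((Fintype.card (J c)).factorial : ℚ) *
        Matrix.det (fun j l : J c => ∑ i, (U c j i : ℚ) * (M c l i : ℚ))) := by
  rw [Finset.prod_congr rfl fun c _ => (GramB2_block U M c).symm, ← GramB2_prod_sum]
  refine Finset.sum_congr rfl fun K _ => ?_
  simp only [minors]
  push_cast
  rw [Finset.prod_mul_distrib]

/-- the scalar product of the vectors of products of minors off one block -/
theorem GramB2_off (c₀ : C) (U M : ∀ c, J c → ι c → ℤ) :
    ∑ K : ∀ c, J c → ι c, ((minorsOff c₀ U K : ℤ) : ℚ) * ((minorsOff c₀ M K : ℤ) : ℚ) =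
      (Fintype.card (J c₀ → ι c₀) : ℚ) *
      ∏ c ∈ Finset.univ.erase c₀, (((Fintype.card (J c)).factorial : ℚ) *
        Matrix.det (fun j l : J c => ∑ i, (U c j i : ℚ) * (M c l i : ℚ))) := by
  have h1 := GramB2_prod_sum (J := J) (ι := ι)
    (fun c K => if c = c₀ then (1 : ℚ) else (minor (U c) K : ℚ) * (minor (M c) K : ℚ))
  rw [← Finset.mul_prod_erase Finset.univ _ (Finset.mem_univ c₀)] at h1
  have h2 : ∀ c ∈ Finset.univ.erase c₀, (∑ K : J c → ι c,
      if c = c₀ then (1 : ℚ) else (minor (U c) K : ℚ) * (minor (M c) K : ℚ)) =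
      ((Fintype.card (J c)).factorial : ℚ) *
        Matrix.det (fun j l : J c => ∑ i, (U c j i : ℚ) * (M c l i : ℚ)) := by
    intro c hc
    rw [← GramB2_block U M c]
    refine Finset.sum_congr rfl fun K _ => ?_
    rw [if_neg (Finset.ne_of_mem_erase hc)]
  rw [Finset.prod_congr rfl h2] at h1
  have h3 : (∑ K : J c₀ → ι c₀,
      if c₀ = c₀ then (1 : ℚ) else (minor (U c₀) K : ℚ) * (minor (M c₀) K : ℚ)) =
      (Fintype.card (J c₀ → ι c₀) : ℚ) := by
    simp
  rw [h3] at h1
  rw [← h1]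
  refine Finset.sum_congr rfl fun K _ => ?_
  rw [← Finset.mul_prod_erase Finset.univ _ (Finset.mem_univ c₀), if_pos rfl, one_mul]
  simp only [minorsOff]
  push_cast
  rw [← Finset.prod_mul_distrib]
  refine Finset.prod_congr rfl fun c hc => ?_
  rw [if_neg (Finset.ne_of_mem_erase hc)]

/-- the Albanese sum of a block in terms of the bordered determinant -/
theorem GramB2_albSumB {A : C → Type} [∀ c, AddCommGroup (A c)] (c₀ : C) (f : A c₀ →+ ℚ)
    (U M : ∀ c, J c → ι c → ℤ) (q : ∀ c, ι c → A c) (w : ι c₀ → ℚ) :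
    ∑ i, w i * f (albSumB U M q c₀ i) =
      (∏ c ∈ Finset.univ.erase c₀,
        (Matrix.det (fun j l : J c => ∑ i, (U c j i : ℚ) * (M c l i : ℚ))) ^ 2) *
      (Matrix.det (fun j l : J c₀ => ∑ i, (U c₀ j i : ℚ) * (M c₀ l i : ℚ)) *
      Matrix.det (fun r c : Option (J c₀) => ∑ i,
        (Option.elim r w (fun l i => (U c₀ l i : ℚ))) i *
        (Option.elim c (fun i => f (q c₀ i)) (fun l i => (M c₀ l i : ℚ))) i)) := by
  rw [← map_albSum, Finset.mul_sum]
  refine Finset.sum_congr rfl fun i _ => ?_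
  simp only [albSumB]
  rw [map_zsmul, zsmul_eq_mul]
  have h1 : ∀ c, ((Matrix.det (fun j l : J c => ∑ i, U c j i * M c l i) : ℤ) : ℚ) =
      Matrix.det (fun j l : J c => ∑ i, (U c j i : ℚ) * (M c l i : ℚ)) := by
    intro c
    set X : Matrix (J c) (J c) ℤ := fun j l => ∑ i, U c j i * M c l i with hX
    set Y : Matrix (J c) (J c) ℚ := fun j l => ∑ i, (U c j i : ℚ) * (M c l i : ℚ) with hY
    have h2 : X.map (Int.castRingHom ℚ) = Y := by
      ext j l
      simp [hX, hY]
    rw [← h2]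
    exact RingHom.map_det (Int.castRingHom ℚ) X
  rw [Int.cast_prod]
  simp only [Int.cast_pow, h1]
  ring

theorem gramB2 {A : C → Type} [∀ c, AddCommGroup (A c)] (N : T → ∀ c, J c → ι c → ℤ) (e : T → ℤ)
    (q : T → ∀ c, ι c → A c)
    (h : ∀ (U : ∀ c, J c → ι c → ℤ) (c : C) (i : ι c),
      ∑ t, e t • albSumB U (N t) (q t) c i = 0) :
    ∀ (c₀ : C) (I : Option (J c₀) → ι c₀) (I' K' : ∀ c, J c → ι c), ∃ M : ℕ, 0 < M ∧
      M • ∑ t, (e t * (minorsOff c₀ (N t) I' * minors (N t) K')) •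
        minorA (N t c₀) (q t c₀) I = 0 := by
  intro c₀ I I' K'
  refine torsion_of_forall _ fun f => ?_
  set x : T → (∀ c, J c → ι c) → ℚ := fun t K => ((minors (N t) K : ℤ) : ℚ) with hx
  set y : T → ((∀ c, J c → ι c) × (Option (J c₀) → ι c₀)) → ℚ := fun t P =>
    ((minorsOff c₀ (N t) P.1 : ℤ) : ℚ) * f (minorA (N t c₀) (q t c₀) P.2) with hy
  have hy' : ∀ s t, ∑ P, y s P * y t P =
      (∑ K : ∀ c, J c → ι c, ((minorsOff c₀ (N s) K : ℤ) : ℚ) *
        ((minorsOff c₀ (N t) K : ℤ) : ℚ)) *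
      (((Fintype.card (Option (J c₀))).factorial : ℚ) *
      Matrix.det (fun r c : Option (J c₀) =>
        ∑ i, (Option.elim r (fun i => f (q s c₀ i)) (fun l i => (N s c₀ l i : ℚ))) i *
        (Option.elim c (fun i => f (q t c₀ i)) (fun l i => (N t c₀ l i : ℚ))) i)) := by
    intro s t
    rw [cauchy_binet (fun r : Option (J c₀) => (Option.elim r (fun i => f (q s c₀ i))
      (fun l i => (N s c₀ l i : ℚ)))) (fun r : Option (J c₀) => (Option.elim r
      (fun i => f (q t c₀ i)) (fun l i => (N t c₀ l i : ℚ)))), Finset.sum_mul_sum,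
      Fintype.sum_prod_type]
    refine Finset.sum_congr rfl fun K _ => ?_
    refine Finset.sum_congr rfl fun L _ => ?_
    rw [hy]
    simp only [map_minorA]
    ring
  have h1 : ∀ s, ∑ t, (e t : ℚ) * ((∑ K, x s K * x t K) * (∑ P, y s P * y t P)) = 0 := by
    intro s
    have h2 : ∀ t, (∑ K, x s K * x t K) * (∑ P, y s P * y t P) =
        (((Fintype.card (J c₀)).factorial : ℚ) *
          (∏ c ∈ Finset.univ.erase c₀, ((Fintype.card (J c)).factorial : ℚ)) ^ 2 *
          (Fintype.card (J c₀ → ι c₀) : ℚ) *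
          ((Fintype.card (Option (J c₀))).factorial : ℚ)) *
        ∑ i, f (q s c₀ i) * f (albSumB (N s) (N t) (q t) c₀ i) := by
      intro t
      rw [hy', GramB2_off, GramB2_albSumB, hx]
      simp only
      rw [GramB2_all, ← Finset.mul_prod_erase Finset.univ _ (Finset.mem_univ c₀),
        Finset.prod_mul_distrib, Finset.prod_pow]
      ring
    simp only [h2]
    have h3 : ∑ t, (e t : ℚ) * ∑ i, f (q s c₀ i) * f (albSumB (N s) (N t) (q t) c₀ i) = 0 := by
      simp only [Finset.mul_sum]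
      rw [Finset.sum_comm]
      refine Finset.sum_eq_zero fun i _ => ?_
      have h4 := congrArg f (h (N s) c₀ i)
      rw [map_sum, map_zero] at h4
      simp only [map_zsmul, zsmul_eq_mul] at h4
      calc ∑ t, (e t : ℚ) * (f (q s c₀ i) * f (albSumB (N s) (N t) (q t) c₀ i))
          = f (q s c₀ i) * ∑ t, (e t : ℚ) * f (albSumB (N s) (N t) (q t) c₀ i) := by
            rw [Finset.mul_sum]
            exact Finset.sum_congr rfl fun t _ => by ring
        _ = 0 := by rw [h4, mul_zero]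
    calc _ = (((Fintype.card (J c₀)).factorial : ℚ) *
          (∏ c ∈ Finset.univ.erase c₀, ((Fintype.card (J c)).factorial : ℚ)) ^ 2 *
          (Fintype.card (J c₀ → ι c₀) : ℚ) *
          ((Fintype.card (Option (J c₀))).factorial : ℚ)) *
        ∑ t, (e t : ℚ) * ∑ i, f (q s c₀ i) * f (albSumB (N s) (N t) (q t) c₀ i) := by
          rw [Finset.mul_sum]
          exact Finset.sum_congr rfl fun t _ => by ring
      _ = 0 := by rw [h3, mul_zero]
  have h4 := gram_squares (fun t => (e t : ℚ)) x y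
  simp only [h1, mul_zero, Finset.sum_const_zero] at h4
  have h5 := (Finset.sum_eq_zero_iff_of_nonneg (fun K _ =>
    Finset.sum_nonneg fun P _ => sq_nonneg _)).1 h4.symm K' (Finset.mem_univ _)
  have h6 := (Finset.sum_eq_zero_iff_of_nonneg (fun P _ => sq_nonneg _)).1 h5 (I', I)
    (Finset.mem_univ _)
  have h7 := pow_eq_zero_iff (two_ne_zero) |>.1 h6
  rw [map_sum, ← h7]
  refine Finset.sum_congr rfl fun t _ => ?_
  rw [map_zsmul, zsmul_eq_mul]
  push_cast
  ring

end ACP
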