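import Pool.Agent.H98.ACP.VanAlb
import Pool.Agent.H98.ACP.GramB2

/-!
Module AbstractB (project V3).  The algebraic part of the proof, blockwise.
-/

set_option autoImplicit false

namespace ACP

open AC

variable {C : Type} [Fintype C] [DecidableEq C] {J ι : C → Type} [∀ c, Fintype (J c)]
  [∀ c, DecidableEq (J c)] [∀ c, Fintype (ι c)] [∀ c, DecidableEq (ι c)] {V : Type}
  [AddCommGroup V] [Module ℚ V] {T : Type} [Fintype T]

theorem abstract_zeroB {A : C → Type} [∀ c, AddCommGroup (A c)]
    (f : (∀ c, J c → ι c → ℤ) → V) (hf : BMQ f)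
    (g : (∀ c, J c → ι c → ℤ) → (∀ c, ι c → A c) →+ V) (hg : ∀ q, BMQ (fun N => g N q))
    (hcol : ∀ (N : ∀ c, J c → ι c → ℤ) (c : C) (j : J c) (b : A c),
      g N (Pi.single c (fun i => N c j i • b)) = 0)
    (N : T → ∀ c, J c → ι c → ℤ) (e : T → ℤ) (q : T → ∀ c, ι c → A c)
    (h1 : ∀ U : ∀ c, J c → ι c → ℤ,
      ∑ t, e t * ∏ c, (Matrix.det (fun j l : J c => ∑ i, U c j i * N t c l i)) ^ 2 = 0)
    (h2 : ∀ (U : ∀ c, J c → ι c → ℤ) (c : C) (i : ι c),
      ∑ t, e t • albSumB U (N t) (q t) c i = 0) :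
    ∑ t, e t • (f (N t) + g (N t) (q t)) = 0 := by
  simp only [smul_add, Finset.sum_add_distrib]
  have hA : ∑ t, e t • f (N t) = 0 := by
    let f' : (∀ c, J c → ι c → ℤ) → ℤ →+ V := fun M => (zmultiplesHom V) (f M)
    have hf' : ∀ M n, f' M n = n • f M := fun M n => rfl
    have h3 := vanish_hom f' (fun n N₀ c => by
      have h := hf N₀ c
      refine ⟨?_, ?_, ?_⟩
      · intro M j x y
        simp only [hf']
        rw [← smul_add, h.par M j x y, smul_add, smul_comm n, smul_comm n]
      · intro π M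
        simp only [hf']
        exact congrArg (fun z => n • z) (h.symm π M)
      · intro M i j hij hM
        simp only [hf']
        rw [h.eqcol M i j hij hM, smul_zero]) N e (fun I K => ⟨1, one_pos, by
        rw [one_smul]
        have h4 := gramB1 N e h1 I K
        rw [← h4]
        refine Finset.sum_congr rfl fun t _ => ?_
        rw [smul_eq_mul, mul_comm]⟩)
    exact h3
  rw [hA, vanish_alb g hg hcol N e q (gramB2 N e q h2), add_zero]

end ACP
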