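import Pool.Agent.H98.ACP.AlgDefs

/-!
Module AlgB1 (project V3).  A function of block matrices which is multi-quadratic in each block is a
combination of products of minors.
PROOF.  Induction on the finite type C (Fintype.induction_empty_option).  Invariance under e : C ≃ C': Equiv.piCongrLeft.
Empty C: one point.  Option C: a block matrix over Option C is a pair (N none, N'), N' : ∀ c : C, J (some c) → ...
Let W be the ℚ-submodule of the functions G : (∀ c : C, J (some c) → ι (some c) → ℤ) → V with BMQ G (closed under sums and scalars: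
the fields of MQ are linear).  For M : J none → ι none → ℤ let F M ∈ W be N' ↦ f (M, N').  F is MQ with values in W (fields
of MQ for f in the block none, with update of the block none), so AC.alg1 gives F M = ∑ I ∑ K (minor M I * minor M K) • C₀ I K with
C₀ I K ∈ W; the induction hypothesis applies to each function C₀ I K.
-/

set_option autoImplicit false

namespace ACP

open AC

theorem AlgB1_mq_add {J Λ V : Type} [AddCommGroup Λ] [AddCommGroup V] [DecidableEq J]
    {f g : (J → Λ) → V} (hf : MQ f) (hg : MQ g) : MQ (fun M => f M + g M) where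
  par c j x y := by
    have h1 := hf.par c j x y
    have h2 := hg.par c j x y
    calc _ = (f (Function.update c j (x + y)) + f (Function.update c j (x - y))) +
          (g (Function.update c j (x + y)) + g (Function.update c j (x - y))) := by abel
      _ = _ := by
        rw [h1, h2, smul_add, smul_add]
        abel
  symm π c := by
    show f _ + g _ = _
    rw [hf.symm π c, hg.symm π c]
  eqcol c i j hij h := by
    show f c + g c = 0
    rw [hf.eqcol c i j hij h, hg.eqcol c i j hij h, add_zero]

theorem AlgB1_mq_smul {J Λ V : Type} [AddCommGroup Λ] [AddCommGroup V] [Module ℚ V]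
    [DecidableEq J] {f : (J → Λ) → V} (hf : MQ f) (r : ℚ) : MQ (fun M => r • f M) where
  par c j x y := by
    have h1 := hf.par c j x y
    show r • f _ + r • f _ = 2 • (r • f _) + 2 • (r • f _)
    rw [← smul_add, h1, smul_add, smul_comm r 2, smul_comm r 2]
  symm π c := by
    show r • f _ = _
    rw [hf.symm π c]
  eqcol c i j hij h := by
    show r • f c = 0
    rw [hf.eqcol c i j hij h, smul_zero]

theorem AlgB1_mq_zero {J Λ V : Type} [AddCommGroup Λ] [AddCommGroup V] [DecidableEq J] :
    MQ (fun _ : J → Λ => (0 : V)) where
  par c j x y := by simp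
  symm π c := rfl
  eqcol c i j hij h := rfl

/-- the submodule of the multi-quadratic functions -/
def AlgB1_W {C : Type} [DecidableEq C] (J ι : C → Type) [∀ c, DecidableEq (J c)] (V : Type)
    [AddCommGroup V] [Module ℚ V] : Submodule ℚ ((∀ c, J c → ι c → ℤ) → V) where
  carrier := {G | BMQ G}
  add_mem' {F G} hF hG := fun N c => AlgB1_mq_add (hF N c) (hG N c)
  zero_mem' := fun _ _ => AlgB1_mq_zero
  smul_mem' r F hF := fun N c => AlgB1_mq_smul (hF N c) r

/-- a family over `Option C` from its parts -/
def AlgB1_cons {C : Type} {β : Option C → Type} (x : β none) (N : ∀ c, β (some c)) :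
    ∀ o, β o
  | none => x
  | some c => N c

theorem AlgB1_update_none {C : Type} {β : Option C → Type} (d : DecidableEq (Option C)) (x y : β none)
    (N : ∀ c, β (some c)) :
    @Function.update _ _ d (AlgB1_cons x N) none y = AlgB1_cons y N := by
  funext o
  cases o with
  | none => simp [AlgB1_cons]
  | some c => simp [AlgB1_cons]

theorem AlgB1_update_some {C : Type} {β : Option C → Type} (d : DecidableEq (Option C))
    (d' : DecidableEq C) (x : β none)
    (N : ∀ c, β (some c)) (c : C) (y : β (some c)) :
    @Function.update _ _ d (AlgB1_cons x N) (some c) y =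
      AlgB1_cons x (@Function.update _ _ d' N c y) := by
  funext o
  cases o with
  | none => simp [AlgB1_cons]
  | some c' =>
    by_cases h : c' = c
    · subst h
      simp [AlgB1_cons]
    · have h' : some c' ≠ some c := fun h2 => h (Option.some.inj h2)
      rw [Function.update_of_ne h']
      simp [AlgB1_cons, Function.update_of_ne h]

theorem AlgB1_cons_eta {C : Type} {β : Option C → Type} (N : ∀ o, β o) :
    AlgB1_cons (N none) (fun c => N (some c)) = N := by
  funext o
  cases o <;> rfl

/-- the equivalence with pairs -/
def AlgB1_eq {C : Type} (β : Option C → Type) : (∀ o, β o) ≃ β none × ∀ c, β (some c) where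
  toFun N := (N none, fun c => N (some c))
  invFun p := AlgB1_cons p.1 p.2
  left_inv N := AlgB1_cons_eta N
  right_inv p := rfl

/-- the induction statement -/
def AlgB1_P (C : Type) [Fintype C] : Prop :=
  ∀ (_ : DecidableEq C) (J ι : C → Type) (_ : ∀ c, Fintype (J c)) (_ : ∀ c, DecidableEq (J c))
    (_ : ∀ c, Fintype (ι c)) (_ : ∀ c, DecidableEq (ι c)) (V : Type) (_ : AddCommGroup V)
    (_ : Module ℚ V) (f : (∀ c, J c → ι c → ℤ) → V), BMQ f →
    ∃ D : (∀ c, J c → ι c) → (∀ c, J c → ι c) → V,
      ∀ N, f N = ∑ I, ∑ K, (minors N I * minors N K) • D I K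

theorem AlgB1_equiv (α β : Type) [Fintype β] (e : α ≃ β)
    (h : @AlgB1_P α (Fintype.ofEquiv β e.symm)) : AlgB1_P β := by
  intro dβ J ι fJ dJ fι dι V aV mV f hf
  letI fα : Fintype α := Fintype.ofEquiv β e.symm
  letI dα : DecidableEq α := e.decidableEq
  let E := Equiv.piCongrLeft (fun b => J b → ι b → ℤ) e
  have hE : ∀ (N' : ∀ a, J (e a) → ι (e a) → ℤ) (a : α) (M : J (e a) → ι (e a) → ℤ),
      E (Function.update N' a M) = Function.update (E N') (e a) M := by
    intro N' a M
    funext b
    obtain ⟨a', rfl⟩ := e.surjective b
    show (Equiv.piCongrLeft (fun b => J b → ι b → ℤ) e) (Function.update N' a M) (e a') = _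
    rw [Equiv.piCongrLeft_apply_apply]
    by_cases h : a' = a
    · subst h
      simp
    · have h' : e a' ≠ e a := fun h2 => h (e.injective h2)
      rw [Function.update_of_ne h, Function.update_of_ne h']
      exact (Equiv.piCongrLeft_apply_apply (fun b => J b → ι b → ℤ) e N' a').symm
  obtain ⟨D, hD⟩ := h dα (fun a => J (e a)) (fun a => ι (e a)) (fun a => fJ (e a))
    (fun a => dJ (e a)) (fun a => fι (e a)) (fun a => dι (e a)) V aV mV (fun N' => f (E N'))
    (by
      intro N' a
      have h1 := hf (E N') (e a)
      have h2 : (fun M : J (e a) → ι (e a) → ℤ => f (E (Function.update N' a M))) =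
          fun M => f (Function.update (E N') (e a) M) := by
        funext M
        rw [hE]
      show MQ (fun M : J (e a) → ι (e a) → ℤ => f (E (Function.update N' a M)))
      rw [h2]
      exact h1)
  refine ⟨fun I K => D (fun a => I (e a)) (fun a => K (e a)), fun N => ?_⟩
  have h1 := hD (fun a => N (e a))
  have h2 : E (fun a => N (e a)) = N := by
    funext b
    obtain ⟨a', rfl⟩ := e.surjective b
    exact Equiv.piCongrLeft_apply_apply (fun b => J b → ι b → ℤ) e (fun a => N (e a)) a'
  simp only [h2] at h1
  rw [h1]
  let E2 := Equiv.piCongrLeft (fun b => J b → ι b) e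
  have hE2 : ∀ (I : ∀ a, J (e a) → ι (e a)) (a : α), E2 I (e a) = I a := fun I a =>
    Equiv.piCongrLeft_apply_apply (fun b => J b → ι b) e I a
  have hm : ∀ I : ∀ a, J (e a) → ι (e a), minors N (E2 I) = minors (fun a => N (e a)) I := by
    intro I
    unfold minors
    rw [← Equiv.prod_comp e]
    exact Finset.prod_congr rfl fun a _ => by rw [hE2]
  rw [← Equiv.sum_comp E2]
  refine Finset.sum_congr rfl fun I _ => ?_
  rw [← Equiv.sum_comp E2]
  refine Finset.sum_congr rfl fun K _ => ?_
  rw [hm, hm]
  have h3 : (fun a => E2 I (e a)) = I := funext fun a => hE2 I a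
  have h4 : (fun a => E2 K (e a)) = K := funext fun a => hE2 K a
  show _ = (minors (fun a => N (e a)) I * minors (fun a => N (e a)) K) •
    D (fun a => E2 I (e a)) (fun a => E2 K (e a))
  rw [h3, h4]

theorem AlgB1_empty : AlgB1_P PEmpty := by
  intro dβ J ι fJ dJ fι dι V aV mV f hf
  refine ⟨fun _ _ => f (fun c => c.elim), fun N => ?_⟩
  have h1 : N = fun c => c.elim := by
    funext c
    exact c.elim
  rw [Fintype.sum_unique, Fintype.sum_unique]
  simp only [minors, Finset.univ_eq_empty, Finset.prod_empty, mul_one, one_smul]
  rw [h1]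

theorem AlgB1_option (α : Type) [Fintype α] (h : AlgB1_P α) : AlgB1_P (Option α) := by
  classical
  intro dO J ι fJ dJ fι dι V aV mV f hf
  have dα : DecidableEq α := Classical.decEq α
  have hnone : ∀ N' : ∀ a : α, J (some a) → ι (some a) → ℤ,
      MQ (fun M : J none → ι none → ℤ =>
        f (AlgB1_cons (β := fun o => J o → ι o → ℤ) M N')) := by
    intro N'
    have h1 := hf (AlgB1_cons (β := fun o => J o → ι o → ℤ) (fun _ _ => 0) N') none
    have h2 : (fun M : J none → ι none → ℤ => f (Function.update
        (AlgB1_cons (β := fun o => J o → ι o → ℤ) (fun _ _ => 0) N') none M)) =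
        fun M => f (AlgB1_cons (β := fun o => J o → ι o → ℤ) M N') := by
      funext M
      rw [AlgB1_update_none]
    rwa [h2] at h1
  have hsome : ∀ M : J none → ι none → ℤ, BMQ (J := fun a => J (some a))
      (ι := fun a => ι (some a))
      (fun N' => f (AlgB1_cons (β := fun o => J o → ι o → ℤ) M N')) := by
    intro M N' a
    have h1 := hf (AlgB1_cons (β := fun o => J o → ι o → ℤ) M N') (some a)
    have h2 : (fun M' : J (some a) → ι (some a) → ℤ => f (Function.update
        (AlgB1_cons (β := fun o => J o → ι o → ℤ) M N') (some a) M')) =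
        fun M' => f (AlgB1_cons (β := fun o => J o → ι o → ℤ) M (Function.update N' a M')) := by
      funext M'
      rw [AlgB1_update_some]
    rwa [h2] at h1
  let F : (J none → ι none → ℤ) → AlgB1_W (fun a => J (some a)) (fun a => ι (some a)) V :=
    fun M => ⟨fun N' => f (AlgB1_cons (β := fun o => J o → ι o → ℤ) M N'), hsome M⟩
  have hF : MQ F :=
    { par := fun c j x y => Subtype.ext (funext fun N' => (hnone N').par c j x y)
      symm := fun π c => Subtype.ext (funext fun N' => (hnone N').symm π c)
      eqcol := fun c i j hij he => Subtype.ext (funext fun N' => (hnone N').eqcol c i j hij he) }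
  obtain ⟨C₀, hC⟩ := alg1 F hF
  choose D' hD' using fun i k => h dα (fun a => J (some a)) (fun a => ι (some a))
    (fun a => fJ (some a)) (fun a => dJ (some a)) (fun a => fι (some a)) (fun a => dι (some a))
    V aV mV (C₀ i k).1 (C₀ i k).2
  refine ⟨fun I K => D' (I none) (K none) (fun a => I (some a)) (fun a => K (some a)),
    fun N => ?_⟩
  have h1 : f N = (F (N none)).1 (fun a => N (some a)) := by
    show f N = f (AlgB1_cons (β := fun o => J o → ι o → ℤ) (N none) fun a => N (some a))
    rw [AlgB1_cons_eta]
  have h2 : (F (N none)).1 (fun a => N (some a)) = ∑ i, ∑ k,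
      (minor (N none) i * minor (N none) k) • (C₀ i k).1 (fun a => N (some a)) := by
    rw [hC (N none), AddSubmonoidClass.coe_finsetSum, Finset.sum_apply]
    refine Finset.sum_congr rfl fun i _ => ?_
    rw [AddSubmonoidClass.coe_finsetSum, Finset.sum_apply]
    refine Finset.sum_congr rfl fun k _ => ?_
    rfl
  have hm : ∀ I : ∀ o, J o → ι o, minors N I =
      minor (N none) (I none) * minors (fun a => N (some a)) (fun a => I (some a)) := by
    intro I
    unfold minors
    rw [Fintype.prod_option]
  rw [h1, h2, ← Equiv.sum_comp (AlgB1_eq fun o => J o → ι o).symm, Fintype.sum_prod_type]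
  refine Finset.sum_congr rfl fun i _ => ?_
  have h3 : ∀ I' : ∀ a, J (some a) → ι (some a),
      (∑ K, (minors N ((AlgB1_eq fun o => J o → ι o).symm (i, I')) * minors N K) •
        D' ((AlgB1_eq fun o => J o → ι o).symm (i, I') none) (K none)
          (fun a => (AlgB1_eq fun o => J o → ι o).symm (i, I') (some a)) (fun a => K (some a))) =
      ∑ k, ∑ K', (minor (N none) i * minor (N none) k) •
        ((minors (fun a => N (some a)) I' * minors (fun a => N (some a)) K') •
          D' i k I' K') := by
    intro I'
    rw [← Equiv.sum_comp (AlgB1_eq fun o => J o → ι o).symm, Fintype.sum_prod_type]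
    refine Finset.sum_congr rfl fun k _ => ?_
    refine Finset.sum_congr rfl fun K' _ => ?_
    rw [hm, hm, smul_smul]
    show (minor (N none) i * minors (fun a => N (some a)) I' *
      (minor (N none) k * minors (fun a => N (some a)) K')) • D' i k I' K' = _
    congr 1
    ring
  refine Eq.trans ?_ (Finset.sum_congr rfl fun I' _ => (h3 I').symm)
  rw [Finset.sum_comm]
  refine Finset.sum_congr rfl fun k _ => ?_
  rw [hD' i k, Finset.smul_sum]
  refine Finset.sum_congr rfl fun I' _ => ?_
  rw [Finset.smul_sum]

theorem algB1 {C : Type} [Fintype C] [DecidableEq C] {J ι : C → Type} [∀ c, Fintype (J c)]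
    [∀ c, DecidableEq (J c)] [∀ c, Fintype (ι c)] [∀ c, DecidableEq (ι c)] {V : Type}
    [AddCommGroup V] [Module ℚ V] (f : (∀ c, J c → ι c → ℤ) → V) (hf : BMQ f) :
    ∃ D : (∀ c, J c → ι c) → (∀ c, J c → ι c) → V,
      ∀ N, f N = ∑ I, ∑ K, (minors N I * minors N K) • D I K := by
  have h : AlgB1_P C := by
    refine Fintype.induction_empty_option (P := fun (C : Type) [Fintype C] => AlgB1_P C)
      (fun α β _ e hα => AlgB1_equiv α β e ?_) AlgB1_empty (fun α _ hα => AlgB1_option α hα) C
    exact hα
  exact h inferInstance J ι inferInstance inferInstance inferInstance inferInstance V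
    inferInstance inferInstance f hf

end ACP
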