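import Pool.Agent.H18.AC.Gram2

/-!
Definitions of the block algebra (project V3, all products of elliptic curves; helper98).
`C` is a finite set of blocks; a block matrix is `N : ∀ c, J c → ι c → ℤ` (`N c j` is the `j`-th column
of the block `c`).
-/

set_option autoImplicit false

namespace ACP

open AC

/-- `f` is multi-quadratic in each block: for every block `c` it satisfies the parallelogram law in each
column of the block, is symmetric in the columns of the block and vanishes on equal columns. -/
def BMQ {C : Type} [DecidableEq C] {J ι : C → Type} [∀ c, DecidableEq (J c)] {V : Type}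
    [AddCommGroup V] (f : (∀ c, J c → ι c → ℤ) → V) : Prop :=
  ∀ (N : ∀ c, J c → ι c → ℤ) (c : C), MQ (fun M : J c → ι c → ℤ => f (Function.update N c M))

/-- the product of the minors of the blocks -/
def minors {C : Type} [Fintype C] {J ι : C → Type} [∀ c, Fintype (J c)] [∀ c, DecidableEq (J c)]
    (N : ∀ c, J c → ι c → ℤ) (I : ∀ c, J c → ι c) : ℤ := ∏ c, minor (N c) (I c)

/-- the product over the blocks `c ≠ c₀` -/
def minorsOff {C : Type} [Fintype C] [DecidableEq C] {J ι : C → Type} [∀ c, Fintype (J c)]
    [∀ c, DecidableEq (J c)] (c₀ : C) (N : ∀ c, J c → ι c → ℤ) (I : ∀ c, J c → ι c) : ℤ :=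
  ∏ c ∈ Finset.univ.erase c₀, minor (N c) (I c)

/-- the square of the determinant of `U N` over the blocks `c' ≠ c` times the sum of the points of the
intersection in the block `c` -/
def albSumB {C : Type} [Fintype C] [DecidableEq C] {J ι : C → Type} {A : C → Type}
    [∀ c, Fintype (J c)] [∀ c, DecidableEq (J c)] [∀ c, Fintype (ι c)] [∀ c, AddCommGroup (A c)]
    (U N : ∀ c, J c → ι c → ℤ) (q : ∀ c, ι c → A c) (c : C) (i : ι c) : A c :=
  (∏ c' ∈ Finset.univ.erase c,
    (Matrix.det (fun j l : J c' => ∑ i, U c' j i * N c' l i)) ^ 2) • albSum (U c) (N c) (q c) i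

end ACP
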