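import Pool.Agent.H98.ACP.Hodge

/-!
# The special forms vanish on subvarieties of another type

`U` has blocks of the type `μ`, `N` of the type `μ'`, `∑ μ = ∑ μ' = d`.
-/

set_option autoImplicit false

open scoped Kronecker
open Matrix

namespace ACP

variable {s d : ℕ} {n μ μ' : Fin s → ℕ}

/-- The enumeration of the `2 d` generators. -/
def enumH (h : ∑ c, μ c = d) : Fin d × Fin 2 ≃ (Σ c, Fin (μ c)) × Fin 2 :=
  Equiv.prodCongr ((finCongr h.symm).trans finSigmaFinEquiv.symm) (Equiv.refl _)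

/-- The product of the two matrices on `H_1`, rectangular blocks. -/
theorem mul_onH1' (U : ∀ c, Matrix (Fin (μ c)) (Fin (n c)) ℤ)
    (N : ∀ c, Matrix (Fin (n c)) (Fin (μ' c)) ℤ) :
    (Matrix.blockDiagonal' U ⊗ₖ (1 : Matrix (Fin 2) (Fin 2) ℤ)) *
      (Matrix.blockDiagonal' N ⊗ₖ (1 : Matrix (Fin 2) (Fin 2) ℤ)) =
      Matrix.blockDiagonal' (fun c => U c * N c) ⊗ₖ (1 : Matrix (Fin 2) (Fin 2) ℤ) := by
  rw [← Matrix.mul_kronecker_mul, Matrix.one_mul, Matrix.blockDiagonal'_mul]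

/-- A matrix with more columns than rows has a kernel. -/
theorem exists_kernel {p q : ℕ} (h : p < q) (A : Matrix (Fin p) (Fin q) ℤ) :
    ∃ v : Fin q → ℤ, v ≠ 0 ∧ A *ᵥ v = 0 := by
  let S : Matrix (Fin q) (Fin q) ℤ := Matrix.of fun i j =>
    if hi : i.1 < p then A ⟨i.1, hi⟩ j else 0
  have hS : S.det = 0 := by
    refine Matrix.det_eq_zero_of_row_eq_zero (⟨p, h⟩ : Fin q) fun j => ?_
    simp [S]
  obtain ⟨v, hv, hv0⟩ := Matrix.exists_mulVec_eq_zero_iff.2 hS
  refine ⟨v, hv, ?_⟩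
  ext i
  have := congrFun hv0 ⟨i.1, i.2.trans h⟩
  simpa [S, Matrix.mulVec, dotProduct] using this

/-- For different types the product of the block matrices has a kernel. -/
theorem exists_blockKernel (h : ∑ c, μ c = ∑ c, μ' c) (hne : μ ≠ μ')
    (A : ∀ c, Matrix (Fin (μ c)) (Fin (μ' c)) ℤ) :
    ∃ v : (Σ c, Fin (μ' c)) → ℤ, v ≠ 0 ∧ Matrix.blockDiagonal' A *ᵥ v = 0 := by
  obtain ⟨c, hc⟩ : ∃ c, μ c < μ' c := by
    by_contra hcon
    push Not at hcon
    apply hne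
    have := (Finset.sum_eq_sum_iff_of_le (s := Finset.univ) (f := μ') (g := μ)
      (fun c _ => hcon c)).1 h.symm
    funext c
    exact (this c (Finset.mem_univ c)).symm
  obtain ⟨v, hv, hv0⟩ := exists_kernel hc (A c)
  refine ⟨fun x => if hx : x.1 = c then v (hx ▸ x.2) else 0, ?_, ?_⟩
  · intro h0
    apply hv
    ext j
    have := congrFun h0 ⟨c, j⟩
    simpa using this
  · ext ⟨c', i⟩
    change ∑ x : (Σ c, Fin (μ' c)), _ * _ = _
    rw [Fintype.sum_sigma]
    rw [Finset.sum_eq_single c]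
    · by_cases hcc : c' = c
      · subst hcc
        have := congrFun hv0 i
        simp only [Matrix.mulVec, dotProduct, Pi.zero_apply] at this
        simpa [Matrix.blockDiagonal'_apply_eq] using this
      · refine Finset.sum_eq_zero fun j _ => ?_
        rw [Matrix.blockDiagonal'_apply_ne _ _ _ hcc, zero_mul]
    · intro c₂ _ hc₂
      refine Finset.sum_eq_zero fun j _ => ?_
      simp [hc₂]
    · intro h0
      exact absurd (Finset.mem_univ _) h0

/-- The form of `U` vanishes on the subvarieties of another type. -/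
theorem formU_ne (h : ∑ c, μ c = d) (h' : ∑ c, μ' c = d) (hne : μ ≠ μ')
    (U : ∀ c, Matrix (Fin (μ c)) (Fin (n c)) ℤ) (N : ∀ c, Matrix (Fin (n c)) (Fin (μ' c)) ℤ) :
    formU U (fun i => (Matrix.blockDiagonal' N ⊗ₖ (1 : Matrix (Fin 2) (Fin 2) ℤ))ᵀ
      (enumH h' ((enumH h).symm i))) = 0 := by
  obtain ⟨v, hv, hv0⟩ := exists_blockKernel (h.trans h'.symm) hne (fun c => U c * N c)
  let σ : (Σ c, Fin (μ c)) × Fin 2 ≃ (Σ c, Fin (μ' c)) × Fin 2 := (enumH h).symm.trans (enumH h')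
  change Matrix.det (Matrix.of fun i => (Matrix.blockDiagonal' U ⊗ₖ
    (1 : Matrix (Fin 2) (Fin 2) ℤ)) *ᵥ ((Matrix.blockDiagonal' N ⊗ₖ
      (1 : Matrix (Fin 2) (Fin 2) ℤ))ᵀ (σ i))) = 0
  rw [← Matrix.det_transpose]
  refine Matrix.exists_mulVec_eq_zero_iff.1 ⟨fun i => if (σ i).2 = 0 then v (σ i).1 else 0, ?_, ?_⟩
  · intro h0
    apply hv
    ext j
    have := congrFun h0 (σ.symm (j, 0))
    simpa using this
  · ext k
    change ∑ i, ((Matrix.blockDiagonal' U ⊗ₖ (1 : Matrix (Fin 2) (Fin 2) ℤ)) *ᵥ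
      ((Matrix.blockDiagonal' N ⊗ₖ (1 : Matrix (Fin 2) (Fin 2) ℤ))ᵀ (σ i))) k *
        (if (σ i).2 = 0 then v (σ i).1 else 0) = 0
    rw [Equiv.sum_comp σ (fun j => ((Matrix.blockDiagonal' U ⊗ₖ
      (1 : Matrix (Fin 2) (Fin 2) ℤ)) *ᵥ
      ((Matrix.blockDiagonal' N ⊗ₖ (1 : Matrix (Fin 2) (Fin 2) ℤ))ᵀ j)) k *
        (if j.2 = 0 then v j.1 else 0))]
    have h1 : ∀ j, ((Matrix.blockDiagonal' U ⊗ₖ (1 : Matrix (Fin 2) (Fin 2) ℤ)) *ᵥ
      ((Matrix.blockDiagonal' N ⊗ₖ (1 : Matrix (Fin 2) (Fin 2) ℤ))ᵀ j)) k =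
        (Matrix.blockDiagonal' (fun c => U c * N c) ⊗ₖ (1 : Matrix (Fin 2) (Fin 2) ℤ)) k j := by
      intro j
      rw [← mul_onH1']
      rfl
    simp only [h1]
    rw [Fintype.sum_prod_type, Finset.sum_comm, Finset.sum_eq_single (0 : Fin 2)]
    · by_cases hk : k.2 = 0
      · have := congrFun hv0 k.1
        simp only [Matrix.mulVec, dotProduct, Pi.zero_apply] at this
        simpa [hk, Matrix.kroneckerMap_apply, Matrix.one_apply] using this
      · refine Finset.sum_eq_zero fun j _ => ?_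
        rw [Matrix.kroneckerMap_apply, Matrix.one_apply_ne hk]
        simp
    · intro ε _ hε
      refine Finset.sum_eq_zero fun j _ => ?_
      simp [hε]
    · intro h0
      exact absurd (Finset.mem_univ _) h0

/-- The bordered form of `U` vanishes on the subvarieties of another type. -/
theorem formB_ne (h : ∑ c, μ c = d) (h' : ∑ c, μ' c = d) (hne : μ ≠ μ')
    (U : ∀ c, Matrix (Fin (μ c)) (Fin (n c)) ℤ) (N : ∀ c, Matrix (Fin (n c)) (Fin (μ' c)) ℤ)
    (y x : (Σ c, Fin (n c)) × Fin 2) :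
    formB U y (fun o => o.elim (Pi.single x 1) fun i =>
      (Matrix.blockDiagonal' N ⊗ₖ (1 : Matrix (Fin 2) (Fin 2) ℤ))ᵀ
        (enumH h' ((enumH h).symm i))) = 0 := by
  obtain ⟨v, hv, hv0⟩ := exists_blockKernel (h.trans h'.symm) hne (fun c => U c * N c)
  let σ : (Σ c, Fin (μ c)) × Fin 2 ≃ (Σ c, Fin (μ' c)) × Fin 2 := (enumH h).symm.trans (enumH h')
  obtain ⟨δ, hδ⟩ : ∃ δ : Fin 2, δ ≠ y.2 := ⟨y.2 + 1, fun h =>
      absurd (add_eq_left.1 h) (by decide)⟩
  change Matrix.det (Matrix.of fun o => (Matrix.of fun o : Option ((Σ c, Fin (μ c)) × Fin 2) =>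
      o.elim (Pi.single y 1) (Matrix.blockDiagonal' U ⊗ₖ (1 : Matrix (Fin 2) (Fin 2) ℤ))) *ᵥ
      (o.elim (Pi.single x 1) fun i =>
      (Matrix.blockDiagonal' N ⊗ₖ (1 : Matrix (Fin 2) (Fin 2) ℤ))ᵀ (σ i))) = 0
  rw [← Matrix.det_transpose]
  refine Matrix.exists_mulVec_eq_zero_iff.1 ⟨fun o => o.elim 0 fun i =>
    if (σ i).2 = δ then v (σ i).1 else 0, ?_, ?_⟩
  · intro h0
    apply hv
    ext j
    have := congrFun h0 (some (σ.symm (j, δ)))
    simpa using this
  · ext k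
    change ∑ o, _ * _ = _
    rw [Fintype.sum_option]
    have h2 : ∀ i : (Σ c, Fin (μ c)) × Fin 2,
        (Matrix.of fun o => (Matrix.of fun o : Option ((Σ c, Fin (μ c)) × Fin 2) =>
      o.elim (Pi.single y 1) (Matrix.blockDiagonal' U ⊗ₖ (1 : Matrix (Fin 2) (Fin 2) ℤ))) *ᵥ
      (o.elim (Pi.single x 1) fun i =>
      (Matrix.blockDiagonal' N ⊗ₖ (1 : Matrix (Fin 2) (Fin 2) ℤ))ᵀ (σ i)))ᵀ k (some i) =
        k.elim ((Matrix.blockDiagonal' N ⊗ₖ (1 : Matrix (Fin 2) (Fin 2) ℤ)) y (σ i))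
          (fun k' => (Matrix.blockDiagonal' (fun c => U c * N c) ⊗ₖ
            (1 : Matrix (Fin 2) (Fin 2) ℤ)) k' (σ i)) := by
      intro i
      rcases k with _ | k
      · change (Pi.single y 1 : (Σ c, Fin (n c)) × Fin 2 → ℤ) ⬝ᵥ _ = _
        rw [single_dotProduct, one_mul]
        rfl
      · change _ = (Matrix.blockDiagonal' (fun c => U c * N c) ⊗ₖ
            (1 : Matrix (Fin 2) (Fin 2) ℤ)) k (σ i)
        rw [← mul_onH1']
        rfl
    simp only [h2, Option.elim_none, mul_zero, zero_add, Option.elim_some]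
    rw [Equiv.sum_comp σ (fun j => k.elim
      ((Matrix.blockDiagonal' N ⊗ₖ (1 : Matrix (Fin 2) (Fin 2) ℤ)) y j)
          (fun k' => (Matrix.blockDiagonal' (fun c => U c * N c) ⊗ₖ
            (1 : Matrix (Fin 2) (Fin 2) ℤ)) k' j) *
        (if j.2 = δ then v j.1 else 0))]
    rcases k with _ | k
    · refine Finset.sum_eq_zero fun j _ => ?_
      by_cases hj : j.2 = δ
      · change (Matrix.blockDiagonal' N ⊗ₖ (1 : Matrix (Fin 2) (Fin 2) ℤ)) y j * _ = 0
        rw [Matrix.kroneckerMap_apply, Matrix.one_apply_ne (by rw [hj]; exact hδ.symm)]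
        simp
      · simp [hj]
    · change ∑ j, (Matrix.blockDiagonal' (fun c => U c * N c) ⊗ₖ
            (1 : Matrix (Fin 2) (Fin 2) ℤ)) k j * (if j.2 = δ then v j.1 else 0) = 0
      rw [Fintype.sum_prod_type, Finset.sum_comm, Finset.sum_eq_single δ]
      · by_cases hk : k.2 = δ
        · have := congrFun hv0 k.1
          simp only [Matrix.mulVec, dotProduct, Pi.zero_apply] at this
          simpa [hk, Matrix.kroneckerMap_apply, Matrix.one_apply] using this
        · refine Finset.sum_eq_zero fun j _ => ?_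
          rw [Matrix.kroneckerMap_apply, Matrix.one_apply_ne hk]
          simp
      · intro ε _ hε
        refine Finset.sum_eq_zero fun j _ => ?_
        simp [hε]
      · intro h0
        exact absurd (Finset.mem_univ _) h0

end ACP
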