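import Pool.Agent.H98.ACP.AllU0
import Pool.Agent.H98.ACP.AllForms

/-!
# All types of translates in one cycle, dimension zero included, conditions by forms on `H_1`
-/

set_option autoImplicit false

open scoped Classical Kronecker
open Matrix ZC

namespace ACP

/-- All types of translates in one cycle, conditions by forms on `H_1`. -/
theorem allForms0 (b : AlgebraicClosure ℚ) (hb0 : b ≠ 0) (hb1 : b ≠ 1) (P : Pt b) :
    ∃ A : ∀ c : AlgebraicClosure ℚ, AddSubgroup (Pt c), P ∈ A b ∧
      (∀ c, c ≠ 0 → c ≠ 1 → ∃ f : ℕ → A c, LinearIndependent ℤ f) ∧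
      (∀ c (R : Pt c) (m : ℕ), 0 < m → m • R ∈ A c → R ∈ A c) ∧
      (∀ c d (Θ : Corr c d), (∀ x y, Θ.base (x + y) = Θ.base x + Θ.base y) →
        ∀ R ∈ A c, Θ.base R ∈ A d) ∧
      ∀ (s : ℕ) (a : Fin s → AlgebraicClosure ℚ), (∀ c, a c ≠ 0 ∧ a c ≠ 1) →
        ∀ φ : ∀ c, Pt (a c) →+ (Fin 2 → AddCircle (1 : ℝ)), (∀ c, Function.Injective (φ c)) →
        ∀ (n : Fin s → ℕ) (d : ℕ), 2 ≤ ∑ c, n c → d < ∑ c, n c →
        ∀ (r : ℕ) (e : Fin r → ℤ) (m : Fin r → Fin s → ℕ) (hm : ∀ t, ∑ c, m t c = d)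
          (N : ∀ t c, Matrix (Fin (n c)) (Fin (m t c)) ℤ) (q : Fin r → ∀ c, Fin (n c) → Pt (a c)),
          (∀ t c, ∃ U : Matrix (Fin (m t c)) (Fin (n c)) ℤ, U * N t c = 1) →
          (∀ t c i, q t c i ∈ A (a c)) →
          (∀ ω : ((Σ c, Fin (n c)) × Fin 2 → ℤ) [⋀^Fin d × Fin 2]→ₗ[ℤ] ℤ,
            ∑ t, e t * ω (imageH (hm t) (N t)) = 0) →
          (∃ l : ℕ, 0 < l ∧ ∀ ω : ((Σ c, Fin (n c)) × Fin 2 → ℤ)
              [⋀^Option (Fin d × Fin 2)]→ₗ[ℤ] ℤ,
            l • ∑ t, e t • ∑ x : (Σ c, Fin (n c)) × Fin 2,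
              ω (fun o => o.elim (Pi.single x 1) (imageH (hm t) (N t))) •
                φ x.1.1 (q t x.1.1 x.1.2) x.2 = 0) →
          ∃ M : ℕ, 0 < M ∧
            M • ∑ t, e t • (Finsupp.single (translate (N t) (q t)) 1 :
              CyclesM (fun i : (Σ c, Fin (n c)) => a i.1)) ∈
              ratM (fun i : (Σ c, Fin (n c)) => a i.1) d := by
  obtain ⟨A, hP, hrank, hdiv, hiso, hz⟩ := allU0 b hb0 hb1 P
  refine ⟨A, hP, hrank, hdiv, hiso, ?_⟩
  intro s a ha φ hφ n d hd hdn r e m hm N q hN hq h1 h2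
  obtain ⟨l, hl, h2⟩ := h2
  have key : ∀ μ ∈ Finset.univ.image m, ∃ M : ℕ, 0 < M ∧
      M • ∑ t with m t = μ, e t • (Finsupp.single (translate (N t) (q t)) 1 :
        CyclesM (fun i : (Σ c, Fin (n c)) => a i.1)) ∈
        ratM (fun i : (Σ c, Fin (n c)) => a i.1) d := by
    intro μ hμ
    obtain ⟨t₀, -, ht₀⟩ := Finset.mem_image.1 hμ
    have hμd : ∑ c, μ c = d := by rw [← ht₀]; exact hm t₀
    let N' : ∀ (_ : Fin r) c, Matrix (Fin (n c)) (Fin (μ c)) ℤ := fun t =>
      if hh : m t = μ then castN hh (N t) else castN ht₀ (N t₀)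
    have hN' : ∀ t (hh : m t = μ), N' t = castN hh (N t) := fun t hh => dif_pos hh
    obtain ⟨M, hM, h3⟩ := hz s a ha n μ (by omega) (by omega) r
      (fun t => if m t = μ then l * e t else 0) N' q
      (by
        intro t c
        by_cases hh : m t = μ
        · rw [hN' t hh]
          exact castN_inv hh (N t) (hN t) c
        · have : N' t = castN ht₀ (N t₀) := dif_neg hh
          rw [this]
          exact castN_inv ht₀ (N t₀) (hN t₀) c) hq
      (by
        intro U
        have h4 := h1 (formUd hμd U)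
        simp only [formUd_apply] at h4
        have h5 : ∀ t, (if m t = μ then (l : ℤ) * e t else 0) * interDeg U (N' t) =
            l * (e t * (if hh : m t = μ then interDeg U (castN hh (N t)) else 0)) := by
          intro t
          by_cases hh : m t = μ
          · rw [if_pos hh, dif_pos hh, hN' t hh, mul_assoc]
          · rw [if_neg hh, dif_neg hh]
            ring
        simp only [h5]
        rw [← Finset.mul_sum, h4, mul_zero])
      (by
        intro U c i
        apply hφ c
        rw [map_zero]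
        funext ε
        have h4 := h2 (formBd hμd U (⟨c, i⟩, ε))
        simp only [formBd_apply] at h4
        have h5 : ∀ t, φ c ((if m t = μ then (l : ℤ) * e t else 0) •
            interSum U (N' t) (q t) c i) ε =
            l • (e t • (if hh : m t = μ then
              φ c (interSum U (castN hh (N t)) (q t) c i) ε else 0)) := by
          intro t
          by_cases hh : m t = μ
          · rw [if_pos hh, dif_pos hh, hN' t hh, map_zsmul, mul_smul, natCast_zsmul]
            rfl
          · rw [if_neg hh, dif_neg hh, zero_smul, map_zero, smul_zero, smul_zero]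
            rfl
        rw [map_sum, Finset.sum_apply]
        simp only [h5]
        rw [← Finset.smul_sum]
        exact h4)
    refine ⟨M * l, Nat.mul_pos hM hl, ?_⟩
    rw [hμd] at h3
    have h6 : (M * l) • ∑ t with m t = μ, e t • (Finsupp.single (translate (N t) (q t)) 1 :
        CyclesM (fun i : (Σ c, Fin (n c)) => a i.1)) =
        M • ∑ t, (if m t = μ then (l : ℤ) * e t else 0) •
          (Finsupp.single (translate (N' t) (q t)) 1 :
        CyclesM (fun i : (Σ c, Fin (n c)) => a i.1)) := by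
      rw [mul_smul]
      congr 1
      rw [Finset.sum_filter, Finset.smul_sum]
      refine Finset.sum_congr rfl fun t _ => ?_
      by_cases hh : m t = μ
      · rw [if_pos hh, if_pos hh, hN' t hh, translate_castN, mul_smul, natCast_zsmul]
      · rw [if_neg hh, if_neg hh, smul_zero, zero_smul]
    rw [h6]
    exact h3
  choose! Mμ hMμ h7 using key
  refine ⟨∏ μ ∈ Finset.univ.image m, Mμ μ, Finset.prod_pos fun μ hμ => hMμ μ hμ, ?_⟩
  rw [← Finset.sum_fiberwise_of_maps_to (s := Finset.univ) (t := Finset.univ.image m) (g := m)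
    (fun t _ => Finset.mem_image_of_mem m (Finset.mem_univ t)), Finset.smul_sum]
  refine AddSubgroup.sum_mem _ fun μ hμ => ?_
  rw [← Finset.prod_erase_mul _ _ hμ, mul_smul]
  exact AddSubgroup.nsmul_mem _ (h7 μ hμ) _

end ACP
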