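import Pool.Agent.ZC.DefsN

/-!
Module Reindex (project V3, helper98).  Zero-cycles on products indexed by any finite type.
-/

set_option autoImplicit false

namespace ACP

open ZC WeierstrassCurve
open scoped Classical

variable {k : Type} [Field k] {ι T : Type}

/-- the points of the product, reindexed -/
noncomputable def rePt (e : ι ≃ T) (a : ι → k) : (∀ i, Pt (a i)) ≃ ∀ j, Pt (a (e.symm j)) :=
  Equiv.piCongrLeft' (fun i => Pt (a i)) e

theorem rePt_apply (e : ι ≃ T) (a : ι → k) (x : ∀ i, Pt (a i)) (j : T) :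
    rePt e a x j = x (e.symm j) := rfl

theorem principal_reindex (e : ι ≃ T) (a : ι → k) (c : CyclesN (fun j => a (e.symm j)))
    (hc : IsPrincipalN (fun j => a (e.symm j)) c) :
    IsPrincipalN a (Finsupp.mapDomain (rePt e a).symm c : CyclesN a) := by
  obtain ⟨K, _, _, hK, x, f, hf, h⟩ := hc
  obtain ⟨y, hy⟩ : ∃ y : ∀ i, Pt (algebraMap k K (a i)), ∀ j, y (e.symm j) = x j := by
    refine ⟨(Equiv.piCongrLeft' (fun i => Pt (algebraMap k K (a i))) e).symm x, fun j => ?_⟩
    exact congrFun ((Equiv.piCongrLeft' (fun i => Pt (algebraMap k K (a i))) e).apply_symm_apply x)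
      j
  refine ⟨K, inferInstance, inferInstance, hK, y, f, hf, fun p => ?_⟩
  have h1 : (Finsupp.mapDomain (rePt e a).symm c : CyclesN a) p = c (rePt e a p) := by
    conv_lhs => rw [← (rePt e a).symm_apply_apply p]
    exact Finsupp.mapDomain_apply (rePt e a).symm.injective c _
  rw [h1, h]
  refine finsum_congr fun w => ?_
  have h2 : (∀ j, SpecializesTo w (x j) (rePt e a p j)) ↔ (∀ i, SpecializesTo w (y i) (p i)) := by
    constructor
    · intro h3 i
      obtain ⟨j, rfl⟩ := e.symm.surjective i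
      rw [hy]
      exact h3 j
    · intro h3 j
      have h4 := h3 (e.symm j)
      rw [hy] at h4
      exact h4
  exact finsum_congr_Prop (propext h2) (fun _ => rfl)

theorem rat_reindex (e : ι ≃ T) (a : ι → k) (z : CyclesN a)
    (hz : (Finsupp.mapDomain (rePt e a) z : CyclesN (fun j => a (e.symm j))) ∈
      ratZeroN (fun j => a (e.symm j))) : z ∈ ratZeroN a := by
  have key : ratZeroN (fun j => a (e.symm j)) ≤
      (ratZeroN a).comap (Finsupp.mapDomain.addMonoidHom (rePt e a).symm) := by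
    unfold ratZeroN
    rw [AddSubgroup.closure_le]
    intro c hc
    exact AddSubgroup.subset_closure (principal_reindex e a c hc)
  have h1 := key hz
  have h2 : Finsupp.mapDomain (rePt e a).symm (Finsupp.mapDomain (rePt e a) z) = z := by
    rw [← Finsupp.mapDomain_comp]
    have : (rePt e a).symm ∘ (rePt e a) = id := (rePt e a).symm_comp_self
    rw [this, Finsupp.mapDomain_id]
  have h3 : Finsupp.mapDomain (rePt e a).symm (Finsupp.mapDomain (rePt e a) z) ∈ ratZeroN a := h1
  rwa [h2] at h3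

/-- the zero-cycle part for every finite index type -/
theorem points_reindex [Fintype ι] (a : ι → k) (A : ∀ c : k, AddSubgroup (Pt c))
    (h : ∀ a' : Fin (Fintype.card ι) → k, (∀ i, a' i ≠ 0 ∧ a' i ≠ 1) →
      ∀ z : CyclesN a', (∀ x ∈ z.support, ∀ i, x i ∈ A (a' i)) →
        (z.sum fun _ m => m) = 0 → (∀ i, (z.sum fun x m => m • x i) = 0) →
        ∃ N : ℕ, 0 < N ∧ N • z ∈ ratZeroN a')
    (ha : ∀ i, a i ≠ 0 ∧ a i ≠ 1) (z : CyclesN a) (hz : ∀ x ∈ z.support, ∀ i, x i ∈ A (a i))
    (h0 : (z.sum fun _ m => m) = 0) (h1 : ∀ i, (z.sum fun x m => m • x i) = 0) :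
    ∃ N : ℕ, 0 < N ∧ N • z ∈ ratZeroN a := by
  set e := Fintype.equivFin ι
  obtain ⟨N, hN, h2⟩ := h (fun j => a (e.symm j)) (fun j => ha _)
    (Finsupp.mapDomain (rePt e a) z) (by
      intro x hx j
      obtain ⟨y, hy, rfl⟩ := Finset.mem_image.1 (Finsupp.mapDomain_support hx)
      exact hz y hy _) (by
      rw [Finsupp.sum_mapDomain_index (fun _ => rfl) (fun _ _ _ => rfl)]
      exact h0) (by
      intro j
      exact (Finsupp.sum_mapDomain_index
        (h := fun (x : ∀ j, Pt (a (e.symm j))) (m : ℤ) => m • x j)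
        (fun _ => zero_smul _ _) (fun _ _ _ => add_smul _ _ _)).trans (h1 (e.symm j)))
  refine ⟨N, hN, rat_reindex e a _ ?_⟩
  have h3 : (Finsupp.mapDomain (rePt e a) (N • z) : CyclesN (fun j => a (e.symm j))) =
      N • Finsupp.mapDomain (rePt e a) z :=
    map_nsmul (Finsupp.mapDomain.addMonoidHom (rePt e a)) N z
  rw [h3]
  exact h2

end ACP
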