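import Pool.Agent.H98.ACP.Final
import Pool.Agent.H98.ACP.Reindex
import Pool.Agent.ZC.FinalU

/-!
# Cycles of every dimension on products of elliptic curves, conditions by intersection numbers

`E_a : y ^ 2 = x (x - 1) (x - a)`; up to isomorphism every elliptic curve over the algebraic closure of
`ℚ` is of this form.  Let `X = ∏ c, E_{a c} ^ (n c)`, `c = 0, ..., s - 1`, where the curves `E_{a c}` are
arbitrary (also equal or isogenous ones are allowed).
-/

set_option autoImplicit false

open scoped Classical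

namespace ACP

open ZC

/-- The translate by `q` of the abelian subvariety `∏ c, N c E_{a c} ^ (m c)` of
`X = ∏ c, E_{a c} ^ (n c)`, where `N c` is an integral `n c × m c` matrix. -/
def translate {k : Type} [Field k] {s : ℕ} {a : Fin s → k} {n m : Fin s → ℕ}
    (N : ∀ c, Matrix (Fin (n c)) (Fin (m c)) ℤ) (q : ∀ c, Fin (n c) → Pt (a c)) :
    Set (∀ i : (Σ c, Fin (n c)), Pt (a i.1)) :=
  {x | ∃ P : ∀ c, Fin (m c) → Pt (a c), ∀ (c : Fin s) (i : Fin (n c)),
    x ⟨c, i⟩ = (∑ j, N c i j • P c j) + q c i}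

/-- The degree of the intersection of `∏ c, N c E_{a c} ^ (m c) + q` with the kernel of the homomorphism
`U : ∏ c, E_{a c} ^ (n c) → ∏ c, E_{a c} ^ (m c)`: the number `∏ c, D_c ^ 2`, `D_c = det (U_c N_c)`, of the
points `N P + q`, `U N P = - U q`. -/
def interDeg {s : ℕ} {n m : Fin s → ℕ} (U : ∀ c, Matrix (Fin (m c)) (Fin (n c)) ℤ)
    (N : ∀ c, Matrix (Fin (n c)) (Fin (m c)) ℤ) : ℤ := ∏ c, (U c * N c).det ^ 2

/-- The `c`-component of the sum (in `X`) of the points of the intersection of
`∏ c, N c E_{a c} ^ (m c) + q` with the kernel of the homomorphism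
`U : ∏ c, E_{a c} ^ (n c) → ∏ c, E_{a c} ^ (m c)`: these are the points `N P + q`, `U N P = - U q`; there are
`∏ c, D_c ^ 2` of them, `D_c = det (U_c N_c)`, and the sum of their `c`-components is
`(∏ c' ≠ c, D_c' ^ 2) D_c (D_c q_c - N_c adj(U_c N_c) U_c q_c)`. -/
noncomputable def interSum {k : Type} [Field k] {s : ℕ} {a : Fin s → k} {n m : Fin s → ℕ}
    (U : ∀ c, Matrix (Fin (m c)) (Fin (n c)) ℤ) (N : ∀ c, Matrix (Fin (n c)) (Fin (m c)) ℤ)
    (q : ∀ c, Fin (n c) → Pt (a c)) (c : Fin s) (i : Fin (n c)) : Pt (a c) :=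
  ((∏ c' ∈ Finset.univ.erase c, (U c' * N c').det ^ 2) * (U c * N c).det) •
    ((U c * N c).det • q c i - ∑ l, (N c * (U c * N c).adjugate * U c) i l • q c l)

/-- For `c ≠ 0, 1` let `E_c : y ^ 2 = x (x - 1) (x - c)`; up to isomorphism every elliptic curve over
the algebraic closure of `ℚ` is of this form.  Let `P` be any point of `E_b`.  There is a system of
subgroups `A c` of `E_c`, one for every elliptic curve `E_c` over the algebraic closure of `ℚ`, all of
infinite rank, closed under division and mapped into each other by all isogenies, with `P ∈ A b`, such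
that for every product `X = ∏ c, E_{a c} ^ (n c)` and every cycle
`Z = ∑ t, e t • [∏ c, N t c E_{a c} ^ (m c) + q t]` on `X`, of dimension `1 ≤ ∑ c, m c < dim X`, where the `N t c` are
integral matrices with an integral left inverse and the `q t` have their coordinates in the `A (a c)`: if
for every homomorphism `U : X → ∏ c, E_{a c} ^ (m c)` given by integral matrices the degree and the sum (in
`X`) of the points of the intersection of `Z` with the kernel of `U` vanish, then `Z` is torsion modulo
rational equivalence. -/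
theorem allU (b : AlgebraicClosure ℚ) (hb0 : b ≠ 0) (hb1 : b ≠ 1) (P : Pt b) :
    ∃ A : ∀ c : AlgebraicClosure ℚ, AddSubgroup (Pt c), P ∈ A b ∧
      (∀ c, c ≠ 0 → c ≠ 1 → ∃ f : ℕ → A c, LinearIndependent ℤ f) ∧
      (∀ c (R : Pt c) (m : ℕ), 0 < m → m • R ∈ A c → R ∈ A c) ∧
      (∀ c d (Θ : Corr c d), (∀ x y, Θ.base (x + y) = Θ.base x + Θ.base y) →
        ∀ R ∈ A c, Θ.base R ∈ A d) ∧
      ∀ (s : ℕ) (a : Fin s → AlgebraicClosure ℚ), (∀ c, a c ≠ 0 ∧ a c ≠ 1) →
        ∀ n m : Fin s → ℕ, 1 ≤ ∑ c, m c → ∑ c, m c < ∑ c, n c →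
        ∀ (r : ℕ) (e : Fin r → ℤ) (N : Fin r → ∀ c, Matrix (Fin (n c)) (Fin (m c)) ℤ)
          (q : Fin r → ∀ c, Fin (n c) → Pt (a c)),
          (∀ t c, ∃ U : Matrix (Fin (m c)) (Fin (n c)) ℤ, U * N t c = 1) →
          (∀ t c i, q t c i ∈ A (a c)) →
          (∀ U : ∀ c, Matrix (Fin (m c)) (Fin (n c)) ℤ, ∑ t, e t * interDeg U (N t) = 0) →
          (∀ (U : ∀ c, Matrix (Fin (m c)) (Fin (n c)) ℤ) (c : Fin s) (i : Fin (n c)),
            ∑ t, e t • interSum U (N t) (q t) c i = 0) →
          ∃ M : ℕ, 0 < M ∧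
            M • ∑ t, e t • (Finsupp.single (translate (N t) (q t)) 1 :
              CyclesM (fun i : (Σ c, Fin (n c)) => a i.1)) ∈
              ratM (fun i : (Σ c, Fin (n c)) => a i.1) (∑ c, m c) := by
  obtain ⟨A, hP, hrank, hdiv, hiso, hz⟩ := mainU b hb0 hb1 P
  refine ⟨A, hP, hrank, hdiv, hiso, ?_⟩
  intro s a ha n m hm hmn r e N q hN hq h1 h2
  choose U₀ hU₀ using hN
  have hcard : Fintype.card (Σ c, Fin (n c)) = ∑ c, n c := by
    rw [Fintype.card_sigma]
    simp
  have hcardm : Fintype.card (Σ c, Fin (m c)) = ∑ c, m c := by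
    rw [Fintype.card_sigma]
    simp
  have key := final_torsion (C := Fin s) (a := a) (J := fun c => Fin (m c))
    (ι := fun c => Fin (n c)) ha (fun c => A (a c))
    (points_reindex (fun i : (Σ c, Fin (n c)) => a i.1) A
      (hz (Fintype.card (Σ c, Fin (n c))) (by rw [hcard]; omega)) (fun i => ha i.1))
    (T := Fin r) (fun t c j i => N t c i j) (fun t c j i => U₀ t c j i)
    (by
      intro t c j l
      have := congrFun (congrFun (hU₀ t c) j) l
      rw [Matrix.mul_apply, Matrix.one_apply] at this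
      exact this) e q hq
    (fun U => h1 (fun c => Matrix.of (U c)))
    (by
      intro U c i
      rw [← h2 (fun c => Matrix.of (U c)) c i]
      refine Finset.sum_congr rfl fun t _ => ?_
      congr 1
      have hM : ∀ c, (fun j l : Fin (m c) => ∑ i, U c j i * N t c i l) =
          (Matrix.of (U c) * N t c : Matrix (Fin (m c)) (Fin (m c)) ℤ) := fun c => rfl
      unfold albSumB AC.albSum interSum
      simp only [hM]
      rw [mul_smul]
      congr 1
      congr 1
      congr 1
      have h4 : ∀ i' : Fin (n c),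
          (N t c * (Matrix.of (U c) * N t c).adjugate * Matrix.of (U c)) i i' • q t c i' =
          ∑ l, ∑ j, (N t c i j * (Matrix.of (U c) * N t c).adjugate j l * U c l i') •
            q t c i' := by
        intro i'
        rw [Matrix.mul_apply, Finset.sum_smul]
        refine Finset.sum_congr rfl fun l _ => ?_
        rw [Matrix.mul_apply, Finset.sum_mul, Finset.sum_smul]
        rfl
      simp only [h4, Finset.smul_sum, smul_smul]
      rw [Finset.sum_comm (s := Finset.univ (α := Fin (n c))) (t := Finset.univ (α := Fin (m c)))]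
      rw [Finset.sum_comm (s := Finset.univ (α := Fin (m c))) (t := Finset.univ (α := Fin (m c)))]
      refine Finset.sum_congr rfl fun l _ => ?_
      rw [Finset.sum_comm (s := Finset.univ (α := Fin (n c))) (t := Finset.univ (α := Fin (m c)))]
      refine Finset.sum_congr rfl fun j _ => ?_
      refine Finset.sum_congr rfl fun i' _ => ?_
      rw [mul_assoc])
  obtain ⟨M, hM, h3⟩ := key
  rw [hcardm] at h3
  exact ⟨M, hM, h3⟩

end ACP
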