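import Pool.Agent.H98.ACP.Parallel
import Pool.Agent.H18.ACP.ExtTower
import Pool.Agent.H18.AC.ExtProd

/-!
Module ExtProd (project V3, helper98; port of H18/AC/ExtProd).  The map z ↦ ∑ z(p) Ψ(N, p) respects rational equivalence of zero-cycles.
-/

set_option autoImplicit false

namespace ACP

open ZC AC WeierstrassCurve
open scoped Classical

variable {k : Type} [Field k] [IsAlgClosed k] [CharZero k] {C : Type}
  [Fintype C] {a : C → k} {J ι : C → Type} [∀ c, Fintype (J c)]

/-- `z ↦ ∑ z(p) Ψ(N, p)` -/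
noncomputable def act (N : ∀ c, J c → ι c → ℤ) :
    CyclesN (fun i : (Σ c, ι c) => a i.1) →+ CyclesM (fun i : (Σ c, ι c) => a i.1) :=
  Finsupp.liftAddHom fun p => (zmultiplesHom (CyclesM (fun i : (Σ c, ι c) => a i.1)))
    (Psi N (fun c i => p ⟨c, i⟩))

omit [IsAlgClosed k] [CharZero k] [Fintype C] in
theorem act_single (N : ∀ c, J c → ι c → ℤ) (p : ∀ i : (Σ c, ι c), Pt (a i.1)) (n : ℤ) :
    act N (Finsupp.single p n : CyclesN (fun i : (Σ c, ι c) => a i.1)) =
      n • Psi N (fun c i => p ⟨c, i⟩) := by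
  simp [act]

theorem act_principal (ha : ∀ c, a c ≠ 0 ∧ a c ≠ 1) (N : ∀ c, J c → ι c → ℤ)
    (z : CyclesN (fun i : (Σ c, ι c) => a i.1))
    (hz : IsPrincipalN (fun i : (Σ c, ι c) => a i.1) z) :
    act N z ∈ ratM (fun i : (Σ c, ι c) => a i.1) (Fintype.card (Σ c, J c)) := by
  obtain ⟨K, _, _, hK, x, f, hf, hcp⟩ := hz
  -- the places with f of nonzero order
  have hfin := fin_ord hK f hf
  set S₀ : Finset (Place k K) := hfin.toFinset with hS₀
  have hmemS : ∀ v : Place k K, v ∈ S₀ ↔ v.ord f ≠ 0 := by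
    intro v; rw [hS₀, Set.Finite.mem_toFinset, Set.mem_ofPred_eq]
  -- values
  have hval : ∀ v : Place k K, ∃ p : ∀ i : (Σ c, ι c), Pt (a i.1),
      ∀ i, SpecializesTo v (x i) (p i) := by
    intro v
    choose p hp using fun i : (Σ c, ι c) =>
      exists_spec (ha i.1).1 (ha i.1).2 v (res_const hK v) (x i)
    exact ⟨p, hp⟩
  choose pv hpv using hval
  have hc2 : z = ∑ v ∈ S₀, Finsupp.single (pv v) (v.ord f) := by
    ext p
    rw [hcp p, Finsupp.finsetSum_apply]
    have h1 : ∀ w : Place k K, (∑ᶠ (_ : ∀ i, SpecializesTo w (x i) (p i)), w.ord f) =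
        (Finsupp.single (pv w) (w.ord f) : CyclesN (fun i : (Σ c, ι c) => a i.1)) p := by
      intro w
      by_cases h2 : ∀ i, SpecializesTo w (x i) (p i)
      · have h3 : pv w = p := funext fun i => SpecializesTo.unique (hpv w i) (h2 i)
        rw [h3, Finsupp.single_eq_same, finsum_eq_if, if_pos h2]
      · have h3 : pv w ≠ p := fun h => h2 (h ▸ hpv w)
        rw [Finsupp.single_eq_of_ne (Ne.symm h3), finsum_eq_if, if_neg h2]
    simp only [h1]
    apply finsum_eq_sum_of_support_subset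
    intro w hw
    rw [Function.mem_support] at hw
    rw [Finset.mem_coe, hmemS]
    intro h0
    rw [h0, Finsupp.single_zero] at hw
    exact hw rfl
  -- the big field
  obtain ⟨L, _, _, _, _, Q₀, hL, hT1, hT2, hT3⟩ := ext_tower (Σ c, J c) (fun i => a i.1)
    (fun i => (ha i.1).1) (fun i => (ha i.1).2) hK
  obtain ⟨Q, hQ⟩ : ∃ Q : ∀ c, J c → Pt (algebraMap k L (a c)), ∀ c j, Q c j = Q₀ ⟨c, j⟩ :=
    ⟨fun c j => Q₀ ⟨c, j⟩, fun _ _ => rfl⟩
  choose wv hwv qv hqv hqi using hT2
  have hnt : ∀ v : Place k K, ∃ u : K, u ≠ 0 ∧ (wv v).v (algebraMap K L u) ≠ 1 := by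
    intro v
    obtain ⟨u, hu⟩ := v.surj ((Multiplicative.ofAdd (1 : ℤ) : Multiplicative ℤ) :
      WithZero (Multiplicative ℤ))
    refine ⟨u, ?_, ?_⟩
    · rintro rfl
      rw [map_zero] at hu
      exact WithZero.coe_ne_zero hu.symm
    · rw [← hwv v u, hu]
      intro h
      have h2 := WithZero.coe_inj.1 (h.trans WithZero.coe_one.symm)
      exact absurd (congrArg Multiplicative.toAdd h2) (by simp)
  have hinj : Function.Injective wv := by
    intro v v' h
    have hvv : v.v = v'.v := by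
      ext u
      rw [hwv v u, hwv v' u, h]
    cases v; cases v'
    simp only at hvv
    subst hvv
    rfl
  obtain ⟨y, hy⟩ : ∃ y : ∀ c, ι c → Pt (algebraMap k L (a c)), ∀ c i, y c i =
      lin N Q c i + bcs (IsScalarTower.toAlgHom k K L) (x ⟨c, i⟩) := ⟨_, fun _ _ => rfl⟩
  set f' : L := algebraMap K L f with hf'
  have hord : ∀ v : Place k K, (wv v).ord f' = v.ord f := by
    intro v
    unfold Place.ord
    rw [hf', ← hwv v f]
  -- value of y at a place lying above
  have hred : ∀ (v : Place k K) (w : Place k L) (e : ℕ), 0 < e →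
      (∀ u : K, w.v (algebraMap K L u) = v.v u ^ e) →
      ∀ q : ∀ c, J c → Pt (algebraMap k (Residue w) (a c)),
      (∀ c j, Red (resPl w) (Q c j) (q c j)) →
      ∀ c i, Red (resPl w) (y c i) (pt N q (fun c i => pv v ⟨c, i⟩) c i) := by
    intro v w e he hext q hq c i
    rw [hy]
    unfold pt
    refine red_addk (ha c).1 (ha c).2 ?_ (red_of_spec v w he hext (hpv v ⟨c, i⟩))
    have h1 := red_pt (fun c => (ha c).1) (fun c => (ha c).2) N hq (fun c (_ : ι c) => (0 : Pt (a c))) c i
    unfold pt at h1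
    rwa [map_zero, map_zero, add_zero, add_zero] at h1
  -- the cycle
  have hact : act N z = ∑ v ∈ S₀, v.ord f • Psi N (fun c i => pv v ⟨c, i⟩) := by
    rw [hc2, map_sum]
    exact Finset.sum_congr rfl fun v _ => act_single N _ _
  set g : Place k L → CyclesM (fun i : (Σ c, ι c) => a i.1) :=
    Function.extend wv (fun v => Psi N (fun c i => pv v ⟨c, i⟩)) 0 with hg
  have hgw : ∀ v, g (wv v) = Psi N (fun c i => pv v ⟨c, i⟩) := fun v => hinj.extend_apply _ _ _
  have hsum : act N z = ∑ w ∈ S₀.image wv, w.ord f' • g w := by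
    rw [Finset.sum_image (fun v _ v' _ h => hinj h), hact]
    exact Finset.sum_congr rfl fun v _ => by rw [hord, hgw]
  rw [hsum]
  refine princ_mem hL (unc y) f' ((map_ne_zero_iff _ (algebraMap K L).injective).2 hf) _ g ?_ ?_
  · intro w hw
    obtain ⟨v, hv, rfl⟩ := Finset.mem_image.1 hw
    obtain ⟨q, hq⟩ : ∃ q : ∀ c, J c → Pt (algebraMap k (Residue (wv v)) (a c)),
        unc q = qv v := ⟨fun c j => qv v ⟨c, j⟩, rfl⟩
    have hgen : IsGen k (unc q) := by
      rw [hq]
      exact ⟨hqi v, (hT1 (wv v) (qv v) (hqv v) (hqi v) (hnt v)).1⟩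
    refine ⟨unc (pt N q (fun c i => pv v ⟨c, i⟩)), hgen.isFF, ?_, ?_⟩
    · intro i
      exact hred v (wv v) 1 one_pos (fun u => by rw [pow_one]; exact (hwv v u).symm) q
        (fun c j => by
          rw [hQ]
          have := hqv v ⟨c, j⟩
          rw [← hq] at this
          exact this) i.1 i.2
    · rw [hgw, psi_eq ha q hgen]
  · intro w hw y' hFF hy' hordw
    by_contra hfr
    have hwf : w.v (algebraMap K L f) ≠ 1 := by
      intro h
      apply hordw
      unfold Place.ord
      rw [hf', h, WithZero.log_one, neg_zero]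
    obtain ⟨v, e, he, hve⟩ := norm_place w ⟨f, hf, hwf⟩
    choose q hq using fun (c : C) (j : J c) => exists_redk (resPl w) (ha c).1 (ha c).2 (Q c j)
    have hyq : y' = unc (pt N q (fun c i => pv v ⟨c, i⟩)) :=
      funext fun i => Red.uniq (hy' i) (hred v w e he hve q hq i.1 i.2)
    have hle : coordField k y' ≤ coordField k (unc q) := by
      rw [hyq]
      refine coordField_le q (coordField k (unc q)) (fun c j => ⟨?_, ?_⟩) N _
      · exact IntermediateField.subset_adjoin k _ (Or.inl ⟨⟨c, j⟩, rfl⟩)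
      · exact IntermediateField.subset_adjoin k _ (Or.inr ⟨⟨c, j⟩, rfl⟩)
    have hfd : FiniteDimensional (coordField k y') (Residue w) :=
      Module.finite_of_finrank_pos (Nat.pos_of_ne_zero hfr)
    have halg : Algebra.IsAlgebraic (coordField k y') (Residue w) := inferInstance
    have hindep := indep_of_alg (unc q) hFF (para_alg hle halg)
    have hqQ : ∀ j, Red (resPl w) (Q₀ j) (unc q j) := by
      intro j
      have := hq j.1 j.2
      rw [hQ] at this
      exact this
    obtain ⟨-, v', hv'⟩ := hT1 w (unc q) hqQ hindep ⟨f, hf, hwf⟩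
    have hv'S : v' ∈ S₀ := by
      rw [hmemS]
      intro h0
      apply hordw
      unfold Place.ord at h0 ⊢
      rw [hf', ← hv' f]
      exact h0
    have hww : w = wv v' := by
      refine hT3 w (wv v') (unc q) (qv v') (fun u => ?_) ⟨f, hf, hwf⟩ hqQ hindep (hqv v') (hqi v')
      rw [← hv' u, ← hwv v' u]
    exact hw (Finset.mem_image.2 ⟨v', hv'S, hww.symm⟩)

theorem act_rat (ha : ∀ c, a c ≠ 0 ∧ a c ≠ 1) (N : ∀ c, J c → ι c → ℤ)
    (z : CyclesN (fun i : (Σ c, ι c) => a i.1))
    (hz : z ∈ ratZeroN (fun i : (Σ c, ι c) => a i.1)) :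
    act N z ∈ ratM (fun i : (Σ c, ι c) => a i.1) (Fintype.card (Σ c, J c)) := by
  have h : ratZeroN (fun i : (Σ c, ι c) => a i.1) ≤
      (ratM (fun i : (Σ c, ι c) => a i.1) (Fintype.card (Σ c, J c))).comap (act N) := by
    unfold ratZeroN
    rw [AddSubgroup.closure_le]
    intro c hc
    exact act_principal ha N c hc
  exact h hz

end ACP
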