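import Pool.Agent.H98.ACP.Psi
import Pool.Agent.H18.ACP.LocusPt

/-!
Module Prim (project V3, helper98).  Ψ(N, p) is the coset with multiplicity one when N has an integral left inverse.
-/

set_option autoImplicit false

namespace ACP

open ZC AC WeierstrassCurve
open scoped Classical

variable {k : Type} [Field k] [IsAlgClosed k] [CharZero k] {C : Type} [Fintype C] {a : C → k}
  {J ι : C → Type} [∀ c, Fintype (J c)] [∀ c, DecidableEq (J c)]

theorem psi_prim (ha : ∀ c, a c ≠ 0 ∧ a c ≠ 1) [∀ c, Fintype (ι c)] (N U : ∀ c, J c → ι c → ℤ)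
    (hU : ∀ c j l, ∑ i, U c j i * N c l i = if j = l then 1 else 0)
    (p : ∀ c, ι c → Pt (a c)) :
    Psi N p = Finsupp.single {x : ∀ i : (Σ c, ι c), Pt (a i.1) |
      ∃ P : ∀ c, J c → Pt (a c), ∀ (c : C) (i : ι c), x ⟨c, i⟩ = lin N P c i + p c i} 1 := by
  obtain ⟨F, _, _, Q₀, hQ₀⟩ := gen_exists (k := k) (Σ c, J c) (fun i => a i.1)
    (fun i => (ha i.1).1) (fun i => (ha i.1).2)
  let Q : ∀ c, J c → Pt (algebraMap k F (a c)) := fun c j => Q₀ ⟨c, j⟩
  have hQ : IsGen k (unc Q) := hQ₀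
  rw [psi_eq ha Q hQ N p]
  exact cyc_prim (fun c => (ha c).1) (fun c => (ha c).2) Q hQ N U hU p

end ACP
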