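import Pool.Agent.H98.ACP.ExtProd
import Pool.Agent.H98.ACP.AbstractB
import Pool.Agent.H98.ACP.Prim
import Pool.Agent.H18.AC.Quot

/-!
Module Final (project V3, helper98; port of H18/AC/Final).  Assembly.
-/

set_option autoImplicit false

namespace ACP

open ZC AC WeierstrassCurve
open scoped Classical

theorem upd_update {C : Type} [DecidableEq C] {J : C → Type} [∀ c, DecidableEq (J c)]
    {X : C → Type} (N : ∀ c, J c → X c) (c : C) (M : J c → X c) (j : J c) (v : X c) :
    upd (Function.update N c M) c j v = Function.update N c (Function.update M j v) := by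
  unfold upd
  rw [Function.update_idem, Function.update_self]

variable {k : Type} [Field k] [IsAlgClosed k] [CharZero k] {C : Type} [Fintype C]
  [DecidableEq C] {a : C → k} {J ι : C → Type} [∀ c, Fintype (J c)] [∀ c, DecidableEq (J c)]
  [∀ c, Fintype (ι c)] [∀ c, DecidableEq (ι c)]

theorem psi_bmq (ha : ∀ c, a c ≠ 0 ∧ a c ≠ 1) {V : Type} [AddCommGroup V]
    (π : CyclesM (fun i : (Σ c, ι c) => a i.1) →+ V)
    (hrat : ∀ z ∈ ratM (fun i : (Σ c, ι c) => a i.1) (Fintype.card (Σ c, J c)), π z = 0)
    (p : ∀ c, ι c → Pt (a c)) : BMQ (fun N : (∀ c, J c → ι c → ℤ) => π (Psi N p)) := by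
  intro N c
  refine ⟨?_, ?_, ?_⟩
  · intro M j x y
    have h := hrat _ (parallel ha (Function.update N c M) p c j x y)
    simp only [upd_update, map_sub, map_add, map_nsmul] at h
    rw [sub_sub, sub_eq_zero] at h
    exact h
  · intro π' M
    have h := psi_perm ha (Function.update N c M) p
      (Function.update (fun c => Equiv.refl (J c)) c π')
    beta_reduce
    rw [← h]
    congr 2
    funext c'
    by_cases hc : c' = c
    · subst hc
      rw [Function.update_self, Function.update_self, Function.update_self]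
    · rw [Function.update_of_ne hc, Function.update_of_ne hc, Function.update_of_ne hc]
      rfl
  · intro M i j hij hM
    beta_reduce
    rw [psi_eq_col ha (Function.update N c M) p hij (by rw [Function.update_self]; exact hM),
      map_zero]

theorem final_torsion (ha : ∀ c, a c ≠ 0 ∧ a c ≠ 1) (A : ∀ c, AddSubgroup (Pt (a c)))
    (hA : ∀ z : CyclesN (fun i : (Σ c, ι c) => a i.1), (∀ x ∈ z.support, ∀ i, x i ∈ A i.1) →
      (z.sum fun _ m => m) = 0 → (∀ i, (z.sum fun x m => m • x i) = 0) →
      ∃ N : ℕ, 0 < N ∧ N • z ∈ ratZeroN (fun i : (Σ c, ι c) => a i.1))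
    {T : Type} [Fintype T] (N U₀ : T → ∀ c, J c → ι c → ℤ)
    (hU : ∀ t c j l, ∑ i, U₀ t c j i * N t c l i = if j = l then 1 else 0)
    (e : T → ℤ) (q : T → ∀ c, ι c → Pt (a c)) (hq : ∀ t c i, q t c i ∈ A c)
    (h1 : ∀ U : ∀ c, J c → ι c → ℤ,
      ∑ t, e t * ∏ c, (Matrix.det (fun j l : J c => ∑ i, U c j i * N t c l i)) ^ 2 = 0)
    (h2 : ∀ (U : ∀ c, J c → ι c → ℤ) (c : C) (i : ι c),
      ∑ t, e t • albSumB U (N t) (q t) c i = 0) :
    ∃ M : ℕ, 0 < M ∧
      M • ∑ t, e t • (Finsupp.single {x : ∀ i : (Σ c, ι c), Pt (a i.1) |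
        ∃ P : ∀ c, J c → Pt (a c), ∀ (c : C) (i : ι c), x ⟨c, i⟩ = lin (N t) P c i + q t c i} 1 :
        CyclesM (fun i : (Σ c, ι c) => a i.1)) ∈
        ratM (fun i : (Σ c, ι c) => a i.1) (Fintype.card (Σ c, J c)) := by
  obtain ⟨V, _, _, π, hπ⟩ := exists_quot
    (ratM (fun i : (Σ c, ι c) => a i.1) (Fintype.card (Σ c, J c)))
  rw [← hπ]
  have hrat : ∀ z ∈ ratM (fun i : (Σ c, ι c) => a i.1) (Fintype.card (Σ c, J c)), π z = 0 := by
    intro z hz
    rw [hπ]
    exact ⟨1, one_pos, by rwa [one_smul]⟩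
  -- multi-quadraticity
  have hMQ : ∀ p : ∀ c, ι c → Pt (a c), BMQ (fun N : (∀ c, J c → ι c → ℤ) => π (Psi N p)) :=
    psi_bmq ha π hrat
  -- additivity
  let F : (∀ c, J c → ι c → ℤ) → (∀ c, ι c → A c) → V := fun N p =>
    π (Psi N (fun c i => (p c i : Pt (a c)))) - π (Psi N (fun c _ => (0 : Pt (a c))))
  have hF0 : ∀ N, F N 0 = 0 := by
    intro N
    have : (fun c i => ((0 : ∀ c, ι c → A c) c i : Pt (a c))) =
        fun c (_ : ι c) => (0 : Pt (a c)) := rfl
    simp only [F, this, sub_self]
  have hFadd : ∀ N p p', F N (p + p') = F N p + F N p' := by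
    intro N p p'
    let z : CyclesN (fun i : (Σ c, ι c) => a i.1) :=
      Finsupp.single (fun i : (Σ c, ι c) => (p i.1 i.2 : Pt (a i.1)) + (p' i.1 i.2 : Pt (a i.1))) 1 -
      Finsupp.single (fun i : (Σ c, ι c) => (p i.1 i.2 : Pt (a i.1))) 1 -
      Finsupp.single (fun i : (Σ c, ι c) => (p' i.1 i.2 : Pt (a i.1))) 1 +
      Finsupp.single (fun i : (Σ c, ι c) => (0 : Pt (a i.1))) 1
    have hz : ∃ N : ℕ, 0 < N ∧ N • z ∈ ratZeroN (fun i : (Σ c, ι c) => a i.1) := by
      apply hA
      · intro x hx i
        have h3 : x ∈ ({(fun i : (Σ c, ι c) => (p i.1 i.2 : Pt (a i.1)) + (p' i.1 i.2 : Pt (a i.1))),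
            (fun i : (Σ c, ι c) => (p i.1 i.2 : Pt (a i.1))),
            (fun i : (Σ c, ι c) => (p' i.1 i.2 : Pt (a i.1))),
            (fun i : (Σ c, ι c) => (0 : Pt (a i.1)))} : Set (∀ i : (Σ c, ι c), Pt (a i.1))) := by
          by_contra hcon
          simp only [Set.mem_insert_iff, Set.mem_singleton_iff, not_or] at hcon
          rw [Finsupp.mem_support_iff] at hx
          apply hx
          simp only [z, Finsupp.coe_add, Finsupp.coe_sub, Pi.add_apply, Pi.sub_apply]
          rw [Finsupp.single_eq_of_ne (Ne.symm (Ne.symm hcon.1)),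
            Finsupp.single_eq_of_ne (Ne.symm (Ne.symm hcon.2.1)),
            Finsupp.single_eq_of_ne (Ne.symm (Ne.symm hcon.2.2.1)),
            Finsupp.single_eq_of_ne (Ne.symm (Ne.symm hcon.2.2.2))]
          simp
        rcases h3 with h3 | h3 | h3 | h3
        · rw [h3]; exact (A i.1).add_mem (p i.1 i.2).2 (p' i.1 i.2).2
        · rw [h3]; exact (p i.1 i.2).2
        · rw [h3]; exact (p' i.1 i.2).2
        · rw [h3]; exact (A i.1).zero_mem
      · have hadd : ∀ u v : CyclesN (fun i : (Σ c, ι c) => a i.1), ((u + v).sum fun _ m => m) =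
            (u.sum fun _ m => m) + v.sum fun _ m => m := fun u v =>
          Finsupp.sum_add_index' (fun _ => rfl) (fun _ _ _ => rfl)
        have hsub : ∀ u v : CyclesN (fun i : (Σ c, ι c) => a i.1), ((u - v).sum fun _ m => m) =
            (u.sum fun _ m => m) - v.sum fun _ m => m := fun u v =>
          Finsupp.sum_sub_index (fun _ _ _ => rfl)
        simp only [z]
        rw [hadd, hsub, hsub, Finsupp.sum_single_index rfl, Finsupp.sum_single_index rfl,
          Finsupp.sum_single_index rfl, Finsupp.sum_single_index rfl]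
        norm_num
      · intro i
        have hadd : ∀ u v : CyclesN (fun i : (Σ c, ι c) => a i.1),
            ((u + v).sum fun x m => m • x i) =
            (u.sum fun x m => m • x i) + v.sum fun x m => m • x i := fun u v =>
          Finsupp.sum_add_index' (fun _ => zero_smul _ _) (fun _ _ _ => add_smul _ _ _)
        have hsub : ∀ u v : CyclesN (fun i : (Σ c, ι c) => a i.1),
            ((u - v).sum fun x m => m • x i) =
            (u.sum fun x m => m • x i) - v.sum fun x m => m • x i := fun u v =>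
          Finsupp.sum_sub_index (fun _ _ _ => sub_smul _ _ _)
        have hs : ∀ x : (∀ i : (Σ c, ι c), Pt (a i.1)),
            ((Finsupp.single x 1 : CyclesN (fun i : (Σ c, ι c) => a i.1)).sum
            fun x m => m • x i) = x i := by
          intro x
          exact (Finsupp.sum_single_index
            (h := fun (x : ∀ i : (Σ c, ι c), Pt (a i.1)) (m : ℤ) => m • x i)
            (zero_smul ℤ (x i))).trans (one_smul ℤ (x i))
        simp only [z]
        rw [hadd, hsub, hsub, hs, hs, hs, hs]
        abel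
    obtain ⟨M, hM, h4⟩ := hz
    have h5 := hrat _ (act_rat ha N _ h4)
    rw [map_nsmul, map_nsmul] at h5
    have h6 : ((M : ℚ)) • π (act N z) = 0 := by rw [← h5, Nat.cast_smul_eq_nsmul]
    rcases smul_eq_zero.1 h6 with h7 | h7
    · exact absurd h7 (by exact_mod_cast hM.ne')
    have hact : ∀ p : (∀ i : (Σ c, ι c), Pt (a i.1)),
        act N (Finsupp.single p 1 : CyclesN (fun i : (Σ c, ι c) => a i.1)) =
          Psi N (fun c i => p ⟨c, i⟩) := by
      intro p
      rw [act_single, one_smul]
    have h8 : act N z = Psi N (fun c i => (p c i : Pt (a c)) + (p' c i : Pt (a c))) -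
        Psi N (fun c i => (p c i : Pt (a c))) - Psi N (fun c i => (p' c i : Pt (a c))) +
        Psi N (fun c _ => (0 : Pt (a c))) := by
      simp only [z, map_add, map_sub]
      rw [hact, hact, hact, hact]
    rw [h8] at h7
    simp only [map_add, map_sub] at h7
    simp only [F, Pi.add_apply, AddSubgroup.coe_add]
    have h9 : π (Psi N fun c i => (p c i : Pt (a c)) + (p' c i : Pt (a c))) =
        π (Psi N fun c i => (p c i : Pt (a c))) +
        π (Psi N fun c i => (p' c i : Pt (a c))) - π (Psi N fun c _ => (0 : Pt (a c))) := by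
      rw [← sub_eq_zero, ← h7]; abel
    rw [h9]; abel
  let g : (∀ c, J c → ι c → ℤ) → (∀ c, ι c → A c) →+ V := fun N =>
    { toFun := F N, map_zero' := hF0 N, map_add' := hFadd N }
  have hg : ∀ q : ∀ c, ι c → A c, BMQ (fun N => g N q) := by
    intro q N₀ c
    have h3 := hMQ (fun c i => (q c i : Pt (a c))) N₀ c
    have h4 := hMQ (fun c _ => (0 : Pt (a c))) N₀ c
    refine ⟨?_, ?_, ?_⟩
    · intro M j x y
      have h5 := h3.par M j x y
      have h6 := h4.par M j x y
      simp only [g, F, AddMonoidHom.coe_mk, ZeroHom.coe_mk]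
      simp only [smul_sub]
      rw [sub_add_sub_comm, h5, h6]; abel
    · intro π' M
      have h5 := h3.symm π' M
      have h6 := h4.symm π' M
      simp only [g, F, AddMonoidHom.coe_mk, ZeroHom.coe_mk]
      exact congrArg₂ (· - ·) h5 h6
    · intro M i j hij hM
      have h5 := h3.eqcol M i j hij hM
      have h6 := h4.eqcol M i j hij hM
      simp only [g, F, AddMonoidHom.coe_mk, ZeroHom.coe_mk]
      exact (congrArg₂ (· - ·) h5 h6).trans (sub_zero 0)
  have hcol : ∀ (N : ∀ c, J c → ι c → ℤ) (c : C) (j : J c) (b : A c),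
      g N (Pi.single (M := fun c => ι c → A c) c (fun i => N c j i • b)) = 0 := by
    intro N c j b
    simp only [g, F, AddMonoidHom.coe_mk, ZeroHom.coe_mk]
    rw [sub_eq_zero]
    congr 1
    have h3 := psi_translate ha N (fun c _ => (0 : Pt (a c)))
      (Pi.single (M := fun c => J c → Pt (a c)) c (fun l => if l = j then (b : Pt (a c)) else 0))
    rw [← h3]
    congr 1
    funext c' i
    unfold lin
    rw [zero_add]
    by_cases hc : c' = c
    · subst hc
      rw [Pi.single_eq_same, Pi.single_eq_same]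
      simp
    · rw [Pi.single_eq_of_ne hc, Pi.single_eq_of_ne hc]
      simp
  have key := abstract_zeroB (fun N : (∀ c, J c → ι c → ℤ) =>
      π (Psi N (fun c _ => (0 : Pt (a c))))) (hMQ _) g hg hcol
    N e (fun t c i => (⟨q t c i, hq t c i⟩ : A c)) h1 (by
      intro U c i
      apply Subtype.ext
      have h3 := h2 U c i
      simp only [albSumB, albSum] at h3 ⊢
      push_cast
      exact h3)
  rw [map_sum, ← key]
  refine Finset.sum_congr rfl fun t _ => ?_
  rw [map_zsmul]
  congr 1
  simp only [g, F, AddMonoidHom.coe_mk, ZeroHom.coe_mk]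
  rw [add_sub_cancel, psi_prim ha (N t) (U₀ t) (hU t) (q t)]

end ACP
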