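import Pool.Agent.H98.ACP.AlgDefs

/-!
Module GramB1 (project V3).  The Gram trick for the degrees, blockwise.
PROOF.  As AC.gram1: x_t = (minors (N t) I)_I, I : ∀ c, J c → ι c.  By cauchy_binet in each block and Finset.prod_univ_sum /
Fintype.piFinset (∏ c, ∑ I_c = ∑ I, ∏ c), ∑ I, minors (N s) I * minors (N t) I = (∏ c, |J c|!) * ∏ c, det(N_s,c N_t,c).  So h with
U = N s gives ∑ t, e t * ⟨x_s, x_t⟩ ^ 2 = 0 for all s, and gram_squares shows that the sum of the squares of the integers
∑ t, e t * (x_t I * x_t K) is zero.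
-/

set_option autoImplicit false

namespace ACP

open AC

variable {C : Type} [Fintype C] [DecidableEq C] {J ι : C → Type} [∀ c, Fintype (J c)]
  [∀ c, DecidableEq (J c)] [∀ c, Fintype (ι c)] [∀ c, DecidableEq (ι c)] {T : Type} [Fintype T]

/-- Cauchy-Binet for block matrices over a commutative ring -/
theorem cauchy_binetB {R : Type} [CommRing R] (U N : ∀ c, J c → ι c → R) :
    (∏ c, ((Fintype.card (J c)).factorial : R)) *
        ∏ c, Matrix.det (fun j l : J c => ∑ i, U c j i * N c l i) =
      ∑ I : ∀ c, J c → ι c, (∏ c, Matrix.det (fun j l : J c => U c l (I c j))) *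
        ∏ c, Matrix.det (fun j l : J c => N c l (I c j)) := by
  have h1 : ∀ c, ((Fintype.card (J c)).factorial : R) *
      Matrix.det (fun j l : J c => ∑ i, U c j i * N c l i) =
      ∑ I : J c → ι c, Matrix.det (fun j l : J c => U c l (I j)) *
        Matrix.det (fun j l : J c => N c l (I j)) := fun c => cauchy_binet (U c) (N c)
  rw [← Finset.prod_mul_distrib, Finset.prod_congr rfl (fun c _ => h1 c), Finset.prod_univ_sum,
    Fintype.piFinset_univ]
  exact Finset.sum_congr rfl fun I _ => Finset.prod_mul_distrib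

theorem gramB1 (N : T → ∀ c, J c → ι c → ℤ) (e : T → ℤ)
    (h : ∀ U : ∀ c, J c → ι c → ℤ,
      ∑ t, e t * ∏ c, (Matrix.det (fun j l : J c => ∑ i, U c j i * N t c l i)) ^ 2 = 0) :
    ∀ I K : ∀ c, J c → ι c, ∑ t, e t * (minors (N t) I * minors (N t) K) = 0 := by
  have h1 : ∀ s, ∑ t, e t * ((∑ I, minors (N s) I * minors (N t) I) *
      (∑ I, minors (N s) I * minors (N t) I)) = 0 := by
    intro s
    have h2 := h (N s)
    have h3 : ∀ t, (∑ I : ∀ c, J c → ι c, minors (N s) I * minors (N t) I) =
        (∏ c, ((Fintype.card (J c)).factorial : ℤ)) *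
          ∏ c, Matrix.det (fun j l : J c => ∑ i, N s c j i * N t c l i) := by
      intro t
      rw [cauchy_binetB]
      rfl
    simp only [h3]
    calc _ = (∏ c, ((Fintype.card (J c)).factorial : ℤ)) ^ 2 *
        ∑ t, e t * ∏ c, (Matrix.det (fun j l : J c => ∑ i, N s c j i * N t c l i)) ^ 2 := by
          rw [Finset.mul_sum]
          refine Finset.sum_congr rfl fun t _ => ?_
          rw [Finset.prod_pow]
          ring
      _ = 0 := by rw [h2, mul_zero]
  have h4 := gram_squares e (fun t I => minors (N t) I) (fun t I => minors (N t) I)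
  simp only [h1, mul_zero, Finset.sum_const_zero] at h4
  intro I K
  have h5 := (Finset.sum_eq_zero_iff_of_nonneg (fun I _ =>
    Finset.sum_nonneg fun K _ => sq_nonneg _)).1 h4.symm I (Finset.mem_univ _)
  have h6 := (Finset.sum_eq_zero_iff_of_nonneg (fun K _ => sq_nonneg _)).1 h5 K
    (Finset.mem_univ _)
  exact pow_eq_zero_iff (two_ne_zero) |>.1 h6

end ACP
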