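import Mathlib

/-!
# Invariant integral forms and the numerical conditions

For block matrices `N` the map induced on `H_1` by `N : ∏ E_c ^ (m c) → ∏ E_c ^ (n c)` is
`blockDiagonal' N ⊗ₖ 1`.  Special alternating forms of degree `2 ∑ m c` and `2 ∑ m c + 1` on `H_1` are
given by block matrices `U`; their values are the numbers `∏ c, D_c ^ 2` and the sums of points
`(∏ c' ≠ c, D_c' ^ 2) D_c (D_c q_c - N_c adj(U_c N_c) U_c q_c)`.
-/

set_option autoImplicit false

open scoped Kronecker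
open Matrix

namespace ACP

/-- The determinant of a block diagonal matrix with blocks of different sizes. -/
theorem det_blockDiag {s : ℕ} {m : Fin s → ℕ} {R : Type*} [CommRing R]
    (M : ∀ c, Matrix (Fin (m c)) (Fin (m c)) R) :
    (Matrix.blockDiagonal' M).det = ∏ c, (M c).det := by
  rw [(Matrix.blockTriangular_blockDiagonal' M).det_fintype]
  refine Finset.prod_congr rfl fun c _ => ?_
  let e : Fin (m c) ≃ {x : (Σ c, Fin (m c)) // x.1 = c} := (Equiv.sigmaSubtype (β := fun c => Fin (m c)) c).symm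
  rw [← Matrix.det_submatrix_equiv_self e]
  congr 1
  ext i j
  change Matrix.blockDiagonal' M ⟨c, i⟩ ⟨c, j⟩ = _
  rw [Matrix.blockDiagonal'_apply_eq]

section

variable {s : ℕ} {n m : Fin s → ℕ}

/-- The alternating form of degree `2 ∑ m c` given by `U`. -/
noncomputable def formU (U : ∀ c, Matrix (Fin (m c)) (Fin (n c)) ℤ) :
    ((Σ c, Fin (n c)) × Fin 2 → ℤ) [⋀^(Σ c, Fin (m c)) × Fin 2]→ₗ[ℤ] ℤ :=
  (Matrix.detRowAlternating).compLinearMap
    (Matrix.mulVecLin (Matrix.blockDiagonal' U ⊗ₖ (1 : Matrix (Fin 2) (Fin 2) ℤ)))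

/-- The product of the two matrices on `H_1`. -/
theorem mul_onH1 (U : ∀ c, Matrix (Fin (m c)) (Fin (n c)) ℤ)
    (N : ∀ c, Matrix (Fin (n c)) (Fin (m c)) ℤ) :
    (Matrix.blockDiagonal' U ⊗ₖ (1 : Matrix (Fin 2) (Fin 2) ℤ)) *
      (Matrix.blockDiagonal' N ⊗ₖ (1 : Matrix (Fin 2) (Fin 2) ℤ)) =
      Matrix.blockDiagonal' (fun c => U c * N c) ⊗ₖ (1 : Matrix (Fin 2) (Fin 2) ℤ) := by
  rw [← Matrix.mul_kronecker_mul, Matrix.one_mul, Matrix.blockDiagonal'_mul]

theorem formU_apply (U : ∀ c, Matrix (Fin (m c)) (Fin (n c)) ℤ)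
    (N : ∀ c, Matrix (Fin (n c)) (Fin (m c)) ℤ) :
    formU U (Matrix.blockDiagonal' N ⊗ₖ (1 : Matrix (Fin 2) (Fin 2) ℤ))ᵀ =
      ∏ c, (U c * N c).det ^ 2 := by
  have h1 : formU U (Matrix.blockDiagonal' N ⊗ₖ (1 : Matrix (Fin 2) (Fin 2) ℤ))ᵀ =
      ((Matrix.blockDiagonal' (fun c => U c * N c) ⊗ₖ (1 : Matrix (Fin 2) (Fin 2) ℤ))ᵀ).det := by
    rw [← mul_onH1]
    rfl
  rw [h1, Matrix.det_transpose, Matrix.det_kronecker, det_blockDiag]
  simp [Finset.prod_pow]


/-- The alternating form of degree `2 ∑ m c + 1` given by `U` and a coordinate `y` on `H_1`. -/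
noncomputable def formB (U : ∀ c, Matrix (Fin (m c)) (Fin (n c)) ℤ)
    (y : (Σ c, Fin (n c)) × Fin 2) :
    ((Σ c, Fin (n c)) × Fin 2 → ℤ) [⋀^Option ((Σ c, Fin (m c)) × Fin 2)]→ₗ[ℤ] ℤ :=
  (Matrix.detRowAlternating).compLinearMap
    (Matrix.mulVecLin (Matrix.of fun o : Option ((Σ c, Fin (m c)) × Fin 2) =>
      o.elim (Pi.single y 1) (Matrix.blockDiagonal' U ⊗ₖ (1 : Matrix (Fin 2) (Fin 2) ℤ))))

end

/-- The bordered matrix. -/
def bordM {ι κ : Type*} [Fintype ι] [DecidableEq ι] (P : Matrix κ ι ℤ) (Q : Matrix ι κ ℤ) (y x : ι) :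
    Matrix (Option κ) (Option κ) ℤ :=
  Matrix.of fun o o' => o.elim (o'.elim (if y = x then 1 else 0) (fun k => P k x))
    (fun j => o'.elim (Q y j) (fun k => (P * Q) k j))

theorem bordM_det {ι κ : Type*} [Fintype ι] [Fintype κ] [DecidableEq ι] [DecidableEq κ] (P : Matrix κ ι ℤ) (Q : Matrix ι κ ℤ)
    (y x : ι) (hd : (P * Q).det ≠ 0) :
    ((bordM P Q y x).det : ℚ) = ((P * Q).det : ℚ) * ((if y = x then 1 else 0) -
      ((Q.map (Int.cast : ℤ → ℚ)) * (((P * Q).map (Int.cast : ℤ → ℚ))⁻¹) *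
        (P.map (Int.cast : ℤ → ℚ))) y x) := by
  set A : Matrix κ κ ℚ := (P * Q).map (Int.cast : ℤ → ℚ) with hA
  have hAd : A.det = ((P * Q).det : ℚ) := by
    have := (Int.castRingHom ℚ).map_det (P * Q)
    simpa using this.symm
  have hu : IsUnit A.det := by
    rw [hAd]
    exact isUnit_iff_ne_zero.2 (by exact_mod_cast hd)
  have hinv : Invertible A := Matrix.invertibleOfIsUnitDet A hu
  let c : Matrix Unit κ ℚ := Matrix.of fun _ j => (Q y j : ℚ)
  let b : Matrix κ Unit ℚ := Matrix.of fun k _ => (P k x : ℚ)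
  let d : Matrix Unit Unit ℚ := Matrix.of fun _ _ => (if y = x then 1 else 0 : ℚ)
  have h1 : ((bordM P Q y x).det : ℚ) = (Matrix.fromBlocks A b c d).det := by
    rw [← Matrix.det_transpose (Matrix.fromBlocks A b c d),
      ← Matrix.det_submatrix_equiv_self (Equiv.optionEquivSumPUnit κ)]
    have := (Int.castRingHom ℚ).map_det (bordM P Q y x)
    rw [eq_intCast] at this
    rw [this]
    congr 1
    ext o o'
    rcases o with _ | j
    · rcases o' with _ | k
      · simp [bordM, d]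
      · simp [bordM, b]
    · rcases o' with _ | k
      · simp [bordM, c]
      · simp [bordM, A]
  rw [h1, Matrix.det_fromBlocks₁₁, hAd, Matrix.invOf_eq_nonsing_inv]
  congr 1
  rw [Matrix.det_unique]
  simp only [Matrix.sub_apply, Matrix.of_apply, d]
  congr 1

section

variable {s : ℕ} {n m : Fin s → ℕ}

theorem formB_apply (U : ∀ c, Matrix (Fin (m c)) (Fin (n c)) ℤ)
    (N : ∀ c, Matrix (Fin (n c)) (Fin (m c)) ℤ) (y x : (Σ c, Fin (n c)) × Fin 2) :
    formB U y (fun o => o.elim (Pi.single x 1)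
      (Matrix.blockDiagonal' N ⊗ₖ (1 : Matrix (Fin 2) (Fin 2) ℤ))ᵀ) =
      (bordM (Matrix.blockDiagonal' U ⊗ₖ (1 : Matrix (Fin 2) (Fin 2) ℤ))
        (Matrix.blockDiagonal' N ⊗ₖ (1 : Matrix (Fin 2) (Fin 2) ℤ)) y x).det := by
  change Matrix.det _ = Matrix.det _
  congr 1
  ext o o'
  change ((Matrix.of fun o : Option ((Σ c, Fin (m c)) × Fin 2) =>
      o.elim (Pi.single y 1) (Matrix.blockDiagonal' U ⊗ₖ (1 : Matrix (Fin 2) (Fin 2) ℤ))) *ᵥ
      (o.elim (Pi.single x 1)
      (Matrix.blockDiagonal' N ⊗ₖ (1 : Matrix (Fin 2) (Fin 2) ℤ))ᵀ)) o' = _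
  rcases o with _ | j
  · rcases o' with _ | k
    · change (Pi.single y 1 : (Σ c, Fin (n c)) × Fin 2 → ℤ) ⬝ᵥ
        (Pi.single x 1 : (Σ c, Fin (n c)) × Fin 2 → ℤ) = if y = x then 1 else 0
      rw [single_dotProduct, one_mul, Pi.single_apply]
    · change (Matrix.blockDiagonal' U ⊗ₖ (1 : Matrix (Fin 2) (Fin 2) ℤ)) k ⬝ᵥ
        (Pi.single x 1 : (Σ c, Fin (n c)) × Fin 2 → ℤ) =
        (Matrix.blockDiagonal' U ⊗ₖ (1 : Matrix (Fin 2) (Fin 2) ℤ)) k x
      rw [dotProduct_single, mul_one]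
  · rcases o' with _ | k
    · change (Pi.single y 1 : (Σ c, Fin (n c)) × Fin 2 → ℤ) ⬝ᵥ
        ((Matrix.blockDiagonal' N ⊗ₖ (1 : Matrix (Fin 2) (Fin 2) ℤ))ᵀ j) =
        (Matrix.blockDiagonal' N ⊗ₖ (1 : Matrix (Fin 2) (Fin 2) ℤ)) y j
      rw [single_dotProduct, one_mul, Matrix.transpose_apply]
    · rfl

/-- The block matrix of the bordered form: `E_c (D_c - N_c adj(U_c N_c) U_c)`,
`E_c = (∏ c' ≠ c, D_c' ^ 2) D_c`. -/
noncomputable def albM (U : ∀ c, Matrix (Fin (m c)) (Fin (n c)) ℤ)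
    (N : ∀ c, Matrix (Fin (n c)) (Fin (m c)) ℤ) (c : Fin s) : Matrix (Fin (n c)) (Fin (n c)) ℤ :=
  ((∏ c' ∈ Finset.univ.erase c, (U c' * N c').det ^ 2) * (U c * N c).det) •
    ((U c * N c).det • (1 : Matrix (Fin (n c)) (Fin (n c)) ℤ) -
      N c * (U c * N c).adjugate * U c)

theorem bord_zero (U : ∀ c, Matrix (Fin (m c)) (Fin (n c)) ℤ)
    (N : ∀ c, Matrix (Fin (n c)) (Fin (m c)) ℤ) (y x : (Σ c, Fin (n c)) × Fin 2)
    (c₀ : Fin s) (h0 : (U c₀ * N c₀).det = 0) :
    (bordM (Matrix.blockDiagonal' U ⊗ₖ (1 : Matrix (Fin 2) (Fin 2) ℤ))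
        (Matrix.blockDiagonal' N ⊗ₖ (1 : Matrix (Fin 2) (Fin 2) ℤ)) y x).det = 0 := by
  have h1 : (Matrix.blockDiagonal' (fun c => U c * N c)).det = 0 := by
    rw [det_blockDiag]
    exact Finset.prod_eq_zero (Finset.mem_univ c₀) h0
  obtain ⟨v, hv, hv0⟩ := Matrix.exists_mulVec_eq_zero_iff.2 h1
  rw [← Matrix.det_transpose]
  refine Matrix.exists_mulVec_eq_zero_iff.1 ⟨fun o => o.elim 0
    (fun k => if k.2 = y.2 then 0 else v k.1), ?_, ?_⟩
  · intro h
    apply hv
    ext k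
    obtain ⟨ε, hε⟩ : ∃ ε : Fin 2, ε ≠ y.2 := ⟨y.2 + 1, fun h =>
      absurd (add_eq_left.1 h) (by decide)⟩
    have := congrFun h (some (k, ε))
    simpa [hε] using this
  · ext o'
    change ∑ o, _ * _ = _
    rw [Fintype.sum_option]
    rcases o' with _ | k
    · have : ∀ j : (Σ c, Fin (m c)) × Fin 2,
          (Matrix.blockDiagonal' N ⊗ₖ (1 : Matrix (Fin 2) (Fin 2) ℤ)) y j *
            (if j.2 = y.2 then 0 else v j.1) = 0 := by
        intro j
        by_cases hj : j.2 = y.2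
        · simp [hj]
        · rw [Matrix.kroneckerMap_apply, Matrix.one_apply_ne (fun h => hj h.symm)]
          simp
      simpa [bordM] using Finset.sum_eq_zero fun j _ => this j
    · have h2 : ∑ j : (Σ c, Fin (m c)) × Fin 2,
          ((Matrix.blockDiagonal' U ⊗ₖ (1 : Matrix (Fin 2) (Fin 2) ℤ)) *
            (Matrix.blockDiagonal' N ⊗ₖ (1 : Matrix (Fin 2) (Fin 2) ℤ))) k j *
            (if j.2 = y.2 then 0 else v j.1) = 0 := by
        rw [mul_onH1, Fintype.sum_prod_type]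
        rw [Finset.sum_comm]
        refine Finset.sum_eq_zero fun ε _ => ?_
        by_cases hε : ε = y.2
        · simp [hε]
        · by_cases hk : k.2 = ε
          · have := congrFun hv0 k.1
            simp only [Matrix.mulVec, dotProduct, Pi.zero_apply] at this
            simpa [hε, hk, Matrix.kroneckerMap_apply, Matrix.one_apply] using this
          · refine Finset.sum_eq_zero fun j _ => ?_
            rw [Matrix.kroneckerMap_apply, Matrix.one_apply_ne hk]
            simp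
      simpa [bordM] using h2

theorem formB_value (U : ∀ c, Matrix (Fin (m c)) (Fin (n c)) ℤ)
    (N : ∀ c, Matrix (Fin (n c)) (Fin (m c)) ℤ) (y x : (Σ c, Fin (n c)) × Fin 2) :
    formB U y (fun o => o.elim (Pi.single x 1)
      (Matrix.blockDiagonal' N ⊗ₖ (1 : Matrix (Fin 2) (Fin 2) ℤ))ᵀ) =
      (Matrix.blockDiagonal' (albM U N) ⊗ₖ (1 : Matrix (Fin 2) (Fin 2) ℤ)) y x := by
  rw [formB_apply]
  by_cases h0 : ∃ c₀, (U c₀ * N c₀).det = 0
  · obtain ⟨c₀, h0⟩ := h0
    rw [bord_zero U N y x c₀ h0]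
    have h2 : ∀ c, albM U N c = 0 := by
      intro c
      have : (∏ c' ∈ Finset.univ.erase c, (U c' * N c').det ^ 2) * (U c * N c).det = 0 := by
        by_cases hc : c = c₀
        · subst hc
          rw [h0, mul_zero]
        · rw [Finset.prod_eq_zero (Finset.mem_erase.2 ⟨fun h => hc h.symm, Finset.mem_univ c₀⟩)
            (by rw [h0]; simp), zero_mul]
      rw [albM, this, zero_smul]
    have h3 : Matrix.blockDiagonal' (albM U N) = 0 := by
      have : albM U N = 0 := funext h2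
      rw [this, Matrix.blockDiagonal'_zero]
    rw [h3, Matrix.zero_kronecker]
    rfl
  · push Not at h0
    have hE : (Matrix.blockDiagonal' (fun c => U c * N c)).det ≠ 0 := by
      rw [det_blockDiag]
      exact Finset.prod_ne_zero_iff.2 fun c _ => h0 c
    have hdet : ((Matrix.blockDiagonal' U ⊗ₖ (1 : Matrix (Fin 2) (Fin 2) ℤ)) *
      (Matrix.blockDiagonal' N ⊗ₖ (1 : Matrix (Fin 2) (Fin 2) ℤ))).det =
        ∏ c, (U c * N c).det ^ 2 := by
      rw [mul_onH1, Matrix.det_kronecker, det_blockDiag]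
      simp [Finset.prod_pow]
    have hne : ((Matrix.blockDiagonal' U ⊗ₖ (1 : Matrix (Fin 2) (Fin 2) ℤ)) *
      (Matrix.blockDiagonal' N ⊗ₖ (1 : Matrix (Fin 2) (Fin 2) ℤ))).det ≠ 0 := by
      rw [hdet]
      exact Finset.prod_ne_zero_iff.2 fun c _ => pow_ne_zero _ (h0 c)
    have key := bordM_det (Matrix.blockDiagonal' U ⊗ₖ (1 : Matrix (Fin 2) (Fin 2) ℤ))
      (Matrix.blockDiagonal' N ⊗ₖ (1 : Matrix (Fin 2) (Fin 2) ℤ)) y x hne
    have hmap : ∀ {a b : Type} (M : Matrix a b ℤ),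
        (M ⊗ₖ (1 : Matrix (Fin 2) (Fin 2) ℤ)).map (Int.cast : ℤ → ℚ) =
          (M.map (Int.cast : ℤ → ℚ)) ⊗ₖ (1 : Matrix (Fin 2) (Fin 2) ℚ) := by
      intro a b M
      ext i j
      simp [Matrix.kroneckerMap_apply, Matrix.one_apply]
    have hbd : ∀ {f g : Fin s → ℕ} (M : ∀ c, Matrix (Fin (f c)) (Fin (g c)) ℤ),
        (Matrix.blockDiagonal' M).map (Int.cast : ℤ → ℚ) =
          Matrix.blockDiagonal' (fun c => (M c).map (Int.cast : ℤ → ℚ)) := by
      intro f g M
      exact Matrix.blockDiagonal'_map M (Int.cast : ℤ → ℚ) Int.cast_zero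
    have hinv : (((Matrix.blockDiagonal' U ⊗ₖ (1 : Matrix (Fin 2) (Fin 2) ℤ)) *
        (Matrix.blockDiagonal' N ⊗ₖ (1 : Matrix (Fin 2) (Fin 2) ℤ))).map
          (Int.cast : ℤ → ℚ))⁻¹ =
        Matrix.blockDiagonal' (fun c => ((U c * N c).map (Int.cast : ℤ → ℚ))⁻¹) ⊗ₖ
          (1 : Matrix (Fin 2) (Fin 2) ℚ) := by
      refine Matrix.inv_eq_right_inv ?_
      rw [mul_onH1, hmap, hbd, ← Matrix.mul_kronecker_mul, Matrix.one_mul,
        ← Matrix.blockDiagonal'_mul]
      have : (fun c => (U c * N c).map (Int.cast : ℤ → ℚ) *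
          ((U c * N c).map (Int.cast : ℤ → ℚ))⁻¹) = 1 := by
        funext c
        rw [Matrix.mul_nonsing_inv]
        · rfl
        · have h5 := (Int.castRingHom ℚ).map_det (U c * N c)
          have h6 : ((U c * N c).map (Int.cast : ℤ → ℚ)).det = (((U c * N c).det : ℤ) : ℚ) := by
            simpa using h5.symm
          rw [h6]
          exact isUnit_iff_ne_zero.2 (by exact_mod_cast h0 c)
      rw [this, Matrix.blockDiagonal'_one, Matrix.one_kronecker_one]
    rw [hinv, hdet, hmap, hmap, hbd, hbd, ← Matrix.mul_kronecker_mul,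
      ← Matrix.mul_kronecker_mul, Matrix.one_mul, Matrix.one_mul, ← Matrix.blockDiagonal'_mul,
      ← Matrix.blockDiagonal'_mul] at key
    have hgoal : (((bordM (Matrix.blockDiagonal' U ⊗ₖ (1 : Matrix (Fin 2) (Fin 2) ℤ))
        (Matrix.blockDiagonal' N ⊗ₖ (1 : Matrix (Fin 2) (Fin 2) ℤ)) y x).det : ℤ) : ℚ) =
        (((Matrix.blockDiagonal' (albM U N) ⊗ₖ (1 : Matrix (Fin 2) (Fin 2) ℤ)) y x : ℤ) : ℚ) := by
      rw [key]
      obtain ⟨⟨c₀, i₀⟩, ε₀⟩ := y
      obtain ⟨⟨c, i⟩, ε⟩ := x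
      by_cases hc : c₀ = c
      · subst hc
        by_cases hε : ε₀ = ε
        · subst hε
          have hD : (((U c₀ * N c₀).det : ℤ) : ℚ) ≠ 0 := by exact_mod_cast h0 c₀
          have h7 : ((U c₀ * N c₀).map (Int.cast : ℤ → ℚ)).det =
              (((U c₀ * N c₀).det : ℤ) : ℚ) := by
            have h5 := (Int.castRingHom ℚ).map_det (U c₀ * N c₀)
            simpa using h5.symm
          have h8 : ((N c₀).map (Int.cast : ℤ → ℚ) * ((U c₀ * N c₀).map (Int.cast : ℤ → ℚ))⁻¹ *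
              (U c₀).map (Int.cast : ℤ → ℚ)) =
              (((U c₀ * N c₀).det : ℤ) : ℚ)⁻¹ •
                ((N c₀ * (U c₀ * N c₀).adjugate * U c₀).map (Int.cast : ℤ → ℚ)) := by
            have h9 : ((U c₀ * N c₀).map (Int.cast : ℤ → ℚ)).adjugate =
                ((U c₀ * N c₀).adjugate).map (Int.cast : ℤ → ℚ) := by
              have := (Int.castRingHom ℚ).map_adjugate (U c₀ * N c₀)
              simpa using this.symm
            rw [Matrix.inv_def, h7, h9, Ring.inverse_eq_inv', Matrix.mul_smul, Matrix.smul_mul]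
            congr 1
            have h10 : ∀ {a b c : Type} [Fintype b] (S : Matrix a b ℤ) (T : Matrix b c ℤ),
                (S * T).map (Int.cast : ℤ → ℚ) =
                  S.map (Int.cast : ℤ → ℚ) * T.map (Int.cast : ℤ → ℚ) := by
              intro a b c _ S T
              exact Matrix.map_mul (f := Int.castRingHom ℚ)
            rw [h10, h10]
          have hl : (blockDiagonal' (fun k => (N k).map (Int.cast : ℤ → ℚ) *
              ((U k * N k).map (Int.cast : ℤ → ℚ))⁻¹ * (U k).map (Int.cast : ℤ → ℚ)) ⊗ₖ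
              (1 : Matrix (Fin 2) (Fin 2) ℚ)) ((⟨c₀, i₀⟩, ε₀) : (Σ c, Fin (n c)) × Fin 2)
                (⟨c₀, i⟩, ε₀) = (((U c₀ * N c₀).det : ℤ) : ℚ)⁻¹ *
                  ((N c₀ * (U c₀ * N c₀).adjugate * U c₀) i₀ i : ℤ) := by
            rw [Matrix.kroneckerMap_apply, Matrix.one_apply_eq, mul_one,
              Matrix.blockDiagonal'_apply_eq, h8]
            rfl
          have hr : (blockDiagonal' (albM U N) ⊗ₖ
              (1 : Matrix (Fin 2) (Fin 2) ℤ)) ((⟨c₀, i₀⟩, ε₀) : (Σ c, Fin (n c)) × Fin 2)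
                (⟨c₀, i⟩, ε₀) = albM U N c₀ i₀ i := by
            rw [Matrix.kroneckerMap_apply, Matrix.one_apply_eq, mul_one,
              Matrix.blockDiagonal'_apply_eq]
          have hδ : ((((⟨c₀, i₀⟩, ε₀) : (Σ c, Fin (n c)) × Fin 2) = (⟨c₀, i⟩, ε₀)) ↔ i₀ = i) := by
            constructor
            · intro h
              simpa using h
            · rintro rfl
              rfl
          rw [hl, hr, albM, ← Finset.mul_prod_erase Finset.univ _ (Finset.mem_univ c₀)]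
          simp only [Matrix.smul_apply, Matrix.sub_apply, smul_eq_mul, Matrix.one_apply, hδ]
          clear hl hr h8 h7 key hδ
          generalize (∏ x ∈ Finset.univ.erase c₀, (U x * N x).det ^ 2) = F
          generalize (N c₀ * (U c₀ * N c₀).adjugate * U c₀) i₀ i = g
          generalize (U c₀ * N c₀).det = D at hD ⊢
          by_cases hi : i₀ = i
          · rw [if_pos hi, if_pos hi]
            push_cast
            field_simp
          · rw [if_neg hi, if_neg hi]
            push_cast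
            field_simp
            try ring
        · have h1 : ¬ (((⟨c₀, i₀⟩, ε₀) : (Σ c, Fin (n c)) × Fin 2) = (⟨c₀, i⟩, ε)) :=
            fun h => hε (congrArg Prod.snd h)
          rw [if_neg h1, Matrix.kroneckerMap_apply, Matrix.kroneckerMap_apply,
            Matrix.one_apply_ne hε, Matrix.one_apply_ne hε]
          simp
      · have h1 : ¬ (((⟨c₀, i₀⟩, ε₀) : (Σ c, Fin (n c)) × Fin 2) = (⟨c, i⟩, ε)) :=
          fun h => hc (congrArg (fun z => z.1.1) h)
        rw [if_neg h1, Matrix.kroneckerMap_apply, Matrix.kroneckerMap_apply,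
          Matrix.blockDiagonal'_apply_ne _ _ _ hc, Matrix.blockDiagonal'_apply_ne _ _ _ hc]
        simp
    exact_mod_cast hgoal

/-- The value of the special forms on the points. -/
theorem formB_sum {G : Fin s → Type} [∀ c, AddCommGroup (G c)] {T : Type} [AddCommGroup T]
    (φ : ∀ c, G c →+ (Fin 2 → T)) (U : ∀ c, Matrix (Fin (m c)) (Fin (n c)) ℤ)
    (N : ∀ c, Matrix (Fin (n c)) (Fin (m c)) ℤ) (q : ∀ c, Fin (n c) → G c) (c : Fin s)
    (i : Fin (n c)) (ε : Fin 2) :
    ∑ x : (Σ c, Fin (n c)) × Fin 2, formB U (⟨c, i⟩, ε) (fun o => o.elim (Pi.single x 1)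
      (Matrix.blockDiagonal' N ⊗ₖ (1 : Matrix (Fin 2) (Fin 2) ℤ))ᵀ) •
        φ x.1.1 (q x.1.1 x.1.2) x.2 =
      φ c (((∏ c' ∈ Finset.univ.erase c, (U c' * N c').det ^ 2) * (U c * N c).det) •
        ((U c * N c).det • q c i -
          ∑ l, (N c * (U c * N c).adjugate * U c) i l • q c l)) ε := by
  simp only [formB_value]
  have h1 : ∀ l : Fin (n c), albM U N c i l • φ c (q c l) ε =
      φ c (albM U N c i l • q c l) ε := by
    intro l
    rw [map_zsmul, Pi.smul_apply]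
  have h2 : ∑ x : (Σ c, Fin (n c)) × Fin 2,
      (Matrix.blockDiagonal' (albM U N) ⊗ₖ (1 : Matrix (Fin 2) (Fin 2) ℤ)) (⟨c, i⟩, ε) x •
        φ x.1.1 (q x.1.1 x.1.2) x.2 = ∑ l : Fin (n c), albM U N c i l • φ c (q c l) ε := by
    rw [Fintype.sum_prod_type]
    have h3 : ∀ x : (Σ c, Fin (n c)), ∑ δ : Fin 2,
        (Matrix.blockDiagonal' (albM U N) ⊗ₖ (1 : Matrix (Fin 2) (Fin 2) ℤ)) (⟨c, i⟩, ε) (x, δ) •
          φ x.1 (q x.1 x.2) δ =
        Matrix.blockDiagonal' (albM U N) ⟨c, i⟩ x • φ x.1 (q x.1 x.2) ε := by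
      intro x
      rw [Finset.sum_eq_single ε]
      · rw [Matrix.kroneckerMap_apply, Matrix.one_apply_eq, mul_one]
      · intro δ _ hδ
        rw [Matrix.kroneckerMap_apply, Matrix.one_apply_ne (Ne.symm hδ), mul_zero, zero_smul]
      · intro h
        exact absurd (Finset.mem_univ _) h
    rw [Finset.sum_congr rfl fun x _ => h3 x, Fintype.sum_sigma,
      Finset.sum_eq_single c]
    · refine Finset.sum_congr rfl fun l _ => ?_
      rw [Matrix.blockDiagonal'_apply_eq]
    · intro c' _ hc'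
      refine Finset.sum_eq_zero fun l _ => ?_
      rw [Matrix.blockDiagonal'_apply_ne _ _ _ (Ne.symm hc'), zero_smul]
    · intro h
      exact absurd (Finset.mem_univ _) h
  rw [h2, Finset.sum_congr rfl fun l _ => h1 l]
  have h4 : ∑ l : Fin (n c), albM U N c i l • q c l =
      ((∏ c' ∈ Finset.univ.erase c, (U c' * N c').det ^ 2) * (U c * N c).det) •
        ((U c * N c).det • q c i -
          ∑ l, (N c * (U c * N c).adjugate * U c) i l • q c l) := by
    have h5 : (U c * N c).det • q c i =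
        ∑ l, ((U c * N c).det • (1 : Matrix (Fin (n c)) (Fin (n c)) ℤ)) i l • q c l := by
      rw [Finset.sum_eq_single i]
      · rw [Matrix.smul_apply, Matrix.one_apply_eq, smul_eq_mul, mul_one]
      · intro l _ hl
        rw [Matrix.smul_apply, Matrix.one_apply_ne (Ne.symm hl), smul_zero, zero_smul]
      · intro h
        exact absurd (Finset.mem_univ _) h
    rw [h5, ← Finset.sum_sub_distrib, Finset.smul_sum]
    refine Finset.sum_congr rfl fun l _ => ?_
    rw [← sub_smul, smul_smul]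
    rfl
  rw [← h4, map_sum, Finset.sum_apply]

end

end ACP
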