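import Pool.Agent.H98.ACP.Psi
import Pool.Agent.H18.ACP.PlaceGen
import Pool.Agent.H18.ACP.Triv
import Pool.Agent.H18.ACP.Princ
import Pool.Agent.H18.ACP.RedLin
import Pool.Agent.H18.ACP.GenStep
import Pool.Agent.H18.AC.ResL

/-!
Module Parallel (project V3, helper98; port of H18/AC/Parallel).  The parallelogram law in the column j₀ of the block c₀.
-/

set_option autoImplicit false

namespace ACP

open ZC AC WeierstrassCurve
open scoped Classical

/-- replace the column `j₀` of the block `c₀` -/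
def upd {C : Type} [DecidableEq C] {J : C → Type} [∀ c, DecidableEq (J c)] {X : C → Type}
    (N : ∀ c, J c → X c) (c₀ : C) (j₀ : J c₀) (v : X c₀) : ∀ c, J c → X c :=
  Function.update N c₀ (Function.update (N c₀) j₀ v)

/-- the point `γ q` in the block `c₀`, zero in the other blocks -/
noncomputable def colv {F : Type} [Field F] {C : Type} [DecidableEq C] {b : C → F} {ι : C → Type}
    {c₀ : C} (γ : ι c₀ → ℤ) (q : Pt (b c₀)) : ∀ c, ι c → Pt (b c) :=
  Pi.single (M := fun c => ι c → Pt (b c)) c₀ (fun i => γ i • q)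

section Upd

variable {C : Type} [DecidableEq C] {J : C → Type} [∀ c, DecidableEq (J c)] {X : C → Type}

theorem upd_block (N : ∀ c, J c → X c) (c₀ : C) (j₀ : J c₀) (v : X c₀) :
    upd N c₀ j₀ v c₀ = Function.update (N c₀) j₀ v := Function.update_self _ _ _

theorem upd_self (N : ∀ c, J c → X c) (c₀ : C) (j₀ : J c₀) (v : X c₀) :
    upd N c₀ j₀ v c₀ j₀ = v := by
  rw [upd_block, Function.update_self]

theorem upd_ne (N : ∀ c, J c → X c) (c₀ : C) (j₀ : J c₀) (v : X c₀) {c : C} (h : c ≠ c₀) :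
    upd N c₀ j₀ v c = N c := Function.update_of_ne h _ _

theorem upd_upd (N : ∀ c, J c → X c) (c₀ : C) (j₀ : J c₀) (u v : X c₀) :
    upd (upd N c₀ j₀ u) c₀ j₀ v = upd N c₀ j₀ v := by
  unfold upd
  rw [Function.update_idem, Function.update_self, Function.update_idem]

end Upd

section Gen

variable {k : Type} [Field k] [CharZero k] {F : Type} [Field F] [Algebra k F] {C : Type}
  [Fintype C] [DecidableEq C] {a : C → k} {J ι : C → Type} [∀ c, Fintype (J c)]
  [∀ c, DecidableEq (J c)]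

omit [CharZero k] [Fintype C] [∀ c, Fintype (J c)] in
theorem para_xc_neg {b : F} (P : Pt b) : xc (-P) = xc P := by
  rcases P with _ | ⟨x, y, h⟩ <;> rfl

omit [CharZero k] [Fintype C] [∀ c, Fintype (J c)] in
theorem para_yc_neg {b : F} (P : Pt b) : yc (-P) = -yc P := by
  rcases P with _ | ⟨x, y, h⟩
  · exact neg_zero.symm
  · change (leg b).toAffine.negY x y = -y
    simp [Affine.negY, leg]

theorem para_ne {a : k} {P : Pt (algebraMap k F a)} (h : Transcendental k (xc P)) :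
    P ≠ 0 ∧ P ≠ -P := by
  constructor
  · rintro rfl
    exact h (isAlgebraic_zero (A := F) (R := k))
  · intro h1
    have h2 := congrArg yc h1
    rw [para_yc_neg] at h2
    have _ : CharZero F := charZero_of_injective_algebraMap (algebraMap k F).injective
    have h3 : yc P = 0 := by
      have : (2 : F) * yc P = 0 := by linear_combination h2
      simpa using this
    rcases P with _ | ⟨x, y, hxy⟩
    · exact h (isAlgebraic_zero (A := F) (R := k))
    · have h4 : y = 0 := h3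
      have h5 := (leg_equation _ _ _).1 hxy.1
      rw [h4] at h5
      have h6 : x * (x - 1) * (x - algebraMap k F a) = 0 := by rw [← h5]; ring
      have h7 : IsAlgebraic k x := by
        rcases mul_eq_zero.1 h6 with h7 | h7
        · rcases mul_eq_zero.1 h7 with h8 | h8
          · rw [h8]; exact isAlgebraic_zero
          · rw [sub_eq_zero.1 h8]; exact isAlgebraic_one
        · rw [sub_eq_zero.1 h7]; exact isAlgebraic_algebraMap a
      exact h h7

omit [CharZero k] [Fintype C] in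
theorem para_lin (N : ∀ c, J c → ι c → ℤ) (c₀ : C) (j₀ : J c₀) (v : ι c₀ → ℤ)
    (g : ∀ c, J c → Pt (algebraMap k F (a c))) (c : C) (i : ι c) :
    lin (upd N c₀ j₀ v) g c i =
      lin N g c i + colv (b := fun c => algebraMap k F (a c)) (v - N c₀ j₀) (g c₀ j₀) c i := by
  by_cases hc : c = c₀
  · subst hc
    unfold lin colv
    rw [Pi.single_eq_same, upd_block]
    have h1 : ∀ j : J c, Function.update (N c) j₀ v j i • g c j =
        N c j i • g c j + (if j = j₀ then (v - N c j₀) i • g c j₀ else 0) := by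
      intro j
      by_cases hj : j = j₀
      · subst hj
        rw [Function.update_self, if_pos rfl, ← add_smul]
        congr 1
        simp
      · rw [Function.update_of_ne hj, if_neg hj, add_zero]
    rw [Finset.sum_congr rfl (fun j _ => h1 j), Finset.sum_add_distrib, Finset.sum_ite_eq',
      if_pos (Finset.mem_univ _)]
  · unfold lin colv
    rw [Pi.single_eq_of_ne hc, upd_ne _ _ _ _ hc]
    simp

omit [CharZero k] [Fintype C] in
theorem colv_add (c₀ : C) (γ γ' : ι c₀ → ℤ) (q : Pt (algebraMap k F (a c₀))) (c : C) (i : ι c) :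
    colv (b := fun c => algebraMap k F (a c)) (γ + γ') q c i =
      colv (b := fun c => algebraMap k F (a c)) γ q c i +
        colv (b := fun c => algebraMap k F (a c)) γ' q c i := by
  by_cases hc : c = c₀
  · subst hc
    unfold colv
    rw [Pi.single_eq_same, Pi.single_eq_same, Pi.single_eq_same]
    exact add_smul _ _ _
  · unfold colv
    rw [Pi.single_eq_of_ne hc, Pi.single_eq_of_ne hc, Pi.single_eq_of_ne hc]
    simp

omit [CharZero k] [Fintype C] in
theorem colv_smul (c₀ : C) (γ : ι c₀ → ℤ) (ε : ℤ) (q : Pt (algebraMap k F (a c₀))) (c : C)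
    (i : ι c) :
    colv (b := fun c => algebraMap k F (a c)) γ (ε • q) c i =
      colv (b := fun c => algebraMap k F (a c)) (ε • γ) q c i := by
  by_cases hc : c = c₀
  · subst hc
    unfold colv
    rw [Pi.single_eq_same, Pi.single_eq_same]
    change γ i • ε • q = (ε • γ i) • q
    rw [smul_comm, smul_assoc]
  · unfold colv
    rw [Pi.single_eq_of_ne hc, Pi.single_eq_of_ne hc]

omit [CharZero k] [Fintype C] in
/-- the value of `x` when the extra point is `ε` times the point of the column `j₀` -/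
theorem para_pt (N : ∀ c, J c → ι c → ℤ) (c₀ : C) (j₀ : J c₀) (γ : ι c₀ → ℤ)
    (p : ∀ c, ι c → Pt (a c)) (ε : ℤ) (g : ∀ c, J c → Pt (algebraMap k F (a c))) (c : C)
    (i : ι c) :
    pt N g p c i + colv (b := fun c => algebraMap k F (a c)) γ (ε • g c₀ j₀) c i =
      pt (upd N c₀ j₀ (ε • γ + N c₀ j₀)) g p c i := by
  unfold pt
  rw [para_lin, add_sub_cancel_right, colv_smul]
  abel

theorem para_psi_neg (ha : ∀ c, a c ≠ 0 ∧ a c ≠ 1) (N : ∀ c, J c → ι c → ℤ) (c₀ : C)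
    (j₀ : J c₀) (v : ι c₀ → ℤ) (p : ∀ c, ι c → Pt (a c)) :
    Psi (upd N c₀ j₀ (-v)) p = Psi (upd N c₀ j₀ v) p := by
  obtain ⟨F, _, _, Q₀, hQ₀⟩ := gen_exists (k := k) (Σ c, J c) (fun i => a i.1)
    (fun i => (ha i.1).1) (fun i => (ha i.1).2)
  let Q : ∀ c, J c → Pt (algebraMap k F (a c)) := fun c j => Q₀ ⟨c, j⟩
  have hQ : IsGen k (unc Q) := hQ₀
  have hQ' : IsGen k (unc (upd Q c₀ j₀ (-Q c₀ j₀))) := by
    refine psi_isGen ha Q _ hQ (upd (fun c j i => if j = i then 1 else 0) c₀ j₀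
      (fun i => if j₀ = i then -1 else 0)) (fun _ _ => 0) ?_
    funext c i
    unfold pt lin
    rw [map_zero, add_zero, Finset.sum_eq_single i]
    · by_cases hc : c = c₀
      · subst hc
        by_cases hi : i = j₀
        · subst hi
          rw [upd_self, upd_self]
          simp
        · rw [upd_block, upd_block, Function.update_of_ne hi, Function.update_of_ne hi]
          simp
      · rw [upd_ne _ _ _ _ hc, upd_ne _ _ _ _ hc]
        simp
    · intro j _ hj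
      have : upd (fun c (j i : J c) => if j = i then (1 : ℤ) else 0) c₀ j₀
          (fun i => if j₀ = i then -1 else 0) c j i = 0 := by
        by_cases hc : c = c₀
        · subst hc
          by_cases hj₀ : j = j₀
          · subst hj₀
            rw [upd_self, if_neg hj]
          · rw [upd_block, Function.update_of_ne hj₀, if_neg hj]
        · rw [upd_ne _ _ _ _ hc, if_neg hj]
      rw [this, zero_smul]
    · intro hi
      exact absurd (Finset.mem_univ _) hi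
  rw [psi_eq ha Q hQ, psi_eq ha _ hQ']
  congr 1
  funext i
  obtain ⟨c, i⟩ := i
  change pt _ _ _ _ _ = pt _ _ _ _ _
  unfold pt lin
  congr 1
  refine Finset.sum_congr rfl fun j _ => ?_
  by_cases hc : c = c₀
  · subst hc
    by_cases hj : j = j₀
    · subst hj
      rw [upd_self, upd_self, upd_self]
      simp
    · rw [upd_block, upd_block, upd_block, Function.update_of_ne hj, Function.update_of_ne hj,
        Function.update_of_ne hj]
  · rw [upd_ne _ _ _ _ hc, upd_ne _ _ _ _ hc, upd_ne _ _ _ _ hc]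

omit [CharZero k] [Fintype C] [∀ c, Fintype (J c)] in
/-- exchanging the extra generic point with the point of the column `j₀` -/
theorem para_swap {L : Type} [Field L] [Algebra k L] (c₀ : C) (j₀ : J c₀)
    (Q : ∀ o : Option (Σ c, J c), Pt (algebraMap k L (o.elim (a c₀) (fun i => a i.1))))
    (hQ : IsGen k Q)
    (Q₂ : ∀ o : Option (Σ c, J c), Pt (algebraMap k L (o.elim (a c₀) (fun i => a i.1))))
    (h0 : Q₂ none = Q (some ⟨c₀, j₀⟩)) (h1 : Q₂ (some ⟨c₀, j₀⟩) = Q none)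
    (h2 : ∀ i : (Σ c, J c), i ≠ ⟨c₀, j₀⟩ → Q₂ (some i) = Q (some i)) : IsGen k Q₂ := by
  have hsw : ∀ o, xc (Q₂ o) = xc (Q (Equiv.swap none (some ⟨c₀, j₀⟩) o)) ∧
      yc (Q₂ o) = yc (Q (Equiv.swap none (some ⟨c₀, j₀⟩) o)) := by
    intro o
    rcases o with _ | i
    · rw [Equiv.swap_apply_left, h0]
      exact ⟨rfl, rfl⟩
    · by_cases hi : i = ⟨c₀, j₀⟩
      · subst hi
        rw [Equiv.swap_apply_right, h1]
        exact ⟨rfl, rfl⟩
      · rw [Equiv.swap_apply_of_ne_of_ne (by simp) (fun h => hi (Option.some_injective _ h)),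
          h2 i hi]
        exact ⟨rfl, rfl⟩
  refine ⟨?_, ?_⟩
  · have h3 := hQ.indep.comp (Equiv.swap none (some ⟨c₀, j₀⟩)) (Equiv.injective _)
    convert h3 using 1
    funext o
    exact (hsw o).1
  · rw [eq_top_iff, ← hQ.gen]
    refine IntermediateField.adjoin_le_iff.2 ?_
    rintro _ (⟨o, rfl⟩ | ⟨o, rfl⟩)
    · refine IntermediateField.subset_adjoin _ _ (Or.inl
        ⟨Equiv.swap none (some ⟨c₀, j₀⟩) o, ?_⟩)
      have := (hsw (Equiv.swap none (some ⟨c₀, j₀⟩) o)).1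
      rw [Equiv.swap_apply_self] at this
      exact this
    · refine IntermediateField.subset_adjoin _ _ (Or.inr
        ⟨Equiv.swap none (some ⟨c₀, j₀⟩) o, ?_⟩)
      have := (hsw (Equiv.swap none (some ⟨c₀, j₀⟩) o)).2
      rw [Equiv.swap_apply_self] at this
      exact this

end Gen

section Main

variable {k : Type} [Field k] [IsAlgClosed k] [CharZero k] {C : Type}
  [Fintype C] [DecidableEq C] {a : C → k} {J ι : C → Type} [∀ c, Fintype (J c)]
  [∀ c, DecidableEq (J c)]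

omit [IsAlgClosed k] [CharZero k] in
theorem para_alg {κ : Type} [Field κ] [Algebra k κ] {S T : IntermediateField k κ}
    (h : S ≤ T) (hS : Algebra.IsAlgebraic S κ) : Algebra.IsAlgebraic T κ := by
  refine ⟨fun x => ?_⟩
  exact IsAlgebraic.tower_top_of_subalgebra_le (A := S.toSubalgebra) (B := T.toSubalgebra) h
    (hS.isAlgebraic x)

omit [IsAlgClosed k] [Fintype C] [∀ c, Fintype (J c)] [∀ c, DecidableEq (J c)] in
theorem red_colv {L κ : Type} [Field L] [Field κ] [Algebra k L] [Algebra k κ] {w : KPl k L κ}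
    (ha : ∀ c, a c ≠ 0 ∧ a c ≠ 1) {c₀ : C} (γ : ι c₀ → ℤ) {q : Pt (algebraMap k L (a c₀))}
    {q' : Pt (algebraMap k κ (a c₀))} (h : Red w q q') (c : C) (i : ι c) :
    Red w (colv (b := fun c => algebraMap k L (a c)) γ q c i)
      (colv (b := fun c => algebraMap k κ (a c)) γ q' c i) := by
  by_cases hc : c = c₀
  · subst hc
    have hb0 : algebraMap k κ (a c) ≠ 0 :=
      (map_ne_zero_iff _ (algebraMap k κ).injective).2 (ha c).1
    have hb1 : algebraMap k κ (a c) ≠ 1 := fun h =>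
      (ha c).2 ((algebraMap k κ).injective (h.trans (map_one _).symm))
    unfold colv
    rw [Pi.single_eq_same, Pi.single_eq_same]
    exact red_zsmul (w.const (a c)) hb0 hb1 h _
  · unfold colv
    rw [Pi.single_eq_of_ne hc, Pi.single_eq_of_ne hc]
    exact Red.zero w

omit [IsAlgClosed k] in
theorem red_addk {L κ : Type} [Field L] [Field κ] [Algebra k L] [Algebra k κ] {w : KPl k L κ}
    {d : k} (h0 : d ≠ 0) (h1 : d ≠ 1) {P Q : Pt (algebraMap k L d)}
    {p q : Pt (algebraMap k κ d)} (hP : Red w P p) (hQ : Red w Q q) : Red w (P + Q) (p + q) := by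
  have hb0 : algebraMap k κ d ≠ 0 :=
    (map_ne_zero_iff _ (algebraMap k κ).injective).2 h0
  have hb1 : algebraMap k κ d ≠ 1 := fun h =>
    h1 ((algebraMap k κ).injective (h.trans (map_one _).symm))
  exact Red.add (w.const d) hb0 hb1 hP hQ

theorem para_place (ha : ∀ c, a c ≠ 0 ∧ a c ≠ 1) {F L : Type} [Field F] [Field L]
    [Algebra k F] [Algebra k L] [Algebra F L] [IsScalarTower k F L] (c₀ : C) (j₀ : J c₀)
    (Q' : ∀ c, J c → Pt (algebraMap k F (a c))) (hQ' : IsGen k (unc Q'))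
    (q₀ : Pt (algebraMap k L (a c₀)))
    (H : IsQuad F L (cub (algebraMap k F (a c₀))) (xc q₀) (yc q₀)) (N : ∀ c, J c → ι c → ℤ)
    (γ : ι c₀ → ℤ) (p : ∀ c, ι c → Pt (a c)) (ε : ℤ)
    (x : ∀ c, ι c → Pt (algebraMap k L (a c)))
    (hx : ∀ c i, x c i = pt N (fun c j => bcs (IsScalarTower.toAlgHom k F L) (Q' c j)) p c i +
      colv (b := fun c => algebraMap k L (a c)) γ q₀ c i) :
    ∃ w : Place k L,
      (∃ y : ∀ c, ι c → Pt (algebraMap k (Residue w) (a c)),
        IsFF k (Residue w) (Fintype.card (Σ c, J c)) ∧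
        (∀ c i, Red (resPl w) (x c i) (y c i)) ∧
        cyc k (unc y) = Psi (upd N c₀ j₀ (ε • γ + N c₀ j₀)) p) ∧
      (∃ q1 : Pt (algebraMap k (Residue w) (a c₀)),
        Red (resPl w) (bcs (IsScalarTower.toAlgHom k F L) (Q' c₀ j₀)) q1 ∧ q1 ≠ 0 ∧ q1 ≠ -q1 ∧
        Red (resPl w) q₀ (ε • q1)) ∧
      (ε • Q' c₀ j₀ ≠ 0 → ε • Q' c₀ j₀ ≠ -(ε • Q' c₀ j₀) →
        w.ord (xc q₀ - algebraMap F L (xc (ε • Q' c₀ j₀))) = 1) ∧
      (ε • Q' c₀ j₀ = 0 → w.ord (xc q₀) = -2) ∧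
      (∀ u : F, u ≠ 0 → w.v (algebraMap F L u) = 1) ∧
      (∀ (w' : Place k L) (y : ∀ c, ι c → Pt (algebraMap k (Residue w') (a c))),
        IsFF k (Residue w') (Fintype.card (Σ c, J c)) →
        (∀ c i, Red (resPl w') (x c i) (y c i)) →
        Algebra.IsAlgebraic (coordField k (unc y)) (Residue w') →
        ∀ q0 q1 : Pt (algebraMap k (Residue w') (a c₀)), Red (resPl w') q₀ q0 →
          Red (resPl w') (bcs (IsScalarTower.toAlgHom k F L) (Q' c₀ j₀)) q1 → q0 = ε • q1 →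
          w' = w) := by
  obtain ⟨w, φ, h1, h2, h3, h4, h5⟩ := placeGen_exists (ha c₀).1 (ha c₀).2 q₀ H (ε • Q' c₀ j₀)
  have hg : IsGen k (unc (fun c j => bcs (φ : F →ₐ[k] Residue w) (Q' c j))) := isGen_bcs φ hQ'
  refine ⟨w, ?_, ?_, h4, h5, h2, ?_⟩
  · refine ⟨pt (upd N c₀ j₀ (ε • γ + N c₀ j₀))
      (fun c j => bcs (φ : F →ₐ[k] Residue w) (Q' c j)) p, hg.isFF, ?_, ?_⟩
    · intro c i
      rw [hx, ← para_pt]
      refine red_addk (ha c).1 (ha c).2 (red_pt (fun c => (ha c).1) (fun c => (ha c).2) N (fun c j => h3 (a c) (Q' c j)) p c i) ?_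
      refine red_colv ha γ ?_ c i
      rw [← map_zsmul]
      exact h1
    · rw [psi_eq ha _ hg]
  · refine ⟨bcs (φ : F →ₐ[k] Residue w) (Q' c₀ j₀), h3 (a c₀) (Q' c₀ j₀), ?_, ?_, ?_⟩
    · exact (para_ne (hg.indep.transcendental ⟨c₀, j₀⟩)).1
    · exact (para_ne (hg.indep.transcendental ⟨c₀, j₀⟩)).2
    · rw [← map_zsmul]; exact h1
  · intro w' y hff hred halg q0 q1 hq0 hq1 hε
    have hval : ∀ c (j : J c), ∃ q : Pt (algebraMap k (Residue w') (a c)),
        Red (resPl w') (bcs (IsScalarTower.toAlgHom k F L) (Q' c j)) q :=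
      fun c j => exists_redk (resPl w') (ha c).1 (ha c).2 _
    choose q' hq' using hval
    have hq10 : q' c₀ j₀ = q1 := (hq' c₀ j₀).uniq hq1
    have hy' : y = pt (upd N c₀ j₀ (ε • γ + N c₀ j₀)) q' p := by
      funext c i
      refine (hred c i).uniq ?_
      rw [hx, ← para_pt]
      refine red_addk (ha c).1 (ha c).2 (red_pt (fun c => (ha c).1) (fun c => (ha c).2) N hq' p c i) ?_
      refine red_colv ha γ ?_ c i
      rw [hq10, ← hε]
      exact hq0
    have hle : coordField k (unc y) ≤ coordField k (unc q') := by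
      rw [hy']
      refine coordField_le q' _ (fun c j => ⟨?_, ?_⟩) _ p
      · exact IntermediateField.subset_adjoin _ _ (Or.inl ⟨⟨c, j⟩, rfl⟩)
      · exact IntermediateField.subset_adjoin _ _ (Or.inr ⟨⟨c, j⟩, rfl⟩)
    have hind := indep_of_alg (unc q') hff (para_alg hle halg)
    have htriv := triv_gen (L := L) (unc Q') hQ' w' (unc q') (fun i => hq' i.1 i.2) hind
    have hb0 : algebraMap k (Residue w') (a c₀) ≠ 0 :=
      (map_ne_zero_iff _ (algebraMap k (Residue w')).injective).2 (ha c₀).1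
    have hb1 : algebraMap k (Residue w') (a c₀) ≠ 1 := fun h =>
      (ha c₀).2 ((algebraMap k (Residue w')).injective (h.trans (map_one _).symm))
    refine placeGen_unique (ha c₀).1 (ha c₀).2 q₀ H (ε • Q' c₀ j₀) w' w htriv h2 q0
      (bcs (φ : F →ₐ[k] Residue w) (ε • Q' c₀ j₀)) hq0 ?_ h1 (h3 _ _)
    rw [map_zsmul, hε]
    exact red_zsmul ((resPl w').const (a c₀)) hb0 hb1 hq1 ε

omit [IsAlgClosed k] [CharZero k] in
theorem para_ord {L : Type} [Field L] [Algebra k L] (w : Place k L) {X Y : L}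
    (hX : w.ord X = -2) (hY : w.v Y = 1) : w.ord (X - Y) = -2 ∧ w.ord (Y - X) = -2 := by
  have h1 : WithZero.log (w.v X) = 2 := by
    unfold Place.ord at hX; linarith
  have h2 : w.v X ≠ 0 := by
    intro h
    rw [h, WithZero.log_zero] at h1
    norm_num at h1
  have h3 : w.v Y < w.v X := by
    rw [hY, ← WithZero.exp_log h2, h1, ← WithZero.exp_zero]
    exact WithZero.exp_lt_exp.2 (by norm_num)
  unfold Place.ord
  rw [Valuation.map_sub_eq_of_lt_right _ h3, Valuation.map_sub_eq_of_lt_left _ h3, h1]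
  exact ⟨rfl, rfl⟩

omit [IsAlgClosed k] [CharZero k] in
theorem para_case {d : k} {L : Type} [Field L] [Algebra k L] (w : Place k L)
    {Q₀ Q₁ : Pt (algebraMap k L d)} {q₀ q₁ : Pt (algebraMap k (Residue w) d)}
    (h₀ : Red (resPl w) Q₀ q₀) (h₁ : Red (resPl w) Q₁ q₁) (h : w.ord (xc Q₀ - xc Q₁) ≠ 0) :
    q₀ = 0 ∨ q₁ = 0 ∨ q₀ = q₁ ∨ q₀ = -q₁ := by
  rcases q₀ with _ | ⟨x₀, y₀, e₀⟩
  · exact Or.inl rfl
  rcases q₁ with _ | ⟨x₁, y₁, e₁⟩
  · exact Or.inr (Or.inl rfl)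
  rcases Q₀ with _ | ⟨X₀, Y₀, E₀⟩
  · exact h₀.elim
  rcases Q₁ with _ | ⟨X₁, Y₁, E₁⟩
  · exact h₁.elim
  obtain ⟨⟨hX₀, hx₀⟩, _⟩ := h₀
  obtain ⟨⟨hX₁, hx₁⟩, _⟩ := h₁
  have hmem : X₀ - X₁ ∈ w.v.valuationSubring := sub_mem hX₀ hX₁
  have hx : x₀ = x₁ := by
    by_contra hne
    apply h
    have h1 : residueHom w ⟨X₀ - X₁, hmem⟩ = x₀ - x₁ := by
      have : (⟨X₀ - X₁, hmem⟩ : w.v.valuationSubring) = ⟨X₀, hX₀⟩ - ⟨X₁, hX₁⟩ := rfl
      rw [this, map_sub]
      exact congrArg₂ _ hx₀ hx₁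
    have h2 : ¬ w.v (X₀ - X₁) < 1 := fun h3 => by
      have := (residueHom_eq_zero_iff w _ hmem).2 h3
      rw [h1, sub_eq_zero] at this
      exact hne this
    have h3 : w.v (X₀ - X₁) = 1 :=
      le_antisymm ((Valuation.mem_valuationSubring_iff _ _).1 hmem) (not_lt.1 h2)
    have h4 : w.ord (X₀ - X₁) = 0 := by
      unfold Place.ord
      rw [h3, WithZero.log_one, neg_zero]
    exact h4
  subst hx
  right; right
  have h1 := (leg_equation _ _ _).1 e₀.1
  have h2 := (leg_equation _ _ _).1 e₁.1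
  have h3 : (y₀ - y₁) * (y₀ + y₁) = 0 := by linear_combination h1 - h2
  rcases mul_eq_zero.1 h3 with h4 | h4
  · left
    have : y₀ = y₁ := sub_eq_zero.1 h4
    subst this
    rfl
  · right
    have h5 : y₀ = -y₁ := eq_neg_of_add_eq_zero_left h4
    have h6 : (leg (algebraMap k (Residue w) d)).toAffine.negY x₀ y₁ = y₀ := by
      rw [h5]; simp [Affine.negY, leg]
    rw [Affine.Point.neg_some, Affine.Point.some.injEq]
    exact ⟨rfl, h6.symm⟩

theorem parallel (ha : ∀ c, a c ≠ 0 ∧ a c ≠ 1) (N : ∀ c, J c → ι c → ℤ)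
    (p : ∀ c, ι c → Pt (a c)) (c₀ : C) (j₀ : J c₀) (γ δ : ι c₀ → ℤ) :
    Psi (upd N c₀ j₀ (γ + δ)) p + Psi (upd N c₀ j₀ (γ - δ)) p - 2 • Psi (upd N c₀ j₀ γ) p -
      2 • Psi (upd N c₀ j₀ δ) p ∈
      ratM (fun i : (Σ c, ι c) => a i.1) (Fintype.card (Σ c, J c)) := by
  obtain ⟨L, _, _, Q, hQ⟩ := gen_exists (k := k) (Option (Σ c, J c))
    (fun o => o.elim (a c₀) (fun i => a i.1)) (by
      intro o
      rcases o with _ | i
      · exact (ha c₀).1
      · exact (ha i.1).1) (by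
      intro o
      rcases o with _ | i
      · exact (ha c₀).2
      · exact (ha i.1).2)
  obtain ⟨Q₀, hQ₀⟩ : ∃ Q₀ : Pt (algebraMap k L (a c₀)), Q₀ = Q none := ⟨_, rfl⟩
  obtain ⟨Q₁, hQ₁⟩ : ∃ Q₁ : ∀ c, J c → Pt (algebraMap k L (a c)),
      ∀ c j, Q₁ c j = Q (some ⟨c, j⟩) := ⟨fun c j => Q (some ⟨c, j⟩), fun _ _ => rfl⟩
  have hff : IsFF k L (Fintype.card (Σ c, J c) + 1) := by
    have := hQ.isFF
    rwa [Fintype.card_option] at this
  -- first splitting
  obtain ⟨F, _, _, _, _, Q', hQ', hQQ', H⟩ := gen_split Q hQ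
  obtain ⟨R, hR, hRQ⟩ : ∃ R : ∀ c, J c → Pt (algebraMap k F (a c)), IsGen k (unc R) ∧
      ∀ c j, bcs (IsScalarTower.toAlgHom k F L) (R c j) = Q₁ c j :=
    ⟨fun c j => Q' ⟨c, j⟩, hQ', fun c j => (hQQ' ⟨c, j⟩).trans (hQ₁ c j).symm⟩
  have H : IsQuad F L (cub (algebraMap k F (a c₀))) (xc Q₀) (yc Q₀) := by rw [hQ₀]; exact H
  -- second splitting
  obtain ⟨Q₂, h20, h21, h22⟩ : ∃ Q₂ : ∀ o : Option (Σ c, J c),
      Pt (algebraMap k L (o.elim (a c₀) (fun i => a i.1))),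
      Q₂ none = Q₁ c₀ j₀ ∧ (∀ c j, Q₂ (some ⟨c, j⟩) = upd Q₁ c₀ j₀ Q₀ c j) ∧
      IsGen k Q₂ := by
    refine ⟨fun o => match o with
      | none => Q₁ c₀ j₀
      | some i => upd Q₁ c₀ j₀ Q₀ i.1 i.2, rfl, fun _ _ => rfl, ?_⟩
    refine para_swap c₀ j₀ Q hQ _ (hQ₁ c₀ j₀) ?_ ?_
    · change upd Q₁ c₀ j₀ Q₀ c₀ j₀ = Q none
      rw [upd_self, hQ₀]
    · rintro ⟨c, j⟩ hi
      change upd Q₁ c₀ j₀ Q₀ c j = Q (some ⟨c, j⟩)
      rw [← hQ₁]
      by_cases hc : c = c₀
      · subst hc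
        have hj : j ≠ j₀ := fun h => hi (by rw [h])
        rw [upd_block, Function.update_of_ne hj]
      · rw [upd_ne _ _ _ _ hc]
  obtain ⟨G, _, _, _, _, Q'', hQ'', hQQ'', H'⟩ := gen_split Q₂ h22
  obtain ⟨R', hR', hRQ'⟩ : ∃ R : ∀ c, J c → Pt (algebraMap k G (a c)), IsGen k (unc R) ∧
      ∀ c j, bcs (IsScalarTower.toAlgHom k G L) (R c j) = upd Q₁ c₀ j₀ Q₀ c j :=
    ⟨fun c j => Q'' ⟨c, j⟩, hQ'', fun c j => (hQQ'' ⟨c, j⟩).trans (h21 c j)⟩
  have H1 : IsQuad G L (cub (algebraMap k G (a c₀))) (xc (Q₁ c₀ j₀)) (yc (Q₁ c₀ j₀)) := by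
    rw [← h20]; exact H'
  -- the point
  obtain ⟨x, hx⟩ : ∃ x : ∀ c, ι c → Pt (algebraMap k L (a c)), ∀ c i, x c i =
      pt (upd N c₀ j₀ δ) Q₁ p c i + colv (b := fun c => algebraMap k L (a c)) γ Q₀ c i :=
    ⟨_, fun _ _ => rfl⟩
  have hx1 : ∀ c i, x c i = pt (upd N c₀ j₀ δ)
      (fun c j => bcs (IsScalarTower.toAlgHom k F L) (R c j)) p c i +
      colv (b := fun c => algebraMap k L (a c)) γ Q₀ c i := by
    intro c i
    rw [hx]
    congr 2
    funext c j
    exact (hRQ c j).symm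
  have hx2 : ∀ c i, x c i = pt (upd N c₀ j₀ γ)
      (fun c j => bcs (IsScalarTower.toAlgHom k G L) (R' c j)) p c i +
      colv (b := fun c => algebraMap k L (a c)) δ (Q₁ c₀ j₀) c i := by
    intro c i
    rw [hx]
    have e1 : (fun c j => bcs (IsScalarTower.toAlgHom k G L) (R' c j)) = upd Q₁ c₀ j₀ Q₀ := by
      funext c j
      exact hRQ' c j
    rw [e1]
    unfold pt
    have e2 : lin (upd N c₀ j₀ δ) Q₁ c i + colv (b := fun c => algebraMap k L (a c)) γ Q₀ c i =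
        lin (upd N c₀ j₀ γ) (upd Q₁ c₀ j₀ Q₀) c i +
          colv (b := fun c => algebraMap k L (a c)) δ (Q₁ c₀ j₀) c i := by
      by_cases hc : c = c₀
      · subst hc
        unfold lin colv
        rw [Pi.single_eq_same, Pi.single_eq_same, upd_block, upd_block, upd_block]
        rw [← Finset.add_sum_erase _ _ (Finset.mem_univ j₀),
          ← Finset.add_sum_erase _ (fun j => Function.update (N c) j₀ γ j i •
            Function.update (Q₁ c) j₀ Q₀ j) (Finset.mem_univ j₀)]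
        rw [Function.update_self, Function.update_self, Function.update_self]
        have e3 : ∑ j ∈ Finset.univ.erase j₀, Function.update (N c) j₀ δ j i • Q₁ c j =
            ∑ j ∈ Finset.univ.erase j₀, Function.update (N c) j₀ γ j i •
              Function.update (Q₁ c) j₀ Q₀ j := by
          refine Finset.sum_congr rfl fun j hj => ?_
          have hj' : j ≠ j₀ := Finset.ne_of_mem_erase hj
          rw [Function.update_of_ne hj', Function.update_of_ne hj', Function.update_of_ne hj']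
        rw [e3]
        abel
      · unfold lin colv
        rw [Pi.single_eq_of_ne hc, Pi.single_eq_of_ne hc, upd_ne _ _ _ _ hc, upd_ne _ _ _ _ hc,
          upd_ne _ _ _ _ hc]
    calc lin (upd N c₀ j₀ δ) Q₁ c i + bca L (p c i) +
          colv (b := fun c => algebraMap k L (a c)) γ Q₀ c i
        = (lin (upd N c₀ j₀ δ) Q₁ c i + colv (b := fun c => algebraMap k L (a c)) γ Q₀ c i) +
          bca L (p c i) := by abel
      _ = _ := by rw [e2]; abel
  have hxc1 : xc (Q₁ c₀ j₀) = algebraMap F L (xc (R c₀ j₀)) := by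
    rw [← hRQ, xc_bcs]; rfl
  have hQ2 : bcs (IsScalarTower.toAlgHom k G L) (R' c₀ j₀) = Q₀ := by
    rw [hRQ', upd_self]
  have hxc0 : xc Q₀ = algebraMap G L (xc (R' c₀ j₀)) := by
    rw [← hQ2, xc_bcs]; rfl
  obtain ⟨w₁, ⟨y₁, hy₁, hr₁, hc₁⟩, ⟨q₁, hq₁, hn₁, hn₁', hv₁⟩, ho₁, _, _, hu₁⟩ :=
    para_place ha c₀ j₀ R hR Q₀ H (upd N c₀ j₀ δ) γ p 1 _ hx1
  obtain ⟨w₂, ⟨y₂, hy₂, hr₂, hc₂⟩, ⟨q₂, hq₂, hn₂, hn₂', hv₂⟩, ho₂, _, _, hu₂⟩ :=
    para_place ha c₀ j₀ R hR Q₀ H (upd N c₀ j₀ δ) γ p (-1) _ hx1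
  obtain ⟨w₃, ⟨y₃, hy₃, hr₃, hc₃⟩, ⟨q₃, hq₃, hn₃, hn₃', hv₃⟩, _, ho₃, ht₃, hu₃⟩ :=
    para_place ha c₀ j₀ R hR Q₀ H (upd N c₀ j₀ δ) γ p 0 _ hx1
  obtain ⟨w₄, ⟨y₄, hy₄, hr₄, hc₄⟩, ⟨q₄, hq₄, hn₄, hn₄', hv₄⟩, _, ho₄, ht₄, hu₄⟩ :=
    para_place ha c₀ j₀ R' hR' (Q₁ c₀ j₀) H1 (upd N c₀ j₀ γ) δ p 0 _ hx2
  rw [upd_self, upd_upd] at hc₁ hc₂ hc₃ hc₄
  have hRt : Transcendental k (xc (R c₀ j₀)) := hR.indep.transcendental ⟨c₀, j₀⟩
  have hRt' : Transcendental k (xc (R' c₀ j₀)) := hR'.indep.transcendental ⟨c₀, j₀⟩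
  have hne := para_ne hRt
  have hO₁ : w₁.ord (xc Q₀ - xc (Q₁ c₀ j₀)) = 1 := by
    rw [one_smul] at ho₁
    rw [hxc1]
    exact ho₁ hne.1 hne.2
  have hO₂ : w₂.ord (xc Q₀ - xc (Q₁ c₀ j₀)) = 1 := by
    rw [neg_smul, one_smul, para_xc_neg, neg_neg] at ho₂
    rw [hxc1]
    refine ho₂ (neg_ne_zero.2 hne.1) ?_
    intro h
    exact hne.2 h.symm
  have hO₃ : w₃.ord (xc Q₀ - xc (Q₁ c₀ j₀)) = -2 := by
    refine (para_ord w₃ (ho₃ (zero_smul _ _)) ?_).1
    rw [hxc1]
    exact ht₃ _ (fun h => hRt (by rw [h]; exact isAlgebraic_zero))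
  have hO₄ : w₄.ord (xc Q₀ - xc (Q₁ c₀ j₀)) = -2 := by
    refine (para_ord w₄ (ho₄ (zero_smul _ _)) ?_).2
    rw [hxc0]
    exact ht₄ _ (fun h => hRt' (by rw [h]; exact isAlgebraic_zero))
  have h12 : w₁ ≠ w₂ := by
    intro h
    subst h
    have h1 := hq₁.uniq hq₂
    rw [← h1] at hv₂
    have h2 := hv₁.uniq hv₂
    rw [one_smul, neg_smul, one_smul] at h2
    exact hn₁' h2
  have h34 : w₃ ≠ w₄ := by
    intro h
    subst h
    rw [hQ2] at hq₄
    have h2 := hv₃.uniq hq₄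
    rw [zero_smul] at h2
    exact hn₄ h2.symm
  have h13 : w₁ ≠ w₃ := by
    intro h; rw [h, hO₃] at hO₁; norm_num at hO₁
  have h14 : w₁ ≠ w₄ := by
    intro h; rw [h, hO₄] at hO₁; norm_num at hO₁
  have h23 : w₂ ≠ w₃ := by
    intro h; rw [h, hO₃] at hO₂; norm_num at hO₂
  have h24 : w₂ ≠ w₄ := by
    intro h; rw [h, hO₄] at hO₂; norm_num at hO₂
  have hf : xc Q₀ - xc (Q₁ c₀ j₀) ≠ 0 := by
    intro h
    have h1 : xc (Q none) = xc (Q (some ⟨c₀, j₀⟩)) := by
      rw [← hQ₀, ← hQ₁]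
      exact sub_eq_zero.1 h
    have := hQ.indep.injective h1
    exact absurd this (by simp)
  let g : Place k L → CyclesM (fun i : (Σ c, ι c) => a i.1) := fun w =>
    if w = w₁ then Psi (upd N c₀ j₀ ((1 : ℤ) • γ + δ)) p
    else if w = w₂ then Psi (upd N c₀ j₀ ((-1 : ℤ) • γ + δ)) p
    else if w = w₃ then Psi (upd N c₀ j₀ ((0 : ℤ) • γ + δ)) p
    else Psi (upd N c₀ j₀ ((0 : ℤ) • δ + γ)) p
  have hg₁ : g w₁ = Psi (upd N c₀ j₀ ((1 : ℤ) • γ + δ)) p := if_pos rfl
  have hg₂ : g w₂ = Psi (upd N c₀ j₀ ((-1 : ℤ) • γ + δ)) p :=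
    (if_neg h12.symm).trans (if_pos rfl)
  have hg₃ : g w₃ = Psi (upd N c₀ j₀ ((0 : ℤ) • γ + δ)) p :=
    (if_neg h13.symm).trans ((if_neg h23.symm).trans (if_pos rfl))
  have hg₄ : g w₄ = Psi (upd N c₀ j₀ ((0 : ℤ) • δ + γ)) p :=
    (if_neg h14.symm).trans ((if_neg h24.symm).trans (if_neg h34.symm))
  have key := princ_mem hff (unc x) (xc Q₀ - xc (Q₁ c₀ j₀)) hf {w₁, w₂, w₃, w₄} g ?_ ?_
  · rw [Finset.sum_insert (by simp [h12, h13, h14]), Finset.sum_insert (by simp [h23, h24]),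
      Finset.sum_insert (by simp [h34]), Finset.sum_singleton, hO₁, hO₂, hO₃, hO₄,
      hg₁, hg₂, hg₃, hg₄] at key
    have e1 : (1 : ℤ) • γ + δ = γ + δ := by rw [one_smul]
    have e2 : (-1 : ℤ) • γ + δ = -(γ - δ) := by rw [neg_smul, one_smul]; abel
    have e3 : (0 : ℤ) • γ + δ = δ := by rw [zero_smul, zero_add]
    have e4 : (0 : ℤ) • δ + γ = γ := by rw [zero_smul, zero_add]
    rw [e1, e2, e3, e4, para_psi_neg ha] at key
    convert key using 1
    module
  · intro w hw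
    simp only [Finset.mem_insert, Finset.mem_singleton] at hw
    rcases hw with h | h | h | h
    · subst h; exact ⟨unc y₁, hy₁, fun i => hr₁ i.1 i.2, hc₁.trans hg₁.symm⟩
    · subst h; exact ⟨unc y₂, hy₂, fun i => hr₂ i.1 i.2, hc₂.trans hg₂.symm⟩
    · subst h; exact ⟨unc y₃, hy₃, fun i => hr₃ i.1 i.2, hc₃.trans hg₃.symm⟩
    · subst h; exact ⟨unc y₄, hy₄, fun i => hr₄ i.1 i.2, hc₄.trans hg₄.symm⟩
  · intro w hw y hffw hred hord
    by_contra hfin
    have hfd := Module.finite_of_finrank_pos (Nat.pos_of_ne_zero hfin)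
    have halg : Algebra.IsAlgebraic (coordField k y) (Residue w) :=
      Algebra.IsAlgebraic.of_finite _ _
    obtain ⟨q0, hq0⟩ := exists_redk (resPl w) (ha c₀).1 (ha c₀).2 Q₀
    obtain ⟨q1, hq1⟩ := exists_redk (resPl w) (ha c₀).1 (ha c₀).2 (Q₁ c₀ j₀)
    have hq1' : Red (resPl w) (bcs (IsScalarTower.toAlgHom k F L) (R c₀ j₀)) q1 := by
      rw [hRQ]; exact hq1
    have hq0' : Red (resPl w) (bcs (IsScalarTower.toAlgHom k G L) (R' c₀ j₀)) q0 := by
      rw [hQ2]; exact hq0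
    apply hw
    simp only [Finset.mem_insert, Finset.mem_singleton]
    have hred' : ∀ c (i : ι c), Red (resPl w) (x c i) (y ⟨c, i⟩) := fun c i => hred ⟨c, i⟩
    rcases para_case w hq0 hq1 hord with h | h | h | h
    · right; right; left
      exact hu₃ w (fun c i => y ⟨c, i⟩) hffw hred' halg q0 q1 hq0 hq1' (by rw [zero_smul, h])
    · right; right; right
      exact hu₄ w (fun c i => y ⟨c, i⟩) hffw hred' halg q1 q0 hq1 hq0' (by rw [zero_smul, h])
    · left
      exact hu₁ w (fun c i => y ⟨c, i⟩) hffw hred' halg q0 q1 hq0 hq1' (by rw [one_smul, h])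
    · right; left
      exact hu₂ w (fun c i => y ⟨c, i⟩) hffw hred' halg q0 q1 hq0 hq1'
        (by rw [neg_smul, one_smul, h])

end Main

end ACP
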