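import Pool.Agent.H18.ACP.GenUniq
import Pool.Agent.H18.ACP.GenTr
import Pool.Agent.H18.ACP.CycInv
import Pool.Agent.ZC.Group

/-!
Module Psi (project V3, helper98; port of H18/AC/Psi).  The push-forward cycle Ψ(N, p) of the product of the E_{a c} ^ (J c) under
Q ↦ N Q + p and its invariances.
-/

set_option autoImplicit false

namespace ACP

open ZC AC WeierstrassCurve
open scoped Classical

variable {k : Type} [Field k] [CharZero k] {C : Type} [Fintype C] {a : C → k} {J ι : C → Type}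
  [∀ c, Fintype (J c)]

/-- The push-forward of `∏ c, E_{a c} ^ (J c)` under the morphism `Q ↦ N Q + p`. -/
noncomputable def Psi {k : Type} [Field k] {C : Type} {a : C → k} {J ι : C → Type}
    [∀ c, Fintype (J c)] (N : ∀ c, J c → ι c → ℤ) (p : ∀ c, ι c → Pt (a c)) :
    CyclesM (fun i : (Σ c, ι c) => a i.1) :=
  Classical.epsilon fun z : CyclesM (fun i : (Σ c, ι c) => a i.1) =>
    ∃ (F : Type) (_ : Field F) (_ : Algebra k F) (Q : ∀ c, J c → Pt (algebraMap k F (a c))),
      IsGen k (unc Q) ∧ z = cyc k (unc (pt N Q p))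

theorem psi_eq (ha : ∀ c, a c ≠ 0 ∧ a c ≠ 1) {F : Type} [Field F] [Algebra k F]
    (Q : ∀ c, J c → Pt (algebraMap k F (a c))) (hQ : IsGen k (unc Q)) (N : ∀ c, J c → ι c → ℤ)
    (p : ∀ c, ι c → Pt (a c)) : Psi N p = cyc k (unc (pt N Q p)) := by
  have h := Classical.epsilon_spec (p := fun z : CyclesM (fun i : (Σ c, ι c) => a i.1) =>
    ∃ (F : Type) (_ : Field F) (_ : Algebra k F) (Q : ∀ c, J c → Pt (algebraMap k F (a c))),
      IsGen k (unc Q) ∧ z = cyc k (unc (pt N Q p)))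
    ⟨cyc k (unc (pt N Q p)), F, inferInstance, inferInstance, Q, hQ, rfl⟩
  obtain ⟨F', hF, hA, Q', hQ', h'⟩ := h
  have h1 : Psi N p = cyc k (unc (pt N Q' p)) := h'
  obtain ⟨σ, hσ⟩ := gen_unique (unc Q') hQ' (unc Q) hQ
  rw [h1, ← cyc_bcs σ (unc (pt N Q' p))]
  congr 1
  funext i
  obtain ⟨c, i⟩ := i
  change bcs (σ : F' →ₐ[k] F) (pt N Q' p c i) = pt N Q p c i
  rw [bcs_pt]
  congr 1
  funext c j
  exact hσ ⟨c, j⟩

theorem psi_isGen (ha : ∀ c, a c ≠ 0 ∧ a c ≠ 1) {F : Type} [Field F] [Algebra k F]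
    (Q Q' : ∀ c, J c → Pt (algebraMap k F (a c))) (hQ : IsGen k (unc Q))
    (M : ∀ c, J c → J c → ℤ) (b : ∀ c, J c → Pt (a c)) (h : pt M Q' b = Q) :
    IsGen k (unc Q') := by
  refine isGen_of_ff (unc Q') hQ.isFF ?_
  rw [eq_top_iff, ← hQ.gen, ← h]
  refine coordField_le Q' (coordField k (unc Q')) (fun c j => ⟨?_, ?_⟩) M b
  · exact IntermediateField.subset_adjoin k _ (Or.inl ⟨⟨c, j⟩, rfl⟩)
  · exact IntermediateField.subset_adjoin k _ (Or.inr ⟨⟨c, j⟩, rfl⟩)

theorem psi_gen_add (ha : ∀ c, a c ≠ 0 ∧ a c ≠ 1) {F : Type} [Field F] [Algebra k F]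
    (Q : ∀ c, J c → Pt (algebraMap k F (a c))) (hQ : IsGen k (unc Q))
    (b : ∀ c, J c → Pt (a c)) : IsGen k (unc (fun c j => Q c j + bca F (b c j))) := by
  refine psi_isGen ha Q _ hQ (fun c j i => if j = i then 1 else 0) (fun c i => - b c i) ?_
  funext c i
  unfold pt lin
  beta_reduce
  rw [Finset.sum_eq_single i]
  · rw [if_pos rfl, one_zsmul, map_neg, add_neg_cancel_right]
  · intro j _ hj
    rw [if_neg hj, zero_zsmul]
  · intro hi
    exact absurd (Finset.mem_univ i) hi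

theorem psi_translate (ha : ∀ c, a c ≠ 0 ∧ a c ≠ 1) (N : ∀ c, J c → ι c → ℤ)
    (p : ∀ c, ι c → Pt (a c)) (b : ∀ c, J c → Pt (a c)) :
    Psi N (fun c i => p c i + lin N b c i) = Psi N p := by
  obtain ⟨F, _, _, Q₀, hQ₀⟩ := gen_exists (k := k) (Σ c, J c) (fun i => a i.1)
    (fun i => (ha i.1).1) (fun i => (ha i.1).2)
  let Q : ∀ c, J c → Pt (algebraMap k F (a c)) := fun c j => Q₀ ⟨c, j⟩
  have hQ : IsGen k (unc Q) := hQ₀
  rw [psi_eq ha Q hQ, psi_eq ha _ (psi_gen_add ha Q hQ b)]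
  congr 1
  funext i
  obtain ⟨c, i⟩ := i
  unfold unc pt lin
  rw [map_add, map_sum]
  simp only [map_zsmul, zsmul_add, Finset.sum_add_distrib]
  abel

theorem psi_perm (ha : ∀ c, a c ≠ 0 ∧ a c ≠ 1) (N : ∀ c, J c → ι c → ℤ)
    (p : ∀ c, ι c → Pt (a c)) (π : ∀ c, Equiv.Perm (J c)) :
    Psi (fun c j => N c (π c j)) p = Psi N p := by
  obtain ⟨F, _, _, Q₀, hQ₀⟩ := gen_exists (k := k) (Σ c, J c) (fun i => a i.1)
    (fun i => (ha i.1).1) (fun i => (ha i.1).2)
  let Q : ∀ c, J c → Pt (algebraMap k F (a c)) := fun c j => Q₀ ⟨c, j⟩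
  have hQ : IsGen k (unc Q) := hQ₀
  have hQ' : IsGen k (unc (fun c j => Q c (π c j))) := by
    refine psi_isGen ha Q _ hQ (fun c j i => if π c j = i then 1 else 0) (fun _ _ => 0) ?_
    funext c i
    unfold pt lin
    beta_reduce
    rw [Finset.sum_eq_single ((π c).symm i)]
    · rw [if_pos ((π c).apply_symm_apply i), one_zsmul, map_zero, add_zero,
        (π c).apply_symm_apply]
    · intro j _ hj
      rw [if_neg, zero_zsmul]
      intro hji
      exact hj (by rw [← hji, (π c).symm_apply_apply])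
    · intro hi
      exact absurd (Finset.mem_univ _) hi
  rw [psi_eq ha Q hQ N p, psi_eq ha _ hQ' (fun c j => N c (π c j)) p]
  congr 1
  funext i
  obtain ⟨c, i⟩ := i
  unfold unc pt lin
  congr 1
  exact Equiv.sum_comp (π c) (fun j => N c j i • Q c j)

omit [CharZero k] [Fintype C] in
private theorem psi_pt_eq {F : Type} [Field F] [Algebra k F]
    (Q : ∀ c, J c → Pt (algebraMap k F (a c))) (N : ∀ c, J c → ι c → ℤ)
    (p : ∀ c, ι c → Pt (a c)) {c₀ : C} {i₀ j₀ : J c₀} (hN : N c₀ i₀ = N c₀ j₀) (t : Pt (a c₀)) :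
    pt N (fun c j => Q c j + bca F (Pi.single (M := fun c => J c → Pt (a c)) c₀
      (fun j => (if j = i₀ then t else 0) - (if j = j₀ then t else 0)) c j)) p =
      pt N Q p := by
  funext c i
  unfold pt lin
  congr 1
  simp only [zsmul_add, Finset.sum_add_distrib]
  by_cases hc : c = c₀
  · subst hc
    simp only [Pi.single_eq_same, map_sub, zsmul_sub, Finset.sum_sub_distrib]
    have h1 : ∀ l : J c, ∑ j, N c j i • bca F (if j = l then t else 0) = N c l i • bca F t := by
      intro l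
      rw [Finset.sum_eq_single l]
      · rw [if_pos rfl]
      · intro j _ hj
        rw [if_neg hj, map_zero, zsmul_zero]
      · intro hi
        exact absurd (Finset.mem_univ _) hi
    rw [h1, h1, hN, sub_self, add_zero]
  · rw [Pi.single_eq_of_ne hc]
    simp

theorem psi_eq_col [IsAlgClosed k] (ha : ∀ c, a c ≠ 0 ∧ a c ≠ 1) (N : ∀ c, J c → ι c → ℤ)
    (p : ∀ c, ι c → Pt (a c)) {c₀ : C} {i₀ j₀ : J c₀} (hij : i₀ ≠ j₀)
    (hN : N c₀ i₀ = N c₀ j₀) : Psi N p = 0 := by
  obtain ⟨F, _, _, Q₀, hQ₀⟩ := gen_exists (k := k) (Σ c, J c) (fun i => a i.1)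
    (fun i => (ha i.1).1) (fun i => (ha i.1).2)
  let Q : ∀ c, J c → Pt (algebraMap k F (a c)) := fun c j => Q₀ ⟨c, j⟩
  have hQ : IsGen k (unc Q) := hQ₀
  rw [psi_eq ha Q hQ]
  have hfin : ¬ FiniteDimensional (coordField k (unc (pt N Q p))) F := by
    intro hfd
    have hσ : ∀ t : Pt (a c₀), ∃ τ : F ≃ₐ[coordField k (unc (pt N Q p))] F, ∃ σ : F ≃ₐ[k] F,
        (∀ x, τ x = σ x) ∧ bcs (σ : F →ₐ[k] F) (Q c₀ i₀) = Q c₀ i₀ + bca F t := by
      intro t
      obtain ⟨σ, hσ⟩ := gen_unique (unc Q) hQ _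
        (psi_gen_add ha Q hQ (fun c j => Pi.single (M := fun c => J c → Pt (a c)) c₀
          (fun j => (if j = i₀ then t else 0) - (if j = j₀ then t else 0)) c j))
      have hpt : ∀ c i, bcs (σ : F →ₐ[k] F) (pt N Q p c i) = pt N Q p c i := by
        intro c i
        rw [bcs_pt]
        have h2 := psi_pt_eq Q N p hN t
        have h3 := congrFun (congrFun h2 c) i
        rw [← h3]
        congr 1
        funext c j
        exact hσ ⟨c, j⟩
      have hfix : ∀ x ∈ coordField k (unc (pt N Q p)), σ x = x := by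
        intro x hx
        unfold coordField at hx
        induction hx using IntermediateField.adjoin_induction with
        | mem x hx =>
          rcases hx with ⟨⟨c, i⟩, rfl⟩ | ⟨⟨c, i⟩, rfl⟩
          · have h4 := congrArg xc (hpt c i)
            rw [xc_bcs] at h4
            exact h4
          · have h4 := congrArg yc (hpt c i)
            rw [yc_bcs] at h4
            exact h4
        | algebraMap c => exact σ.commutes c
        | add x y _ _ hx hy => rw [map_add, hx, hy]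
        | inv x _ hx => rw [map_inv₀, hx]
        | mul x y _ _ hx hy => rw [map_mul, hx, hy]
      refine ⟨AlgEquiv.ofRingEquiv (f := (σ : F ≃+* F)) (fun x => hfix x x.2), σ,
        fun x => rfl, ?_⟩
      have h5 := hσ ⟨c₀, i₀⟩
      have h6 : bcs (σ : F →ₐ[k] F) (Q c₀ i₀) = Q c₀ i₀ +
          bca F (Pi.single (M := fun c => J c → Pt (a c)) c₀
          (fun j => (if j = i₀ then t else 0) - (if j = j₀ then t else 0)) c₀ i₀) := h5
      rw [h6, Pi.single_eq_same]
      beta_reduce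
      rw [if_pos rfl, if_neg hij, sub_zero]
    choose τ σ hτ hb using hσ
    have hinj : Function.Injective τ := by
      intro t s hts
      have h1 : σ t = σ s := by
        apply AlgEquiv.ext
        intro x
        rw [← hτ, ← hτ, hts]
      have h2 := hb t
      rw [h1, hb s] at h2
      exact (bc_injective _ _ (add_left_cancel h2)).symm
    have hinf : Infinite (Pt (a c₀)) := ZC.infinite_Pt (ha c₀).1 (ha c₀).2
    exact not_injective_infinite_finite τ hinj
  unfold cyc
  rw [Module.finrank_of_not_finite hfin]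
  simp

end ACP
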