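import Pool.Agent.H98.ACP.VanHom
import Pool.Agent.H18.AC.Alg2

/-!
Module VanAlb (project V3).  The Albanese part of the vanishing.
PROOF.  g N q = ∑ c₀, g N (Pi.single c₀ (q c₀)).  Fix c₀, C' = {c // c ≠ c₀} (Equiv.piSplitAt).  W = the ℚ-submodule of the functions
G : (∀ c : C', ...) → V with BMQ G.  For M : J c₀ → ι c₀ → ℤ, q₀ : ι c₀ → A c₀ let G M q₀ ∈ W be the function
N' ↦ g (M, N') (Pi.single c₀ q₀).  AC.alg2 (its hypotheses: hg in the block c₀, hcol) gives
G M q₀ = ∑ I ∑ K D I K (minor M K • minorA M q₀ I), D I K : A c₀ →+ W.  For each I, K apply vanish_hom on C' to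
f N' b = (D I K b) N', b t = (e t * minor (N t c₀) K) • minorA (N t c₀) (q t c₀) I; its hypothesis is h for c₀, I and the extensions of
I', K' to all blocks by K at c₀ (minors (N t) K'' = minor (N t c₀) K * the product over the other blocks).
-/

set_option autoImplicit false

namespace ACP

open AC

/-- glueing a value at `c₀` and the values at the other indices -/
def VanAlb_glue {C : Type} [DecidableEq C] (c₀ : C) {β : C → Type} (x : β c₀)
    (y : ∀ c : {c // c ≠ c₀}, β c.1) (c : C) : β c :=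
  if h : c = c₀ then cast (congrArg β h.symm) x else y ⟨c, h⟩

section Glue

variable {C : Type} [DecidableEq C] (c₀ : C) {β : C → Type}

theorem VanAlb_glue_self (x : β c₀) (y : ∀ c : {c // c ≠ c₀}, β c.1) :
    VanAlb_glue c₀ x y c₀ = x := by
  simp [VanAlb_glue]

theorem VanAlb_glue_ne (x : β c₀) (y : ∀ c : {c // c ≠ c₀}, β c.1) (c : {c // c ≠ c₀}) :
    VanAlb_glue c₀ x y c.1 = y c := by
  simp [VanAlb_glue, c.2]

theorem VanAlb_glue_eta (N : ∀ c, β c) :
    VanAlb_glue c₀ (N c₀) (fun c : {c // c ≠ c₀} => N c.1) = N := by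
  funext c
  by_cases h : c = c₀
  · subst h
    exact VanAlb_glue_self _ _ _
  · exact VanAlb_glue_ne c₀ _ _ ⟨c, h⟩

theorem VanAlb_update_self (x x' : β c₀) (y : ∀ c : {c // c ≠ c₀}, β c.1) :
    Function.update (VanAlb_glue c₀ x y) c₀ x' = VanAlb_glue c₀ x' y := by
  funext c
  by_cases h : c = c₀
  · subst h
    rw [Function.update_self, VanAlb_glue_self]
  · rw [Function.update_of_ne h, VanAlb_glue_ne c₀ x y ⟨c, h⟩, VanAlb_glue_ne c₀ x' y ⟨c, h⟩]

theorem VanAlb_update_ne (x : β c₀) (y : ∀ c : {c // c ≠ c₀}, β c.1) (c : {c // c ≠ c₀})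
    (z : β c.1) :
    Function.update (VanAlb_glue c₀ x y) c.1 z = VanAlb_glue c₀ x (Function.update y c z) := by
  funext d
  by_cases h : d = c₀
  · subst h
    rw [Function.update_of_ne (Ne.symm c.2), VanAlb_glue_self, VanAlb_glue_self]
  · rw [VanAlb_glue_ne c₀ x _ ⟨d, h⟩]
    by_cases hd : d = c.1
    · subst hd
      rw [Function.update_self]
      exact (Function.update_self c z y).symm
    · rw [Function.update_of_ne hd, VanAlb_glue_ne c₀ x y ⟨d, h⟩,
        Function.update_of_ne (fun he => hd (congrArg Subtype.val he))]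

end Glue

section MQlin

variable {J Λ V : Type} [AddCommGroup Λ] [AddCommGroup V] [DecidableEq J]

theorem VanAlb_mq_zero : MQ (fun _ : J → Λ => (0 : V)) :=
  { par := by intro c j x y; simp
    symm := by intro π c; rfl
    eqcol := by intro c i j _ _; rfl }

theorem VanAlb_mq_add {f g : (J → Λ) → V} (hf : MQ f) (hg : MQ g) :
    MQ (fun c => f c + g c) :=
  { par := by
      intro c j x y
      have h1 := hf.par c j x y
      have h2 := hg.par c j x y
      calc (f (Function.update c j (x + y)) + g (Function.update c j (x + y))) +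
            (f (Function.update c j (x - y)) + g (Function.update c j (x - y))) =
          (f (Function.update c j (x + y)) + f (Function.update c j (x - y))) +
            (g (Function.update c j (x + y)) + g (Function.update c j (x - y))) := by abel
        _ = _ := by
          rw [h1, h2, smul_add, smul_add]
          abel
    symm := by
      intro π c
      rw [hf.symm, hg.symm]
    eqcol := by
      intro c i j hij h
      rw [hf.eqcol c i j hij h, hg.eqcol c i j hij h, add_zero] }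

theorem VanAlb_mq_smul [Module ℚ V] {f : (J → Λ) → V} (a : ℚ) (hf : MQ f) :
    MQ (fun c => a • f c) :=
  { par := by
      intro c j x y
      rw [← smul_add, hf.par c j x y, smul_add, smul_comm a 2, smul_comm a 2]
    symm := by
      intro π c
      rw [hf.symm]
    eqcol := by
      intro c i j hij h
      rw [hf.eqcol c i j hij h, smul_zero] }

end MQlin

/-- the submodule of the functions which are multi-quadratic in each block -/
def VanAlb_W (C : Type) [DecidableEq C] (J ι : C → Type) [∀ c, DecidableEq (J c)] (V : Type)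
    [AddCommGroup V] [Module ℚ V] : Submodule ℚ ((∀ c, J c → ι c → ℤ) → V) where
  carrier := {G | BMQ G}
  zero_mem' := fun _ _ => VanAlb_mq_zero
  add_mem' := fun ha hb N c => VanAlb_mq_add (ha N c) (hb N c)
  smul_mem' := fun a _ hb N c => VanAlb_mq_smul a (hb N c)

variable {C : Type} [Fintype C] [DecidableEq C] {J ι : C → Type} [∀ c, Fintype (J c)]
  [∀ c, DecidableEq (J c)] [∀ c, Fintype (ι c)] [∀ c, DecidableEq (ι c)] {V : Type}
  [AddCommGroup V] [Module ℚ V] {T : Type} [Fintype T]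

omit [∀ c, Fintype (ι c)] [∀ c, DecidableEq (ι c)] in
theorem VanAlb_minorsOff (c₀ : C) (N : ∀ c, J c → ι c → ℤ) (K : J c₀ → ι c₀)
    (I' : ∀ c : {c // c ≠ c₀}, J c.1 → ι c.1) :
    minorsOff c₀ N (VanAlb_glue c₀ (β := fun c => J c → ι c) K I') =
      minors (C := {c // c ≠ c₀}) (J := fun c => J c.1) (ι := fun c => ι c.1)
        (fun c => N c.1) I' := by
  unfold minorsOff minors
  rw [Finset.prod_subtype (Finset.univ.erase c₀) (p := fun c => c ≠ c₀) (fun c => by simp)]
  refine Finset.prod_congr rfl fun c _ => ?_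
  rw [VanAlb_glue_ne c₀ (β := fun c => J c → ι c) K I' c]

omit [∀ c, Fintype (ι c)] [∀ c, DecidableEq (ι c)] in
theorem VanAlb_minors (c₀ : C) (N : ∀ c, J c → ι c → ℤ) (K : J c₀ → ι c₀)
    (I' : ∀ c : {c // c ≠ c₀}, J c.1 → ι c.1) :
    minors N (VanAlb_glue c₀ (β := fun c => J c → ι c) K I') =
      minor (N c₀) K * minors (C := {c // c ≠ c₀}) (J := fun c => J c.1) (ι := fun c => ι c.1)
        (fun c => N c.1) I' := by
  rw [← VanAlb_minorsOff c₀ N K I']
  unfold minors minorsOff
  rw [← Finset.mul_prod_erase Finset.univ _ (Finset.mem_univ c₀),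
    VanAlb_glue_self c₀ (β := fun c => J c → ι c) K I']

/-- one block -/
theorem VanAlb_one {A : C → Type} [∀ c, AddCommGroup (A c)]
    (g : (∀ c, J c → ι c → ℤ) → (∀ c, ι c → A c) →+ V) (hg : ∀ q, BMQ (fun N => g N q))
    (hcol : ∀ (N : ∀ c, J c → ι c → ℤ) (c : C) (j : J c) (b : A c),
      g N (Pi.single c (fun i => N c j i • b)) = 0)
    (N : T → ∀ c, J c → ι c → ℤ) (e : T → ℤ) (c₀ : C) (q : T → ι c₀ → A c₀)
    (h : ∀ (I : Option (J c₀) → ι c₀) (I' K' : ∀ c, J c → ι c), ∃ M : ℕ, 0 < M ∧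
      M • ∑ t, (e t * (minorsOff c₀ (N t) I' * minors (N t) K')) •
        minorA (N t c₀) (q t) I = 0) :
    ∑ t, e t • g (N t) (Pi.single c₀ (q t)) = 0 := by
  -- the function with values in the submodule
  let W := VanAlb_W {c // c ≠ c₀} (fun c => J c.1) (fun c => ι c.1) V
  let gl : (J c₀ → ι c₀ → ℤ) → (∀ c : {c // c ≠ c₀}, J c.1 → ι c.1 → ℤ) →
      (∀ c, J c → ι c → ℤ) := fun M N' => VanAlb_glue c₀ (β := fun c => J c → ι c → ℤ) M N'
  have hmem : ∀ (M : J c₀ → ι c₀ → ℤ) (q₀ : ι c₀ → A c₀),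
      (fun N' => g (gl M N') (Pi.single c₀ q₀)) ∈ W := by
    intro M q₀ N' c
    have h1 := hg (Pi.single c₀ q₀) (gl M N') c.1
    have h2 : (fun M' : J c.1 → ι c.1 → ℤ =>
        g (gl M (Function.update N' c M')) (Pi.single c₀ q₀)) =
        fun M' : J c.1 → ι c.1 → ℤ =>
          g (Function.update (gl M N') c.1 M') (Pi.single c₀ q₀) := by
      funext M'
      rw [VanAlb_update_ne c₀ (β := fun c => J c → ι c → ℤ) M N' c M']
    exact h2 ▸ h1
  let G : (J c₀ → ι c₀ → ℤ) → (ι c₀ → A c₀) →+ W := fun M =>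
    { toFun := fun q₀ => ⟨fun N' => g (gl M N') (Pi.single c₀ q₀), hmem M q₀⟩
      map_zero' := by
        apply Subtype.ext
        funext N'
        change g (gl M N') (Pi.single c₀ 0) = 0
        rw [Pi.single_zero, map_zero]
      map_add' := by
        intro a b
        apply Subtype.ext
        funext N'
        change g (gl M N') (Pi.single c₀ (a + b)) =
          g (gl M N') (Pi.single c₀ a) + g (gl M N') (Pi.single c₀ b)
        rw [Pi.single_add, map_add] }
  have hGap : ∀ M q₀ N', (G M q₀ : (∀ c : {c // c ≠ c₀}, J c.1 → ι c.1 → ℤ) → V) N' =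
      g (gl M N') (Pi.single c₀ q₀) := fun _ _ _ => rfl
  have hblock : ∀ (q₀ : ι c₀ → A c₀) (N' : ∀ c : {c // c ≠ c₀}, J c.1 → ι c.1 → ℤ),
      MQ (fun M : J c₀ → ι c₀ → ℤ => g (gl M N') (Pi.single c₀ q₀)) := by
    intro q₀ N'
    have h1 := hg (Pi.single c₀ q₀) (gl 0 N') c₀
    have h2 : (fun M : J c₀ → ι c₀ → ℤ => g (gl M N') (Pi.single c₀ q₀)) =
        fun M : J c₀ → ι c₀ → ℤ => g (Function.update (gl 0 N') c₀ M) (Pi.single c₀ q₀) := by
      funext M
      rw [VanAlb_update_self c₀ (β := fun c => J c → ι c → ℤ) 0 M N']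
    exact h2 ▸ h1
  have hGq : ∀ q₀ : ι c₀ → A c₀, MQ (fun M => G M q₀) := by
    intro q₀
    refine { par := ?_, symm := ?_, eqcol := ?_ }
    · intro c j x y
      apply Subtype.ext
      funext N'
      exact (hblock q₀ N').par c j x y
    · intro π c
      apply Subtype.ext
      funext N'
      exact (hblock q₀ N').symm π c
    · intro c i j hij hc
      apply Subtype.ext
      funext N'
      exact (hblock q₀ N').eqcol c i j hij hc
  have hGcol : ∀ (M : J c₀ → ι c₀ → ℤ) (j : J c₀) (b : A c₀), G M (fun i => M j i • b) = 0 := by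
    intro M j b
    apply Subtype.ext
    funext N'
    change g (gl M N') (Pi.single c₀ (fun i => M j i • b)) = 0
    have h1 := hcol (gl M N') c₀ j b
    have h2 : gl M N' c₀ = M := VanAlb_glue_self c₀ (β := fun c => J c → ι c → ℤ) M N'
    rw [h2] at h1
    exact h1
  obtain ⟨D, hD⟩ := alg2 G hGq hGcol
  -- the remaining blocks
  let R : T → ∀ c : {c // c ≠ c₀}, J c.1 → ι c.1 → ℤ := fun t c => N t c.1
  have hR : ∀ t, gl (N t c₀) (R t) = N t := fun t =>
    VanAlb_glue_eta c₀ (β := fun c => J c → ι c → ℤ) (N t)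
  have key : ∀ (I : Option (J c₀) → ι c₀) (K : J c₀ → ι c₀),
      ∑ t, (D I K ((e t * minor (N t c₀) K) • minorA (N t c₀) (q t) I) :
        (∀ c : {c // c ≠ c₀}, J c.1 → ι c.1 → ℤ) → V) (R t) = 0 := by
    intro I K
    let f : (∀ c : {c // c ≠ c₀}, J c.1 → ι c.1 → ℤ) → A c₀ →+ V := fun N' =>
      { toFun := fun b => (D I K b : (∀ c : {c // c ≠ c₀}, J c.1 → ι c.1 → ℤ) → V) N'
        map_zero' := by rw [map_zero]; rfl
        map_add' := by intro a b; rw [map_add]; rfl }
    have hf : ∀ b, BMQ (fun N' => f N' b) := fun b => (D I K b).2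
    have h1 := vanish_hom (C := {c // c ≠ c₀}) (J := fun c => J c.1) (ι := fun c => ι c.1)
      f hf R (fun t => (e t * minor (N t c₀) K) • minorA (N t c₀) (q t) I)
    refine h1 ?_
    intro I' K'
    obtain ⟨M, hM, h2⟩ := h I (VanAlb_glue c₀ (β := fun c => J c → ι c) K I')
      (VanAlb_glue c₀ (β := fun c => J c → ι c) K K')
    refine ⟨M, hM, ?_⟩
    rw [← h2]
    congr 1
    refine Finset.sum_congr rfl fun t _ => ?_
    rw [VanAlb_minorsOff, VanAlb_minors, smul_smul]
    congr 1
    ring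
  calc ∑ t, e t • g (N t) (Pi.single c₀ (q t))
      = ∑ t, e t • (G (N t c₀) (q t) : (∀ c : {c // c ≠ c₀}, J c.1 → ι c.1 → ℤ) → V) (R t) := by
        refine Finset.sum_congr rfl fun t _ => ?_
        rw [hGap, hR]
    _ = ∑ t, ∑ I : Option (J c₀) → ι c₀, ∑ K : J c₀ → ι c₀,
          (D I K ((e t * minor (N t c₀) K) • minorA (N t c₀) (q t) I) :
            (∀ c : {c // c ≠ c₀}, J c.1 → ι c.1 → ℤ) → V) (R t) := by
        refine Finset.sum_congr rfl fun t _ => ?_
        rw [hD, AddSubmonoidClass.coe_finsetSum, Finset.sum_apply, Finset.smul_sum]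
        refine Finset.sum_congr rfl fun I _ => ?_
        rw [AddSubmonoidClass.coe_finsetSum, Finset.sum_apply, Finset.smul_sum]
        refine Finset.sum_congr rfl fun K _ => ?_
        rw [map_zsmul, mul_smul]
        rfl
    _ = ∑ I : Option (J c₀) → ι c₀, ∑ K : J c₀ → ι c₀, ∑ t,
          (D I K ((e t * minor (N t c₀) K) • minorA (N t c₀) (q t) I) :
            (∀ c : {c // c ≠ c₀}, J c.1 → ι c.1 → ℤ) → V) (R t) := by
        rw [Finset.sum_comm]
        refine Finset.sum_congr rfl fun I _ => ?_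
        rw [Finset.sum_comm]
    _ = 0 := Finset.sum_eq_zero fun I _ => Finset.sum_eq_zero fun K _ => key I K

theorem vanish_alb {A : C → Type} [∀ c, AddCommGroup (A c)]
    (g : (∀ c, J c → ι c → ℤ) → (∀ c, ι c → A c) →+ V) (hg : ∀ q, BMQ (fun N => g N q))
    (hcol : ∀ (N : ∀ c, J c → ι c → ℤ) (c : C) (j : J c) (b : A c),
      g N (Pi.single c (fun i => N c j i • b)) = 0)
    (N : T → ∀ c, J c → ι c → ℤ) (e : T → ℤ) (q : T → ∀ c, ι c → A c)
    (h : ∀ (c₀ : C) (I : Option (J c₀) → ι c₀) (I' K' : ∀ c, J c → ι c), ∃ M : ℕ, 0 < M ∧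
      M • ∑ t, (e t * (minorsOff c₀ (N t) I' * minors (N t) K')) •
        minorA (N t c₀) (q t c₀) I = 0) :
    ∑ t, e t • g (N t) (q t) = 0 := by
  have h1 : ∀ t, e t • g (N t) (q t) = ∑ c₀, e t • g (N t) (Pi.single c₀ (q t c₀)) := by
    intro t
    rw [← Finset.smul_sum, ← map_sum, Finset.univ_sum_single]
  rw [Finset.sum_congr rfl fun t _ => h1 t, Finset.sum_comm]
  exact Finset.sum_eq_zero fun c₀ _ =>
    VanAlb_one g hg hcol N e c₀ (fun t => q t c₀) (fun I I' K' => h c₀ I I' K')

end ACP
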