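import Pool.Agent.H98.ACP.AlgB1

/-!
Module VanHom (project V3).  Vanishing of weighted sums of values of functions which are multi-quadratic in each block.
PROOF.  The function f with values in the ℚ-module B →+ V is BMQ (fields of MQ pointwise, AddMonoidHom.ext); algB1 gives
f N = ∑ I ∑ K (minors N I * minors N K) • D I K with D I K : B →+ V, so ∑ t, f (N t) (b t) =
∑ I ∑ K D I K (∑ t, (minors (N t) I * minors (N t) K) • b t) = 0: the argument is torsion and V is torsion free (a ℚ-module), as
at the end of AC.abstract_zero (H18/AC/Final.lean).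
-/

set_option autoImplicit false

namespace ACP

open AC

variable {C : Type} [Fintype C] [DecidableEq C] {J ι : C → Type} [∀ c, Fintype (J c)]
  [∀ c, DecidableEq (J c)] [∀ c, Fintype (ι c)] [∀ c, DecidableEq (ι c)] {V : Type}
  [AddCommGroup V] [Module ℚ V] {T : Type} [Fintype T]

theorem vanish_hom {B : Type} [AddCommGroup B] (f : (∀ c, J c → ι c → ℤ) → B →+ V)
    (hf : ∀ b, BMQ (fun N => f N b)) (N : T → ∀ c, J c → ι c → ℤ) (b : T → B)
    (h : ∀ I K : ∀ c, J c → ι c, ∃ M : ℕ, 0 < M ∧
      M • ∑ t, (minors (N t) I * minors (N t) K) • b t = 0) :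
    ∑ t, f (N t) (b t) = 0 := by
  have hF : BMQ f := by
    intro N c
    refine ⟨fun d j x y => ?_, fun π d => ?_, fun d i j hij hd => ?_⟩
    · ext b
      have h1 := (hf b N c).par d j x y
      simpa using h1
    · ext b
      exact (hf b N c).symm π d
    · ext b
      exact (hf b N c).eqcol d i j hij hd
  obtain ⟨D, hD⟩ := algB1 f hF
  calc ∑ t, f (N t) (b t)
      = ∑ t, ∑ I : ∀ c, J c → ι c, ∑ K : ∀ c, J c → ι c,
          D I K ((minors (N t) I * minors (N t) K) • b t) := by
        refine Finset.sum_congr rfl fun t _ => ?_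
        rw [hD (N t), AddMonoidHom.finsetSum_apply]
        refine Finset.sum_congr rfl fun I _ => ?_
        rw [AddMonoidHom.finsetSum_apply]
        refine Finset.sum_congr rfl fun K _ => ?_
        rw [map_zsmul]
        rfl
    _ = ∑ I : ∀ c, J c → ι c, ∑ K : ∀ c, J c → ι c,
          D I K (∑ t, (minors (N t) I * minors (N t) K) • b t) := by
        rw [Finset.sum_comm]
        refine Finset.sum_congr rfl fun I _ => ?_
        rw [Finset.sum_comm]
        refine Finset.sum_congr rfl fun K _ => ?_
        rw [map_sum]
    _ = 0 := by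
        refine Finset.sum_eq_zero fun I _ => Finset.sum_eq_zero fun K _ => ?_
        obtain ⟨M, hM, h4⟩ := h I K
        have h5 := congrArg (D I K) h4
        rw [map_nsmul, map_zero] at h5
        have h6 : ((M : ℚ)) • D I K (∑ t, (minors (N t) I * minors (N t) K) • b t) = 0 := by
          rw [← h5, Nat.cast_smul_eq_nsmul]
        rcases smul_eq_zero.1 h6 with h7 | h7
        · exact absurd h7 (by exact_mod_cast hM.ne')
        · exact h7

end ACP
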